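import Pool.Agent.Helper44.ThA.M000
import Pool.Agent.Helper44.ThA.M001
import Pool.Agent.Helper44.ThA.M002
import Pool.Agent.Helper44.ThA.M003
import Pool.Agent.Helper44.ThA.M004
import Pool.Agent.Helper44.ThA.M005
import Pool.Agent.Helper44.ThA.M006
import Pool.Agent.Helper44.ThA.M007
import Pool.Agent.Helper44.ThA.M008
import Pool.Agent.Helper44.ThA.M009
import Pool.Agent.Helper44.ThA.M010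
import Pool.Agent.Helper44.ThA.M011
import Pool.Agent.Helper44.ThA.M012
import Pool.Agent.Helper44.ThA.M013
import Pool.Agent.Helper44.ThA.M014
import Pool.Agent.Helper44.ThA.M015
import Pool.Agent.Helper44.ThA.M016
import Pool.Agent.Helper44.ThA.M017
import Pool.Agent.Helper44.ThA.M018
import Pool.Agent.Helper44.ThA.M019
import Pool.Agent.Helper44.ThA.M020
import Pool.Agent.Helper44.ThA.M021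
import Pool.Agent.Helper44.ThA.M022
import Pool.Agent.Helper44.ThA.M023
import Pool.Agent.Helper44.ThA.M024
import Pool.Agent.Helper44.ThA.M025
import Pool.Agent.Helper44.ThA.M026
import Pool.Agent.Helper44.ThA.M027
import Pool.Agent.Helper44.ThA.M028
import Pool.Agent.Helper44.ThA.M029
import Pool.Agent.Helper44.ThA.M030
import Pool.Agent.Helper44.ThA.M031
import Pool.Agent.Helper44.ThA.M032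
import Pool.Agent.Helper44.ThA.M033
import Pool.Agent.Helper44.ThA.M034
import Pool.Agent.Helper44.ThA.M035
import Pool.Agent.Helper44.ThA.M036
import Pool.Agent.Helper44.ThA.M037
import Pool.Agent.Helper44.ThA.M038
import Pool.Agent.Helper44.ThA.M039
import Pool.Agent.Helper44.ThA.M040
import Pool.Agent.Helper44.ThA.M041
import Pool.Agent.Helper44.ThA.M042
import Pool.Agent.Helper44.ThA.M043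
import Pool.Agent.Helper44.ThA.M044
import Pool.Agent.Helper44.ThA.M045
import Pool.Agent.Helper44.ThA.M046
import Pool.Agent.Helper44.ThA.M047
import Pool.Agent.Helper44.ThA.M048
import Pool.Agent.Helper44.ThA.M049
import Pool.Agent.Helper44.ThA.M050
import Pool.Agent.Helper44.ThA.M051
import Pool.Agent.Helper44.ThA.M052
import Pool.Agent.Helper44.ThA.M053
import Pool.Agent.Helper44.ThA.M054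
import Pool.Agent.Helper44.ThA.M055
import Pool.Agent.Helper44.ThA.M056
import Pool.Agent.Helper44.ThA.M057
import Pool.Agent.Helper44.ThA.M058
import Pool.Agent.Helper44.ThA.M059
import Pool.Agent.Helper44.ThA.M060
import Pool.Agent.Helper44.ThA.M061
import Pool.Agent.Helper44.ThA.M062
import Pool.Agent.Helper44.ThA.M063
import Pool.Agent.Helper44.ThA.M064
import Pool.Agent.Helper44.ThA.M065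
import Pool.Agent.Helper44.ThA.M066
import Pool.Agent.Helper44.ThA.M067
import Pool.Agent.Helper44.ThA.M068
import Pool.Agent.Helper44.ThA.M069
import Pool.Agent.Helper44.ThA.M070
import Pool.Agent.Helper44.ThA.M071
import Pool.Agent.Helper44.ThA.M072
import Pool.Agent.Helper44.ThA.M073
import Pool.Agent.Helper44.ThA.M074
import Pool.Agent.Helper44.ThA.M075
import Pool.Agent.Helper44.ThA.M076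
import Pool.Agent.Helper44.ThA.M077
import Pool.Agent.Helper44.ThA.M078
import Pool.Agent.Helper44.ThA.M079
import Pool.Agent.Helper44.ThA.M080
import Pool.Agent.Helper44.ThA.M081
import Pool.Agent.Helper44.ThA.M082
import Pool.Agent.Helper44.ThA.M083
import Pool.Agent.Helper44.ThA.M084
import Pool.Agent.Helper44.ThA.M085
import Pool.Agent.Helper44.ThA.M086
import Pool.Agent.Helper44.ThA.M087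
import Pool.Agent.Helper44.ThA.M088
import Pool.Agent.Helper44.ThA.M089
import Pool.Agent.Helper44.ThA.M090
import Pool.Agent.Helper44.ThA.M091
import Pool.Agent.Helper44.ThA.M092
import Pool.Agent.Helper44.ThA.M093
import Pool.Agent.Helper44.ThA.M094
import Pool.Agent.Helper44.ThA.M095
import Pool.Agent.Helper44.ThA.M096
import Pool.Agent.Helper44.ThA.M097
import Pool.Agent.Helper44.ThA.M098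
import Pool.Agent.Helper44.ThA.M099
import Pool.Agent.Helper44.ThA.M100
import Pool.Agent.Helper44.ThA.M101
import Pool.Agent.Helper44.ThA.M102
import Pool.Agent.Helper44.ThA.M103
import Pool.Agent.Helper44.ThA.M104
import Pool.Agent.Helper44.ThA.M105
import Pool.Agent.Helper44.ThA.M106
import Pool.Agent.Helper44.ThA.M107
import Pool.Agent.Helper44.ThA.M108
import Pool.Agent.Helper44.ThA.M109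
import Pool.Agent.Helper44.ThA.M110
import Pool.Agent.Helper44.ThA.M111
import Pool.Agent.Helper44.ThA.M112
import Pool.Agent.Helper44.ThA.M113
import Pool.Agent.Helper44.ThA.M114
import Pool.Agent.Helper44.ThA.M115
import Pool.Agent.Helper44.ThA.M116
import Pool.Agent.Helper44.ThA.M117
import Pool.Agent.Helper44.ThA.M118
import Pool.Agent.Helper44.ThA.M119
import Pool.Agent.Helper44.ThA.M120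
import Pool.Agent.Helper44.ThA.M121
import Pool.Agent.Helper44.ThA.M122
import Pool.Agent.Helper44.ThA.M123
import Pool.Agent.Helper44.ThA.M124

set_option autoImplicit false
set_option maxRecDepth 100000

namespace Pool.Agent.Helper44.ThA

open Pool.Agent.Helper44.CK

theorem j0 : Ref (sa1 R0) (sa1 (sa2 (sa0 R1))) (sa1 (sa2 R2)) (sa2 (sa1 (sa0 R3))) :=
  Ref.s02 (by decide +kernel) r0 r1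

theorem j1 : Ref (sa1 R0) (sa1 (sa2 (sa0 R1))) (sa2 R2) (sa2 (sa1 (sa0 R3))) :=
  Ref.s21 (by decide +kernel) j0 r2

theorem j2 : Ref (sa1 R0) (sa2 (sa0 R1)) (sa2 R2) (sa2 (sa1 (sa0 R3))) :=
  Ref.s11 (by decide +kernel) j1 r3

theorem j3 : Ref (sa1 R0) (sa0 R1) (sa2 R2) (sa2 (sa1 (sa0 R3))) :=
  Ref.s12 (by decide +kernel) j2 r4

theorem j4 : Ref (sa2 (sa0 (sa1 R0))) (sa2 (sa1 (sa2 (sa0 R1)))) (sa2 (sa2 (sa1 (sa0 (sb2 R2))))) (sa0 (sa2 (sa1 (sa0 R3)))) :=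
  Ref.s02 (by decide +kernel) r5 r6

theorem j5 : Ref (sa2 (sa0 (sa1 R0))) (sa2 (sa1 (sa2 (sa0 R1)))) (sa2 (sa1 (sa0 (sb2 R2)))) (sa0 (sa2 (sa1 (sa0 R3)))) :=
  Ref.s22 (by decide +kernel) j4 r7

theorem j6 : Ref (sa0 (sa1 R0)) (sa2 (sa1 (sa2 (sa0 R1)))) (sa2 (sa1 (sa0 (sb2 R2)))) (sa0 (sa2 (sa1 (sa0 R3)))) :=
  Ref.s02 (by decide +kernel) j5 r8

theorem j7 : Ref (sb2 (sb0 (sa2 (sa0 (sb0 (sa2 (sa1 (sa0 (sa1 R0))))))))) (sb2 (sa1 (sb2 (sa1 (sb2 (sa1 (sa2 (sa1 (sa2 (sa0 R1)))))))))) (sb0 (sa1 (sa2 (sb0 (sb2 (sa2 (sa1 (sa0 (sb2 R2))))))))) (sa2 (sa1 (sa0 (sb1 (sb1 (sb2 (sb0 (sa2 (sa1 (sa0 R3)))))))))) :=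
  Ref.s22 (by decide +kernel) r21 r22

theorem j8 : Ref (sb2 (sb0 (sa2 (sa0 (sb0 (sa2 (sa1 (sa0 (sa1 R0))))))))) (sb2 (sa1 (sb2 (sa1 (sb2 (sa1 (sa2 (sa1 (sa2 (sa0 R1)))))))))) (sa1 (sa2 (sb0 (sb2 (sa2 (sa1 (sa0 (sb2 R2)))))))) (sa2 (sa1 (sa0 (sb1 (sb1 (sb2 (sb0 (sa2 (sa1 (sa0 R3)))))))))) :=
  Ref.s20 (by decide +kernel) r20 j7

theorem j9 : Ref (sb2 (sb0 (sa2 (sa0 (sb0 (sa2 (sa1 (sa0 (sa1 R0))))))))) (sa1 (sb2 (sa1 (sb2 (sa1 (sa2 (sa1 (sa2 (sa0 R1))))))))) (sa1 (sa2 (sb0 (sb2 (sa2 (sa1 (sa0 (sb2 R2)))))))) (sa2 (sa1 (sa0 (sb1 (sb1 (sb2 (sb0 (sa2 (sa1 (sa0 R3)))))))))) :=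
  Ref.s12 (by decide +kernel) r19 j8

theorem j10 : Ref (sb2 (sb0 (sa2 (sa0 (sb0 (sa2 (sa1 (sa0 (sa1 R0))))))))) (sb2 (sa1 (sb2 (sa1 (sa2 (sa1 (sa2 (sa0 R1)))))))) (sa1 (sa2 (sb0 (sb2 (sa2 (sa1 (sa0 (sb2 R2)))))))) (sa2 (sa1 (sa0 (sb1 (sb1 (sb2 (sb0 (sa2 (sa1 (sa0 R3)))))))))) :=
  Ref.s11 (by decide +kernel) j9 r23

theorem j11 : Ref (sb2 (sb0 (sa2 (sa0 (sb0 (sa2 (sa1 (sa0 (sa1 R0))))))))) (sb2 (sa1 (sb2 (sa1 (sa2 (sa1 (sa2 (sa0 R1)))))))) (sa1 (sa2 (sb0 (sb2 (sa2 (sa1 (sa0 (sb2 R2)))))))) (sa1 (sa0 (sb1 (sb1 (sb2 (sb0 (sa2 (sa1 (sa0 R3))))))))) :=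
  Ref.s32 (by decide +kernel) j10 r24

theorem j12 : Ref (sb2 (sb0 (sa2 (sa0 (sb0 (sa2 (sa1 (sa0 (sa1 R0))))))))) (sb2 (sa1 (sb2 (sa1 (sa2 (sa1 (sa2 (sa0 R1)))))))) (sa1 (sa2 (sb0 (sb2 (sa2 (sa1 (sa0 (sb2 R2)))))))) (sa0 (sb1 (sb1 (sb2 (sb0 (sa2 (sa1 (sa0 R3)))))))) :=
  Ref.s31 (by decide +kernel) j11 r25

theorem j13 : Ref (sb0 (sa2 (sa0 (sb0 (sa2 (sa1 (sa0 (sa1 R0)))))))) (sb2 (sa1 (sb2 (sa1 (sa2 (sa1 (sa2 (sa0 R1)))))))) (sa1 (sa2 (sb0 (sb2 (sa2 (sa1 (sa0 (sb2 R2)))))))) (sa0 (sb1 (sb1 (sb2 (sb0 (sa2 (sa1 (sa0 R3)))))))) :=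
  Ref.s02 (by decide +kernel) r18 j12

theorem j14 : Ref (sa2 (sa0 (sb0 (sa2 (sa1 (sa0 (sa1 R0))))))) (sb2 (sa1 (sb2 (sa1 (sa2 (sa1 (sa2 (sa0 R1)))))))) (sa1 (sa2 (sb0 (sb2 (sa2 (sa1 (sa0 (sb2 R2)))))))) (sa0 (sb1 (sb1 (sb2 (sb0 (sa2 (sa1 (sa0 R3)))))))) :=
  Ref.s00 (by decide +kernel) r17 j13

theorem j15 : Ref (sa2 (sa0 (sb0 (sa2 (sa1 (sa0 (sa1 R0))))))) (sb2 (sa1 (sb2 (sa1 (sa2 (sa1 (sa2 (sa0 R1)))))))) (sa2 (sb0 (sb2 (sa2 (sa1 (sa0 (sb2 R2))))))) (sa0 (sb1 (sb1 (sb2 (sb0 (sa2 (sa1 (sa0 R3)))))))) :=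
  Ref.s21 (by decide +kernel) j14 r26

theorem j16 : Ref (sa2 (sa0 (sb0 (sa2 (sa1 (sa0 (sa1 R0))))))) (sa1 (sb2 (sa1 (sa2 (sa1 (sa2 (sa0 R1))))))) (sa2 (sb0 (sb2 (sa2 (sa1 (sa0 (sb2 R2))))))) (sa0 (sb1 (sb1 (sb2 (sb0 (sa2 (sa1 (sa0 R3)))))))) :=
  Ref.s12 (by decide +kernel) r16 j15

theorem j17 : Ref (sa2 (sa0 (sb0 (sa2 (sa1 (sa0 (sa1 R0))))))) (sa1 (sb2 (sa1 (sa2 (sa1 (sa2 (sa0 R1))))))) (sb0 (sb2 (sa2 (sa1 (sa0 (sb2 R2)))))) (sa0 (sb1 (sb1 (sb2 (sb0 (sa2 (sa1 (sa0 R3)))))))) :=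
  Ref.s22 (by decide +kernel) j16 r27

theorem j18 : Ref (sa2 (sa0 (sb0 (sa2 (sa1 (sa0 (sa1 R0))))))) (sb2 (sa1 (sa2 (sa1 (sa2 (sa0 R1)))))) (sb0 (sb2 (sa2 (sa1 (sa0 (sb2 R2)))))) (sa0 (sb1 (sb1 (sb2 (sb0 (sa2 (sa1 (sa0 R3)))))))) :=
  Ref.s11 (by decide +kernel) j17 r28

theorem j19 : Ref (sb0 (sa2 (sa0 (sb0 (sa2 (sa1 (sa0 (sa1 R0)))))))) (sb2 (sa1 (sb2 (sa1 (sa2 (sa1 (sa2 (sa0 R1)))))))) (sa1 (sa2 (sb0 (sb2 (sa2 (sa1 (sa0 (sb2 R2)))))))) (sb2 (sb0 (sb1 (sb1 (sb2 (sb0 (sa2 (sa1 (sa0 R3))))))))) :=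
  Ref.s02 (by decide +kernel) r32 r33

theorem j20 : Ref (sb0 (sa2 (sa0 (sb0 (sa2 (sa1 (sa0 (sa1 R0)))))))) (sa1 (sb2 (sa1 (sa2 (sa1 (sa2 (sa0 R1))))))) (sa1 (sa2 (sb0 (sb2 (sa2 (sa1 (sa0 (sb2 R2)))))))) (sb2 (sb0 (sb1 (sb1 (sb2 (sb0 (sa2 (sa1 (sa0 R3))))))))) :=
  Ref.s12 (by decide +kernel) r31 j19

theorem j21 : Ref (sa2 (sa0 (sb0 (sa2 (sa1 (sa0 (sa1 R0))))))) (sa1 (sb2 (sa1 (sa2 (sa1 (sa2 (sa0 R1))))))) (sa1 (sa2 (sb0 (sb2 (sa2 (sa1 (sa0 (sb2 R2)))))))) (sb2 (sb0 (sb1 (sb1 (sb2 (sb0 (sa2 (sa1 (sa0 R3))))))))) :=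
  Ref.s00 (by decide +kernel) r30 j20

theorem j22 : Ref (sa2 (sa0 (sb0 (sa2 (sa1 (sa0 (sa1 R0))))))) (sa1 (sb2 (sa1 (sa2 (sa1 (sa2 (sa0 R1))))))) (sa2 (sb0 (sb2 (sa2 (sa1 (sa0 (sb2 R2))))))) (sb2 (sb0 (sb1 (sb1 (sb2 (sb0 (sa2 (sa1 (sa0 R3))))))))) :=
  Ref.s21 (by decide +kernel) j21 r34

theorem j23 : Ref (sa2 (sa0 (sb0 (sa2 (sa1 (sa0 (sa1 R0))))))) (sb2 (sa1 (sa2 (sa1 (sa2 (sa0 R1)))))) (sa2 (sb0 (sb2 (sa2 (sa1 (sa0 (sb2 R2))))))) (sb2 (sb0 (sb1 (sb1 (sb2 (sb0 (sa2 (sa1 (sa0 R3))))))))) :=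
  Ref.s11 (by decide +kernel) j22 r35

theorem j24 : Ref (sa2 (sa0 (sb0 (sa2 (sa1 (sa0 (sa1 R0))))))) (sb2 (sa1 (sa2 (sa1 (sa2 (sa0 R1)))))) (sb0 (sb2 (sa2 (sa1 (sa0 (sb2 R2)))))) (sb2 (sb0 (sb1 (sb1 (sb2 (sb0 (sa2 (sa1 (sa0 R3))))))))) :=
  Ref.s22 (by decide +kernel) j23 r36

theorem j25 : Ref (sa2 (sa0 (sb0 (sa2 (sa1 (sa0 (sa1 R0))))))) (sb2 (sa1 (sa2 (sa1 (sa2 (sa0 R1)))))) (sb0 (sb2 (sa2 (sa1 (sa0 (sb2 R2)))))) (sb0 (sb1 (sb1 (sb2 (sb0 (sa2 (sa1 (sa0 R3)))))))) :=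
  Ref.s32 (by decide +kernel) r29 j24

theorem j26 : Ref (sa2 (sa0 (sb0 (sa2 (sa1 (sa0 (sa1 R0))))))) (sb2 (sa1 (sa2 (sa1 (sa2 (sa0 R1)))))) (sb0 (sb2 (sa2 (sa1 (sa0 (sb2 R2)))))) (sb1 (sb1 (sb2 (sb0 (sa2 (sa1 (sa0 R3))))))) :=
  Ref.s30 (by decide +kernel) j18 j25

theorem j27 : Ref (sa2 (sa0 (sb0 (sa2 (sa1 (sa0 (sa1 R0))))))) (sb2 (sa1 (sa2 (sa1 (sa2 (sa0 R1)))))) (sb0 (sb2 (sa2 (sa1 (sa0 (sb2 R2)))))) (sb1 (sb2 (sb0 (sa2 (sa1 (sa0 R3)))))) :=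
  Ref.s31 (by decide +kernel) r15 j26

theorem j28 : Ref (sa0 (sb0 (sa2 (sa1 (sa0 (sa1 R0)))))) (sb2 (sa1 (sa2 (sa1 (sa2 (sa0 R1)))))) (sb0 (sb2 (sa2 (sa1 (sa0 (sb2 R2)))))) (sb1 (sb2 (sb0 (sa2 (sa1 (sa0 R3)))))) :=
  Ref.s02 (by decide +kernel) j27 r37

theorem j29 : Ref (sa0 (sb0 (sa2 (sa1 (sa0 (sa1 R0)))))) (sa1 (sa2 (sa1 (sa2 (sa0 R1))))) (sb0 (sb2 (sa2 (sa1 (sa0 (sb2 R2)))))) (sb1 (sb2 (sb0 (sa2 (sa1 (sa0 R3)))))) :=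
  Ref.s12 (by decide +kernel) r14 j28

theorem j30 : Ref (sa0 (sb0 (sa2 (sa1 (sa0 (sa1 R0)))))) (sa1 (sa2 (sa1 (sa2 (sa0 R1))))) (sb2 (sa2 (sa1 (sa0 (sb2 R2))))) (sb1 (sb2 (sb0 (sa2 (sa1 (sa0 R3)))))) :=
  Ref.s20 (by decide +kernel) r13 j29

theorem j31 : Ref (sa0 (sb0 (sa2 (sa1 (sa0 (sa1 R0)))))) (sa2 (sa1 (sa2 (sa0 R1)))) (sb2 (sa2 (sa1 (sa0 (sb2 R2))))) (sb1 (sb2 (sb0 (sa2 (sa1 (sa0 R3)))))) :=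
  Ref.s11 (by decide +kernel) j30 r38

theorem j32 : Ref (sb1 (sb2 (sb0 (sb0 (sa2 (sa1 (sa0 (sa1 R0)))))))) (sb2 (sa1 (sa2 (sa1 (sa2 (sa0 R1)))))) (sa2 (sb0 (sb2 (sa2 (sa1 (sa0 (sb2 R2))))))) (sa0 (sb1 (sb2 (sb0 (sa2 (sa1 (sa0 R3))))))) :=
  Ref.s31 (by decide +kernel) r43 r44

theorem j33 : Ref (sb1 (sb2 (sb0 (sb0 (sa2 (sa1 (sa0 (sa1 R0)))))))) (sb2 (sa1 (sa2 (sa1 (sa2 (sa0 R1)))))) (sb0 (sb2 (sa2 (sa1 (sa0 (sb2 R2)))))) (sa0 (sb1 (sb2 (sb0 (sa2 (sa1 (sa0 R3))))))) :=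
  Ref.s22 (by decide +kernel) j32 r45

theorem j34 : Ref (sb1 (sb2 (sb0 (sb0 (sa2 (sa1 (sa0 (sa1 R0)))))))) (sb2 (sa1 (sa2 (sa1 (sa2 (sa0 R1)))))) (sb0 (sb2 (sa2 (sa1 (sa0 (sb2 R2)))))) (sb1 (sb2 (sb0 (sa2 (sa1 (sa0 R3)))))) :=
  Ref.s30 (by decide +kernel) j33 r46

theorem j35 : Ref (sb1 (sb2 (sb0 (sb0 (sa2 (sa1 (sa0 (sa1 R0)))))))) (sa1 (sa2 (sa1 (sa2 (sa0 R1))))) (sb0 (sb2 (sa2 (sa1 (sa0 (sb2 R2)))))) (sb1 (sb2 (sb0 (sa2 (sa1 (sa0 R3)))))) :=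
  Ref.s12 (by decide +kernel) r42 j34

theorem j36 : Ref (sb2 (sb0 (sb0 (sa2 (sa1 (sa0 (sa1 R0))))))) (sa1 (sa2 (sa1 (sa2 (sa0 R1))))) (sb0 (sb2 (sa2 (sa1 (sa0 (sb2 R2)))))) (sb1 (sb2 (sb0 (sa2 (sa1 (sa0 R3)))))) :=
  Ref.s01 (by decide +kernel) r41 j35

theorem j37 : Ref (sb2 (sb0 (sb0 (sa2 (sa1 (sa0 (sa1 R0))))))) (sa1 (sa2 (sa1 (sa2 (sa0 R1))))) (sb2 (sa2 (sa1 (sa0 (sb2 R2))))) (sb1 (sb2 (sb0 (sa2 (sa1 (sa0 R3)))))) :=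
  Ref.s20 (by decide +kernel) r40 j36

theorem j38 : Ref (sb0 (sb0 (sa2 (sa1 (sa0 (sa1 R0)))))) (sa1 (sa2 (sa1 (sa2 (sa0 R1))))) (sb2 (sa2 (sa1 (sa0 (sb2 R2))))) (sb1 (sb2 (sb0 (sa2 (sa1 (sa0 R3)))))) :=
  Ref.s02 (by decide +kernel) r39 j37

theorem j39 : Ref (sb0 (sb0 (sa2 (sa1 (sa0 (sa1 R0)))))) (sa2 (sa1 (sa2 (sa0 R1)))) (sb2 (sa2 (sa1 (sa0 (sb2 R2))))) (sb1 (sb2 (sb0 (sa2 (sa1 (sa0 R3)))))) :=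
  Ref.s11 (by decide +kernel) j38 r47

theorem j40 : Ref (sb0 (sa2 (sa1 (sa0 (sa1 R0))))) (sa2 (sa1 (sa2 (sa0 R1)))) (sb2 (sa2 (sa1 (sa0 (sb2 R2))))) (sb1 (sb2 (sb0 (sa2 (sa1 (sa0 R3)))))) :=
  Ref.s00 (by decide +kernel) j31 j39

theorem j41 : Ref (sb0 (sa2 (sa1 (sa0 (sa1 R0))))) (sa2 (sa1 (sa2 (sa0 R1)))) (sa2 (sa1 (sa0 (sb2 R2)))) (sb1 (sb2 (sb0 (sa2 (sa1 (sa0 R3)))))) :=
  Ref.s22 (by decide +kernel) r12 j40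

theorem j42 : Ref (sb0 (sa2 (sa1 (sa0 (sa1 R0))))) (sa2 (sa1 (sa2 (sa0 R1)))) (sa2 (sa1 (sa0 (sb2 R2)))) (sb2 (sb0 (sa2 (sa1 (sa0 R3))))) :=
  Ref.s31 (by decide +kernel) r11 j41

theorem j43 : Ref (sb0 (sa2 (sa1 (sa0 (sa1 R0))))) (sa2 (sa1 (sa2 (sa0 R1)))) (sa2 (sa1 (sa0 (sb2 R2)))) (sb0 (sa2 (sa1 (sa0 R3)))) :=
  Ref.s32 (by decide +kernel) r10 j42

theorem j44 : Ref (sa2 (sa1 (sa0 (sa1 R0)))) (sa2 (sa1 (sa2 (sa0 R1)))) (sa2 (sa1 (sa0 (sb2 R2)))) (sb0 (sa2 (sa1 (sa0 R3)))) :=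
  Ref.s00 (by decide +kernel) r9 j43

theorem j45 : Ref (sa1 (sa0 (sa1 R0))) (sa2 (sa1 (sa2 (sa0 R1)))) (sa2 (sa1 (sa0 (sb2 R2)))) (sb0 (sa2 (sa1 (sa0 R3)))) :=
  Ref.s02 (by decide +kernel) j44 r48

theorem j46 : Ref (sb1 (sa0 (sa1 R0))) (sa2 (sa1 (sa2 (sa0 R1)))) (sa2 (sa1 (sa0 (sb2 R2)))) (sb0 (sa2 (sa1 (sa0 R3)))) :=
  Ref.s10 (by decide +kernel) r49 r50

theorem j47 : Ref (sa0 (sa1 R0)) (sa2 (sa1 (sa2 (sa0 R1)))) (sa2 (sa1 (sa0 (sb2 R2)))) (sb0 (sa2 (sa1 (sa0 R3)))) :=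
  Ref.s01 (by decide +kernel) j45 j46

theorem j48 : Ref (sa0 (sa1 R0)) (sa2 (sa1 (sa2 (sa0 R1)))) (sa2 (sa1 (sa0 (sb2 R2)))) (sa2 (sa1 (sa0 R3))) :=
  Ref.s30 (by decide +kernel) j6 j47

theorem j49 : Ref (sa0 (sa1 R0)) (sa2 (sa1 (sa2 (sa0 R1)))) (sa1 (sa0 (sb2 R2))) (sa2 (sa1 (sa0 R3))) :=
  Ref.s22 (by decide +kernel) j48 r51

theorem j50 : Ref (sa2 (sb2 (sb0 (sa2 (sa1 (sa0 (sa1 R0))))))) (sa0 (sb2 (sa1 (sb2 (sa1 (sa2 (sa0 R1))))))) (sb0 (sa2 (sa2 (sa1 (sa0 (sb2 R2)))))) (sb2 (sa1 (sa0 (sa2 (sb0 (sa2 (sa1 (sa0 R3)))))))) :=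
  Ref.s00 (by decide +kernel) r58 r59

theorem j51 : Ref (sa2 (sb2 (sb0 (sa2 (sa1 (sa0 (sa1 R0))))))) (sa0 (sb2 (sa1 (sb2 (sa1 (sa2 (sa0 R1))))))) (sb0 (sa2 (sa2 (sa1 (sa0 (sb2 R2)))))) (sa1 (sa0 (sa2 (sb0 (sa2 (sa1 (sa0 R3))))))) :=
  Ref.s32 (by decide +kernel) r57 j50

theorem j52 : Ref (sa2 (sb2 (sb0 (sa2 (sa1 (sa0 (sa1 R0))))))) (sa0 (sb2 (sa1 (sb2 (sa1 (sa2 (sa0 R1))))))) (sb0 (sa2 (sa2 (sa1 (sa0 (sb2 R2)))))) (sa0 (sa2 (sb0 (sa2 (sa1 (sa0 R3)))))) :=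
  Ref.s31 (by decide +kernel) j51 r60

theorem j53 : Ref (sb2 (sb0 (sa2 (sa1 (sa0 (sa1 R0)))))) (sa0 (sb2 (sa1 (sb2 (sa1 (sa2 (sa0 R1))))))) (sb0 (sa2 (sa2 (sa1 (sa0 (sb2 R2)))))) (sa0 (sa2 (sb0 (sa2 (sa1 (sa0 R3)))))) :=
  Ref.s02 (by decide +kernel) j52 r61

theorem j54 : Ref (sb2 (sb0 (sa2 (sa1 (sa0 (sa1 R0)))))) (sb2 (sa1 (sb2 (sa1 (sa2 (sa0 R1)))))) (sb0 (sa2 (sa2 (sa1 (sa0 (sb2 R2)))))) (sa0 (sa2 (sb0 (sa2 (sa1 (sa0 R3)))))) :=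
  Ref.s10 (by decide +kernel) j53 r62

theorem j55 : Ref (sb2 (sb0 (sa2 (sa1 (sa0 (sa1 R0)))))) (sb2 (sa1 (sb2 (sa1 (sa2 (sa0 R1)))))) (sb0 (sa2 (sa2 (sa1 (sa0 (sb2 R2)))))) (sa2 (sb0 (sa2 (sa1 (sa0 R3))))) :=
  Ref.s30 (by decide +kernel) j54 r63

theorem j56 : Ref (sb0 (sa2 (sa1 (sa0 (sa1 R0))))) (sb2 (sa1 (sb2 (sa1 (sa2 (sa0 R1)))))) (sb0 (sa2 (sa2 (sa1 (sa0 (sb2 R2)))))) (sa2 (sb0 (sa2 (sa1 (sa0 R3))))) :=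
  Ref.s02 (by decide +kernel) r56 j55

theorem j57 : Ref (sb0 (sa2 (sa1 (sa0 (sa1 R0))))) (sb2 (sa1 (sb2 (sa1 (sa2 (sa0 R1)))))) (sa2 (sa2 (sa1 (sa0 (sb2 R2))))) (sa2 (sb0 (sa2 (sa1 (sa0 R3))))) :=
  Ref.s20 (by decide +kernel) r55 j56

theorem j58 : Ref (sb0 (sa2 (sa1 (sa0 (sa1 R0))))) (sa1 (sb2 (sa1 (sa2 (sa0 R1))))) (sa2 (sa2 (sa1 (sa0 (sb2 R2))))) (sa2 (sb0 (sa2 (sa1 (sa0 R3))))) :=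
  Ref.s12 (by decide +kernel) r54 j57

theorem j59 : Ref (sa2 (sa1 (sa0 (sa1 R0)))) (sa1 (sb2 (sa1 (sa2 (sa0 R1))))) (sa2 (sa2 (sa1 (sa0 (sb2 R2))))) (sa2 (sb0 (sa2 (sa1 (sa0 R3))))) :=
  Ref.s00 (by decide +kernel) r53 j58

theorem j60 : Ref (sb0 (sa2 (sa1 (sa0 (sa1 R0))))) (sa1 (sb2 (sa1 (sa2 (sa0 R1))))) (sa2 (sa2 (sa1 (sa0 (sb2 R2))))) (sb2 (sb0 (sa2 (sa1 (sa0 R3))))) :=
  Ref.s32 (by decide +kernel) r65 r66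

theorem j61 : Ref (sa2 (sa1 (sa0 (sa1 R0)))) (sa1 (sb2 (sa1 (sa2 (sa0 R1))))) (sa2 (sa2 (sa1 (sa0 (sb2 R2))))) (sb2 (sb0 (sa2 (sa1 (sa0 R3))))) :=
  Ref.s00 (by decide +kernel) r64 j60

theorem j62 : Ref (sa2 (sa1 (sa0 (sa1 R0)))) (sa1 (sb2 (sa1 (sa2 (sa0 R1))))) (sa2 (sa2 (sa1 (sa0 (sb2 R2))))) (sb0 (sa2 (sa1 (sa0 R3)))) :=
  Ref.s32 (by decide +kernel) j59 j61

theorem j63 : Ref (sa2 (sa1 (sa0 (sa1 R0)))) (sa1 (sb2 (sa1 (sa2 (sa0 R1))))) (sa2 (sa1 (sa0 (sb2 R2)))) (sb0 (sa2 (sa1 (sa0 R3)))) :=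
  Ref.s22 (by decide +kernel) j62 r67

theorem j64 : Ref (sa2 (sa1 (sa0 (sa1 R0)))) (sa1 (sb2 (sa1 (sa2 (sa0 R1))))) (sa2 (sa1 (sa0 (sb2 R2)))) (sa2 (sa1 (sa0 R3))) :=
  Ref.s30 (by decide +kernel) r52 j63

theorem j65 : Ref (sb0 (sa2 (sa1 (sa0 (sa1 R0))))) (sb1 (sb2 (sa1 (sa2 (sa0 R1))))) (sa2 (sa2 (sa1 (sa0 (sb2 R2))))) (sb2 (sa1 (sa0 (sa2 (sa1 (sa0 R3)))))) :=
  Ref.s20 (by decide +kernel) r70 r71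

theorem j66 : Ref (sb0 (sa2 (sa1 (sa0 (sa1 R0))))) (sb1 (sb2 (sa1 (sa2 (sa0 R1))))) (sa2 (sa1 (sa0 (sb2 R2)))) (sb2 (sa1 (sa0 (sa2 (sa1 (sa0 R3)))))) :=
  Ref.s22 (by decide +kernel) j65 r72

theorem j67 : Ref (sb0 (sa2 (sa1 (sa0 (sa1 R0))))) (sb1 (sb2 (sa1 (sa2 (sa0 R1))))) (sa2 (sa1 (sa0 (sb2 R2)))) (sa1 (sa0 (sa2 (sa1 (sa0 R3))))) :=
  Ref.s32 (by decide +kernel) r69 j66

theorem j68 : Ref (sb0 (sa2 (sa1 (sa0 (sa1 R0))))) (sb1 (sb2 (sa1 (sa2 (sa0 R1))))) (sa2 (sa1 (sa0 (sb2 R2)))) (sa0 (sa2 (sa1 (sa0 R3)))) :=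
  Ref.s31 (by decide +kernel) j67 r73

theorem j69 : Ref (sa2 (sa1 (sa0 (sa1 R0)))) (sb1 (sb2 (sa1 (sa2 (sa0 R1))))) (sa2 (sa1 (sa0 (sb2 R2)))) (sa0 (sa2 (sa1 (sa0 R3)))) :=
  Ref.s00 (by decide +kernel) r68 j68

theorem j70 : Ref (sb0 (sa2 (sa1 (sa0 (sa1 R0))))) (sb1 (sb2 (sa1 (sa2 (sa0 R1))))) (sb2 (sa2 (sa1 (sa0 (sb2 R2))))) (sb2 (sb0 (sa2 (sa1 (sa0 R3))))) :=
  Ref.s02 (by decide +kernel) r77 r78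

theorem j71 : Ref (sa2 (sa1 (sa0 (sa1 R0)))) (sb1 (sb2 (sa1 (sa2 (sa0 R1))))) (sb2 (sa2 (sa1 (sa0 (sb2 R2))))) (sb2 (sb0 (sa2 (sa1 (sa0 R3))))) :=
  Ref.s00 (by decide +kernel) r76 j70

theorem j72 : Ref (sa2 (sa1 (sa0 (sa1 R0)))) (sb1 (sb2 (sa1 (sa2 (sa0 R1))))) (sb2 (sa2 (sa1 (sa0 (sb2 R2))))) (sb0 (sa2 (sa1 (sa0 R3)))) :=
  Ref.s32 (by decide +kernel) r75 j71

theorem j73 : Ref (sa2 (sa1 (sa0 (sa1 R0)))) (sb1 (sb2 (sa1 (sa2 (sa0 R1))))) (sa2 (sa1 (sa0 (sb2 R2)))) (sb0 (sa2 (sa1 (sa0 R3)))) :=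
  Ref.s22 (by decide +kernel) r74 j72

theorem j74 : Ref (sa2 (sa1 (sa0 (sa1 R0)))) (sb1 (sb2 (sa1 (sa2 (sa0 R1))))) (sa2 (sa1 (sa0 (sb2 R2)))) (sa2 (sa1 (sa0 R3))) :=
  Ref.s30 (by decide +kernel) j69 j73

theorem j75 : Ref (sa2 (sa1 (sa0 (sa1 R0)))) (sb2 (sa1 (sa2 (sa0 R1)))) (sa2 (sa1 (sa0 (sb2 R2)))) (sa2 (sa1 (sa0 R3))) :=
  Ref.s11 (by decide +kernel) j64 j74

theorem j76 : Ref (sa1 (sa0 (sa1 R0))) (sb2 (sa1 (sa2 (sa0 R1)))) (sa2 (sa1 (sa0 (sb2 R2)))) (sa2 (sa1 (sa0 R3))) :=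
  Ref.s02 (by decide +kernel) j75 r79

theorem j77 : Ref (sb1 (sa0 (sa1 R0))) (sa1 (sb2 (sa1 (sa2 (sa0 R1))))) (sa2 (sa1 (sa0 (sb2 R2)))) (sa2 (sa1 (sa0 R3))) :=
  Ref.s32 (by decide +kernel) r80 r81

theorem j78 : Ref (sb1 (sa0 (sa1 R0))) (sb1 (sb2 (sa1 (sa2 (sa0 R1))))) (sa2 (sa1 (sa0 (sb2 R2)))) (sa2 (sa1 (sa0 R3))) :=
  Ref.s30 (by decide +kernel) r82 r83

theorem j79 : Ref (sb1 (sa0 (sa1 R0))) (sb2 (sa1 (sa2 (sa0 R1)))) (sa2 (sa1 (sa0 (sb2 R2)))) (sa2 (sa1 (sa0 R3))) :=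
  Ref.s11 (by decide +kernel) j77 j78

theorem j80 : Ref (sa0 (sa1 R0)) (sb2 (sa1 (sa2 (sa0 R1)))) (sa2 (sa1 (sa0 (sb2 R2)))) (sa2 (sa1 (sa0 R3))) :=
  Ref.s01 (by decide +kernel) j76 j79

theorem j81 : Ref (sa0 (sa1 R0)) (sb2 (sa1 (sa2 (sa0 R1)))) (sa1 (sa0 (sb2 R2))) (sa2 (sa1 (sa0 R3))) :=
  Ref.s22 (by decide +kernel) j80 r84

theorem j82 : Ref (sa0 (sa1 R0)) (sa1 (sa2 (sa0 R1))) (sa1 (sa0 (sb2 R2))) (sa2 (sa1 (sa0 R3))) :=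
  Ref.s12 (by decide +kernel) j49 j81

theorem j83 : Ref (sa0 (sa1 R0)) (sa1 (sa2 (sa0 R1))) (sa1 (sb1 (sa0 (sb2 R2)))) (sa2 (sa2 (sa1 (sa0 R3)))) :=
  Ref.s01 (by decide +kernel) r85 r86

theorem j84 : Ref (sa0 (sa1 R0)) (sa1 (sa2 (sa0 R1))) (sb1 (sa0 (sb2 R2))) (sa2 (sa2 (sa1 (sa0 R3)))) :=
  Ref.s21 (by decide +kernel) j83 r87

theorem j85 : Ref (sa0 (sa1 R0)) (sa1 (sa2 (sa0 R1))) (sb1 (sa0 (sb2 R2))) (sb2 (sa2 (sa1 (sa0 R3)))) :=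
  Ref.s01 (by decide +kernel) r88 r89

theorem j86 : Ref (sa0 (sa1 R0)) (sa1 (sa2 (sa0 R1))) (sb1 (sa0 (sb2 R2))) (sa2 (sa1 (sa0 R3))) :=
  Ref.s32 (by decide +kernel) j84 j85

theorem j87 : Ref (sa0 (sa1 R0)) (sa1 (sa2 (sa0 R1))) (sa0 (sb2 R2)) (sa2 (sa1 (sa0 R3))) :=
  Ref.s21 (by decide +kernel) j82 j86

theorem j88 : Ref (sb1 (sb2 (sb0 (sa1 R0)))) (sb2 (sa1 (sa2 (sa0 R1)))) (sa2 (sa1 (sa0 (sb2 R2)))) (sa0 (sb0 (sa2 (sa2 (sa1 (sa0 R3)))))) :=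
  Ref.s01 (by decide +kernel) r94 r95

theorem j89 : Ref (sb1 (sb2 (sb0 (sa1 R0)))) (sb2 (sa1 (sa2 (sa0 R1)))) (sa2 (sa1 (sa0 (sb2 R2)))) (sb0 (sa2 (sa2 (sa1 (sa0 R3))))) :=
  Ref.s30 (by decide +kernel) j88 r96

theorem j90 : Ref (sb1 (sb2 (sb0 (sa1 R0)))) (sa1 (sa2 (sa0 R1))) (sa2 (sa1 (sa0 (sb2 R2)))) (sb0 (sa2 (sa2 (sa1 (sa0 R3))))) :=
  Ref.s12 (by decide +kernel) r93 j89

theorem j91 : Ref (sb1 (sb2 (sb0 (sa1 R0)))) (sa1 (sa2 (sa0 R1))) (sa1 (sa0 (sb2 R2))) (sb0 (sa2 (sa2 (sa1 (sa0 R3))))) :=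
  Ref.s22 (by decide +kernel) j90 r97

theorem j92 : Ref (sb2 (sb0 (sa1 R0))) (sa1 (sa2 (sa0 R1))) (sa1 (sa0 (sb2 R2))) (sb0 (sa2 (sa2 (sa1 (sa0 R3))))) :=
  Ref.s01 (by decide +kernel) r92 j91

theorem j93 : Ref (sb2 (sb0 (sa1 R0))) (sa1 (sa2 (sa0 R1))) (sa1 (sa0 (sb2 R2))) (sa2 (sa2 (sa1 (sa0 R3)))) :=
  Ref.s30 (by decide +kernel) r91 j92

theorem j94 : Ref (sa0 (sb1 (sb2 (sb2 (sb0 (sa1 R0)))))) (sb2 (sa1 (sa2 (sa0 R1)))) (sb0 (sa2 (sa1 (sa1 (sa0 (sb2 R2)))))) (sb2 (sa2 (sa1 (sa0 R3)))) :=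
  Ref.s01 (by decide +kernel) r102 r103

theorem j95 : Ref (sb1 (sb2 (sb2 (sb0 (sa1 R0))))) (sb2 (sa1 (sa2 (sa0 R1)))) (sb0 (sa2 (sa1 (sa1 (sa0 (sb2 R2)))))) (sb2 (sa2 (sa1 (sa0 R3)))) :=
  Ref.s00 (by decide +kernel) j94 r104

theorem j96 : Ref (sb1 (sb2 (sb2 (sb0 (sa1 R0))))) (sb2 (sa1 (sa2 (sa0 R1)))) (sa2 (sa1 (sa1 (sa0 (sb2 R2))))) (sb2 (sa2 (sa1 (sa0 R3)))) :=
  Ref.s20 (by decide +kernel) r101 j95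

theorem j97 : Ref (sb1 (sb2 (sb2 (sb0 (sa1 R0))))) (sb2 (sa1 (sa2 (sa0 R1)))) (sa1 (sa1 (sa0 (sb2 R2)))) (sb2 (sa2 (sa1 (sa0 R3)))) :=
  Ref.s22 (by decide +kernel) j96 r105

theorem j98 : Ref (sb1 (sb2 (sb2 (sb0 (sa1 R0))))) (sb2 (sa1 (sa2 (sa0 R1)))) (sa1 (sa0 (sb2 R2))) (sb2 (sa2 (sa1 (sa0 R3)))) :=
  Ref.s21 (by decide +kernel) j97 r106

theorem j99 : Ref (sb2 (sb2 (sb0 (sa1 R0)))) (sb2 (sa1 (sa2 (sa0 R1)))) (sa1 (sa0 (sb2 R2))) (sb2 (sa2 (sa1 (sa0 R3)))) :=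
  Ref.s01 (by decide +kernel) r100 j98

theorem j100 : Ref (sb2 (sb0 (sa1 R0))) (sb2 (sa1 (sa2 (sa0 R1)))) (sa1 (sa0 (sb2 R2))) (sb2 (sa2 (sa1 (sa0 R3)))) :=
  Ref.s02 (by decide +kernel) r99 j99

theorem j101 : Ref (sb2 (sb0 (sa1 R0))) (sa1 (sa2 (sa0 R1))) (sa1 (sa0 (sb2 R2))) (sb2 (sa2 (sa1 (sa0 R3)))) :=
  Ref.s12 (by decide +kernel) r98 j100

theorem j102 : Ref (sb2 (sb0 (sa1 R0))) (sa1 (sa2 (sa0 R1))) (sa1 (sa0 (sb2 R2))) (sa2 (sa1 (sa0 R3))) :=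
  Ref.s32 (by decide +kernel) j93 j101

theorem j103 : Ref (sb0 (sa1 R0)) (sa1 (sa2 (sa0 R1))) (sa1 (sa0 (sb2 R2))) (sa2 (sa1 (sa0 R3))) :=
  Ref.s02 (by decide +kernel) r90 j102

theorem j104 : Ref (sb0 (sa1 R0)) (sa1 (sa2 (sa0 R1))) (sa0 (sb2 R2)) (sa2 (sa1 (sa0 R3))) :=
  Ref.s21 (by decide +kernel) j103 r107

theorem j105 : Ref (sa1 R0) (sa1 (sa2 (sa0 R1))) (sa0 (sb2 R2)) (sa2 (sa1 (sa0 R3))) :=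
  Ref.s00 (by decide +kernel) j87 j104

theorem j106 : Ref (sa1 R0) (sa2 (sa0 R1)) (sa0 (sb2 R2)) (sa2 (sa1 (sa0 R3))) :=
  Ref.s11 (by decide +kernel) j105 r108

theorem j107 : Ref (sa0 (sa1 (sa2 (sa0 (sb1 (sa1 (sa0 (sa2 (sa1 R0))))))))) (sa1 (sb2 (sa1 (sa0 (sb2 (sa1 (sa2 (sa1 (sa2 (sa0 R1)))))))))) (sb1 (sb2 (sb1 (sb2 (sa1 (sa0 (sb1 (sb0 (sb2 R2))))))))) (sa1 (sa0 (sa2 (sa1 (sa1 (sa0 (sa2 (sa2 (sa1 (sa0 R3)))))))))) :=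
  Ref.s20 (by decide +kernel) r117 r118

theorem j108 : Ref (sa1 (sa2 (sa0 (sb1 (sa1 (sa0 (sa2 (sa1 R0)))))))) (sa1 (sb2 (sa1 (sa0 (sb2 (sa1 (sa2 (sa1 (sa2 (sa0 R1)))))))))) (sb1 (sb2 (sb1 (sb2 (sa1 (sa0 (sb1 (sb0 (sb2 R2))))))))) (sa1 (sa0 (sa2 (sa1 (sa1 (sa0 (sa2 (sa2 (sa1 (sa0 R3)))))))))) :=
  Ref.s00 (by decide +kernel) j107 r119

theorem j109 : Ref (sa1 (sa2 (sa0 (sb1 (sa1 (sa0 (sa2 (sa1 R0)))))))) (sa1 (sb2 (sa1 (sa0 (sb2 (sa1 (sa2 (sa1 (sa2 (sa0 R1)))))))))) (sb1 (sb2 (sb1 (sb2 (sa1 (sa0 (sb1 (sb0 (sb2 R2))))))))) (sa0 (sa2 (sa1 (sa1 (sa0 (sa2 (sa2 (sa1 (sa0 R3))))))))) :=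
  Ref.s31 (by decide +kernel) j108 r120

theorem j110 : Ref (sa1 (sa2 (sa0 (sb1 (sa1 (sa0 (sa2 (sa1 R0)))))))) (sb2 (sa1 (sa0 (sb2 (sa1 (sa2 (sa1 (sa2 (sa0 R1))))))))) (sb1 (sb2 (sb1 (sb2 (sa1 (sa0 (sb1 (sb0 (sb2 R2))))))))) (sa0 (sa2 (sa1 (sa1 (sa0 (sa2 (sa2 (sa1 (sa0 R3))))))))) :=
  Ref.s11 (by decide +kernel) j109 r121

theorem j111 : Ref (sa2 (sa0 (sb1 (sa1 (sa0 (sa2 (sa1 R0))))))) (sb2 (sa1 (sa0 (sb2 (sa1 (sa2 (sa1 (sa2 (sa0 R1))))))))) (sb1 (sb2 (sb1 (sb2 (sa1 (sa0 (sb1 (sb0 (sb2 R2))))))))) (sa0 (sa2 (sa1 (sa1 (sa0 (sa2 (sa2 (sa1 (sa0 R3))))))))) :=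
  Ref.s01 (by decide +kernel) j110 r122

theorem j112 : Ref (sa2 (sa0 (sb1 (sa1 (sa0 (sa2 (sa1 R0))))))) (sb2 (sa1 (sa0 (sb2 (sa1 (sa2 (sa1 (sa2 (sa0 R1))))))))) (sb1 (sb2 (sb1 (sb2 (sa1 (sa0 (sb1 (sb0 (sb2 R2))))))))) (sa2 (sa1 (sa1 (sa0 (sa2 (sa2 (sa1 (sa0 R3)))))))) :=
  Ref.s30 (by decide +kernel) j111 r123

theorem j113 : Ref (sa2 (sa0 (sb1 (sa1 (sa0 (sa2 (sa1 R0))))))) (sb2 (sa1 (sa0 (sb2 (sa1 (sa2 (sa1 (sa2 (sa0 R1))))))))) (sb2 (sb1 (sb2 (sa1 (sa0 (sb1 (sb0 (sb2 R2)))))))) (sa2 (sa1 (sa1 (sa0 (sa2 (sa2 (sa1 (sa0 R3)))))))) :=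
  Ref.s21 (by decide +kernel) r116 j112

theorem j114 : Ref (sa2 (sa0 (sb1 (sa1 (sa0 (sa2 (sa1 R0))))))) (sb2 (sa1 (sa0 (sb2 (sa1 (sa2 (sa1 (sa2 (sa0 R1))))))))) (sb1 (sb2 (sa1 (sa0 (sb1 (sb0 (sb2 R2))))))) (sa2 (sa1 (sa1 (sa0 (sa2 (sa2 (sa1 (sa0 R3)))))))) :=
  Ref.s22 (by decide +kernel) r115 j113

theorem j115 : Ref (sa2 (sa0 (sb1 (sa1 (sa0 (sa2 (sa1 R0))))))) (sa1 (sa0 (sb2 (sa1 (sa2 (sa1 (sa2 (sa0 R1)))))))) (sb1 (sb2 (sa1 (sa0 (sb1 (sb0 (sb2 R2))))))) (sa2 (sa1 (sa1 (sa0 (sa2 (sa2 (sa1 (sa0 R3)))))))) :=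
  Ref.s12 (by decide +kernel) r114 j114

theorem j116 : Ref (sa2 (sa0 (sb1 (sa1 (sa0 (sa2 (sa1 R0))))))) (sa1 (sa0 (sb2 (sa1 (sa2 (sa1 (sa2 (sa0 R1)))))))) (sb2 (sa1 (sa0 (sb1 (sb0 (sb2 R2)))))) (sa2 (sa1 (sa1 (sa0 (sa2 (sa2 (sa1 (sa0 R3)))))))) :=
  Ref.s21 (by decide +kernel) r113 j115

theorem j117 : Ref (sa0 (sb1 (sa1 (sa0 (sa2 (sa1 R0)))))) (sa1 (sa0 (sb2 (sa1 (sa2 (sa1 (sa2 (sa0 R1)))))))) (sb2 (sa1 (sa0 (sb1 (sb0 (sb2 R2)))))) (sa2 (sa1 (sa1 (sa0 (sa2 (sa2 (sa1 (sa0 R3)))))))) :=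
  Ref.s02 (by decide +kernel) j116 r124

theorem j118 : Ref (sa0 (sb1 (sa1 (sa0 (sa2 (sa1 R0)))))) (sa0 (sb2 (sa1 (sa2 (sa1 (sa2 (sa0 R1))))))) (sb2 (sa1 (sa0 (sb1 (sb0 (sb2 R2)))))) (sa2 (sa1 (sa1 (sa0 (sa2 (sa2 (sa1 (sa0 R3)))))))) :=
  Ref.s11 (by decide +kernel) j117 r125

theorem j119 : Ref (sa0 (sb1 (sa1 (sa0 (sa2 (sa1 R0)))))) (sa0 (sb2 (sa1 (sa2 (sa1 (sa2 (sa0 R1))))))) (sb2 (sa1 (sa0 (sb1 (sb0 (sb2 R2)))))) (sa1 (sa1 (sa0 (sa2 (sa2 (sa1 (sa0 R3))))))) :=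
  Ref.s32 (by decide +kernel) j118 r126

theorem j120 : Ref (sa0 (sb1 (sa1 (sa0 (sa2 (sa1 R0)))))) (sa0 (sb2 (sa1 (sa2 (sa1 (sa2 (sa0 R1))))))) (sa1 (sa0 (sb1 (sb0 (sb2 R2))))) (sa1 (sa1 (sa0 (sa2 (sa2 (sa1 (sa0 R3))))))) :=
  Ref.s22 (by decide +kernel) r112 j119

theorem j121 : Ref (sa0 (sa1 (sa2 (sa0 (sb1 (sa1 (sa0 (sa2 (sa1 R0))))))))) (sb2 (sa1 (sb2 (sb0 (sb2 (sa1 (sa2 (sa1 (sa2 (sa0 R1)))))))))) (sa0 (sb1 (sb2 (sa1 (sa0 (sb1 (sb0 (sb2 R2)))))))) (sa1 (sa0 (sa2 (sa1 (sa1 (sa0 (sa2 (sa2 (sa1 (sa0 R3)))))))))) :=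
  Ref.s22 (by decide +kernel) r131 r132

theorem j122 : Ref (sa1 (sa2 (sa0 (sb1 (sa1 (sa0 (sa2 (sa1 R0)))))))) (sb2 (sa1 (sb2 (sb0 (sb2 (sa1 (sa2 (sa1 (sa2 (sa0 R1)))))))))) (sa0 (sb1 (sb2 (sa1 (sa0 (sb1 (sb0 (sb2 R2)))))))) (sa1 (sa0 (sa2 (sa1 (sa1 (sa0 (sa2 (sa2 (sa1 (sa0 R3)))))))))) :=
  Ref.s00 (by decide +kernel) j121 r133

theorem j123 : Ref (sa1 (sa2 (sa0 (sb1 (sa1 (sa0 (sa2 (sa1 R0)))))))) (sb2 (sa1 (sb2 (sb0 (sb2 (sa1 (sa2 (sa1 (sa2 (sa0 R1)))))))))) (sa0 (sb1 (sb2 (sa1 (sa0 (sb1 (sb0 (sb2 R2)))))))) (sa0 (sa2 (sa1 (sa1 (sa0 (sa2 (sa2 (sa1 (sa0 R3))))))))) :=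
  Ref.s31 (by decide +kernel) j122 r134

theorem j124 : Ref (sa1 (sa2 (sa0 (sb1 (sa1 (sa0 (sa2 (sa1 R0)))))))) (sa1 (sb2 (sb0 (sb2 (sa1 (sa2 (sa1 (sa2 (sa0 R1))))))))) (sa0 (sb1 (sb2 (sa1 (sa0 (sb1 (sb0 (sb2 R2)))))))) (sa0 (sa2 (sa1 (sa1 (sa0 (sa2 (sa2 (sa1 (sa0 R3))))))))) :=
  Ref.s12 (by decide +kernel) r130 j123

theorem j125 : Ref (sa2 (sa0 (sb1 (sa1 (sa0 (sa2 (sa1 R0))))))) (sa1 (sb2 (sb0 (sb2 (sa1 (sa2 (sa1 (sa2 (sa0 R1))))))))) (sa0 (sb1 (sb2 (sa1 (sa0 (sb1 (sb0 (sb2 R2)))))))) (sa0 (sa2 (sa1 (sa1 (sa0 (sa2 (sa2 (sa1 (sa0 R3))))))))) :=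
  Ref.s01 (by decide +kernel) j124 r135

theorem j126 : Ref (sa2 (sa0 (sb1 (sa1 (sa0 (sa2 (sa1 R0))))))) (sa1 (sb2 (sb0 (sb2 (sa1 (sa2 (sa1 (sa2 (sa0 R1))))))))) (sa0 (sb1 (sb2 (sa1 (sa0 (sb1 (sb0 (sb2 R2)))))))) (sa2 (sa1 (sa1 (sa0 (sa2 (sa2 (sa1 (sa0 R3)))))))) :=
  Ref.s30 (by decide +kernel) j125 r136

theorem j127 : Ref (sa2 (sa0 (sb1 (sa1 (sa0 (sa2 (sa1 R0))))))) (sa1 (sb2 (sb0 (sb2 (sa1 (sa2 (sa1 (sa2 (sa0 R1))))))))) (sb1 (sb2 (sa1 (sa0 (sb1 (sb0 (sb2 R2))))))) (sa2 (sa1 (sa1 (sa0 (sa2 (sa2 (sa1 (sa0 R3)))))))) :=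
  Ref.s20 (by decide +kernel) j126 r137

theorem j128 : Ref (sa2 (sa0 (sb1 (sa1 (sa0 (sa2 (sa1 R0))))))) (sb2 (sb0 (sb2 (sa1 (sa2 (sa1 (sa2 (sa0 R1)))))))) (sb1 (sb2 (sa1 (sa0 (sb1 (sb0 (sb2 R2))))))) (sa2 (sa1 (sa1 (sa0 (sa2 (sa2 (sa1 (sa0 R3)))))))) :=
  Ref.s11 (by decide +kernel) j127 r138

theorem j129 : Ref (sb2 (sa0 (sb1 (sa1 (sa0 (sa2 (sa1 R0))))))) (sa1 (sb2 (sb0 (sb2 (sa1 (sa2 (sa1 (sa2 (sa0 R1))))))))) (sb1 (sb2 (sa1 (sa0 (sb1 (sb0 (sb2 R2))))))) (sa2 (sa1 (sa1 (sa0 (sa2 (sa2 (sa1 (sa0 R3)))))))) :=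
  Ref.s30 (by decide +kernel) r139 r140

theorem j130 : Ref (sb2 (sa0 (sb1 (sa1 (sa0 (sa2 (sa1 R0))))))) (sb2 (sb0 (sb2 (sa1 (sa2 (sa1 (sa2 (sa0 R1)))))))) (sb1 (sb2 (sa1 (sa0 (sb1 (sb0 (sb2 R2))))))) (sa2 (sa1 (sa1 (sa0 (sa2 (sa2 (sa1 (sa0 R3)))))))) :=
  Ref.s11 (by decide +kernel) j129 r141

theorem j131 : Ref (sa0 (sb1 (sa1 (sa0 (sa2 (sa1 R0)))))) (sb2 (sb0 (sb2 (sa1 (sa2 (sa1 (sa2 (sa0 R1)))))))) (sb1 (sb2 (sa1 (sa0 (sb1 (sb0 (sb2 R2))))))) (sa2 (sa1 (sa1 (sa0 (sa2 (sa2 (sa1 (sa0 R3)))))))) :=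
  Ref.s02 (by decide +kernel) j128 j130

theorem j132 : Ref (sa0 (sb1 (sa1 (sa0 (sa2 (sa1 R0)))))) (sb2 (sb0 (sb2 (sa1 (sa2 (sa1 (sa2 (sa0 R1)))))))) (sb2 (sa1 (sa0 (sb1 (sb0 (sb2 R2)))))) (sa2 (sa1 (sa1 (sa0 (sa2 (sa2 (sa1 (sa0 R3)))))))) :=
  Ref.s21 (by decide +kernel) r129 j131

theorem j133 : Ref (sa0 (sb1 (sa1 (sa0 (sa2 (sa1 R0)))))) (sb2 (sb0 (sb2 (sa1 (sa2 (sa1 (sa2 (sa0 R1)))))))) (sb2 (sa1 (sa0 (sb1 (sb0 (sb2 R2)))))) (sa1 (sa1 (sa0 (sa2 (sa2 (sa1 (sa0 R3))))))) :=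
  Ref.s32 (by decide +kernel) j132 r142

theorem j134 : Ref (sa0 (sb1 (sa1 (sa0 (sa2 (sa1 R0)))))) (sb0 (sb2 (sa1 (sa2 (sa1 (sa2 (sa0 R1))))))) (sb2 (sa1 (sa0 (sb1 (sb0 (sb2 R2)))))) (sa1 (sa1 (sa0 (sa2 (sa2 (sa1 (sa0 R3))))))) :=
  Ref.s12 (by decide +kernel) r128 j133

theorem j135 : Ref (sa0 (sb1 (sa1 (sa0 (sa2 (sa1 R0)))))) (sb0 (sb2 (sa1 (sa2 (sa1 (sa2 (sa0 R1))))))) (sa1 (sa0 (sb1 (sb0 (sb2 R2))))) (sa1 (sa1 (sa0 (sa2 (sa2 (sa1 (sa0 R3))))))) :=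
  Ref.s22 (by decide +kernel) r127 j134

theorem j136 : Ref (sa0 (sb1 (sa1 (sa0 (sa2 (sa1 R0)))))) (sb2 (sa1 (sa2 (sa1 (sa2 (sa0 R1)))))) (sa1 (sa0 (sb1 (sb0 (sb2 R2))))) (sa1 (sa1 (sa0 (sa2 (sa2 (sa1 (sa0 R3))))))) :=
  Ref.s10 (by decide +kernel) j120 j135

theorem j137 : Ref (sa0 (sb1 (sa1 (sa0 (sa2 (sa1 R0)))))) (sb2 (sa1 (sa2 (sa1 (sa2 (sa0 R1)))))) (sa1 (sa0 (sb1 (sb0 (sb2 R2))))) (sa1 (sa0 (sa2 (sa2 (sa1 (sa0 R3)))))) :=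
  Ref.s31 (by decide +kernel) j136 r143

theorem j138 : Ref (sa0 (sb1 (sa1 (sa0 (sa2 (sa1 R0)))))) (sa1 (sa2 (sa1 (sa2 (sa0 R1))))) (sa1 (sa0 (sb1 (sb0 (sb2 R2))))) (sa1 (sa0 (sa2 (sa2 (sa1 (sa0 R3)))))) :=
  Ref.s12 (by decide +kernel) r111 j137

theorem j139 : Ref (sa0 (sb1 (sa1 (sa0 (sa2 (sa1 R0)))))) (sa2 (sa1 (sa2 (sa0 R1)))) (sa1 (sa0 (sb1 (sb0 (sb2 R2))))) (sa1 (sa0 (sa2 (sa2 (sa1 (sa0 R3)))))) :=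
  Ref.s11 (by decide +kernel) j138 r144

theorem j140 : Ref (sb1 (sa1 (sa0 (sa2 (sa1 R0))))) (sa2 (sa1 (sa2 (sa0 R1)))) (sa1 (sa0 (sb1 (sb0 (sb2 R2))))) (sa1 (sa0 (sa2 (sa2 (sa1 (sa0 R3)))))) :=
  Ref.s00 (by decide +kernel) j139 r145

theorem j141 : Ref (sa1 (sa0 (sa2 (sa1 R0)))) (sa2 (sa1 (sa2 (sa0 R1)))) (sa1 (sa0 (sb1 (sb0 (sb2 R2))))) (sa1 (sa0 (sa2 (sa2 (sa1 (sa0 R3)))))) :=
  Ref.s01 (by decide +kernel) r110 j140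

theorem j142 : Ref (sa1 (sa0 (sa2 (sa1 R0)))) (sa2 (sa1 (sa2 (sa0 R1)))) (sa0 (sb1 (sb0 (sb2 R2)))) (sa1 (sa0 (sa2 (sa2 (sa1 (sa0 R3)))))) :=
  Ref.s21 (by decide +kernel) j141 r146

theorem j143 : Ref (sa1 (sb1 (sa0 (sa2 (sa1 (sa0 (sa2 (sa1 R0)))))))) (sb0 (sa2 (sb0 (sa2 (sb0 (sb2 (sa1 (sa2 (sa0 R1))))))))) (sa0 (sb1 (sa1 (sb2 (sa0 (sb1 (sb0 (sb2 R2)))))))) (sa1 (sa0 (sa2 (sa1 (sa1 (sa0 (sa2 (sa2 (sa1 (sa0 R3)))))))))) :=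
  Ref.s02 (by decide +kernel) r153 r154

theorem j144 : Ref (sa1 (sb1 (sa0 (sa2 (sa1 (sa0 (sa2 (sa1 R0)))))))) (sa2 (sb0 (sa2 (sb0 (sb2 (sa1 (sa2 (sa0 R1)))))))) (sa0 (sb1 (sa1 (sb2 (sa0 (sb1 (sb0 (sb2 R2)))))))) (sa1 (sa0 (sa2 (sa1 (sa1 (sa0 (sa2 (sa2 (sa1 (sa0 R3)))))))))) :=
  Ref.s10 (by decide +kernel) r152 j143

theorem j145 : Ref (sa1 (sb1 (sa0 (sa2 (sa1 (sa0 (sa2 (sa1 R0)))))))) (sa2 (sb0 (sa2 (sb0 (sb2 (sa1 (sa2 (sa0 R1)))))))) (sa0 (sb1 (sa1 (sb2 (sa0 (sb1 (sb0 (sb2 R2)))))))) (sa0 (sa2 (sa1 (sa1 (sa0 (sa2 (sa2 (sa1 (sa0 R3))))))))) :=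
  Ref.s31 (by decide +kernel) j144 r155

theorem j146 : Ref (sb1 (sa0 (sa2 (sa1 (sa0 (sa2 (sa1 R0))))))) (sa2 (sb0 (sa2 (sb0 (sb2 (sa1 (sa2 (sa0 R1)))))))) (sa0 (sb1 (sa1 (sb2 (sa0 (sb1 (sb0 (sb2 R2)))))))) (sa0 (sa2 (sa1 (sa1 (sa0 (sa2 (sa2 (sa1 (sa0 R3))))))))) :=
  Ref.s01 (by decide +kernel) j145 r156

theorem j147 : Ref (sb1 (sa0 (sa2 (sa1 (sa0 (sa2 (sa1 R0))))))) (sa2 (sb0 (sa2 (sb0 (sb2 (sa1 (sa2 (sa0 R1)))))))) (sb1 (sa1 (sb2 (sa0 (sb1 (sb0 (sb2 R2))))))) (sa0 (sa2 (sa1 (sa1 (sa0 (sa2 (sa2 (sa1 (sa0 R3))))))))) :=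
  Ref.s20 (by decide +kernel) j146 r157

theorem j148 : Ref (sb1 (sa0 (sa2 (sa1 (sa0 (sa2 (sa1 R0))))))) (sa2 (sb0 (sa2 (sb0 (sb2 (sa1 (sa2 (sa0 R1)))))))) (sb1 (sa1 (sb2 (sa0 (sb1 (sb0 (sb2 R2))))))) (sa2 (sa1 (sa1 (sa0 (sa2 (sa2 (sa1 (sa0 R3)))))))) :=
  Ref.s30 (by decide +kernel) j147 r158

theorem j149 : Ref (sb1 (sa0 (sa2 (sa1 (sa0 (sa2 (sa1 R0))))))) (sa2 (sb0 (sa2 (sb0 (sb2 (sa1 (sa2 (sa0 R1)))))))) (sa1 (sb2 (sa0 (sb1 (sb0 (sb2 R2)))))) (sa2 (sa1 (sa1 (sa0 (sa2 (sa2 (sa1 (sa0 R3)))))))) :=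
  Ref.s21 (by decide +kernel) r151 j148

theorem j150 : Ref (sb1 (sa0 (sa2 (sa1 (sa0 (sa2 (sa1 R0))))))) (sb0 (sa2 (sb0 (sb2 (sa1 (sa2 (sa0 R1))))))) (sa1 (sb2 (sa0 (sb1 (sb0 (sb2 R2)))))) (sa2 (sa1 (sa1 (sa0 (sa2 (sa2 (sa1 (sa0 R3)))))))) :=
  Ref.s12 (by decide +kernel) j149 r159

theorem j151 : Ref (sb1 (sa0 (sa2 (sa1 (sa0 (sa2 (sa1 R0))))))) (sa2 (sb0 (sb2 (sa1 (sa2 (sa0 R1)))))) (sa1 (sb2 (sa0 (sb1 (sb0 (sb2 R2)))))) (sa2 (sa1 (sa1 (sa0 (sa2 (sa2 (sa1 (sa0 R3)))))))) :=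
  Ref.s10 (by decide +kernel) r150 j150

theorem j152 : Ref (sb1 (sa0 (sa2 (sa1 (sa0 (sa2 (sa1 R0))))))) (sa2 (sb0 (sb2 (sa1 (sa2 (sa0 R1)))))) (sa1 (sb2 (sa0 (sb1 (sb0 (sb2 R2)))))) (sa1 (sa1 (sa0 (sa2 (sa2 (sa1 (sa0 R3))))))) :=
  Ref.s32 (by decide +kernel) j151 r160

theorem j153 : Ref (sa0 (sa2 (sa1 (sa0 (sa2 (sa1 R0)))))) (sa2 (sb0 (sb2 (sa1 (sa2 (sa0 R1)))))) (sa1 (sb2 (sa0 (sb1 (sb0 (sb2 R2)))))) (sa1 (sa1 (sa0 (sa2 (sa2 (sa1 (sa0 R3))))))) :=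
  Ref.s01 (by decide +kernel) r149 j152

theorem j154 : Ref (sa0 (sa2 (sa1 (sa0 (sa2 (sa1 R0)))))) (sa2 (sb0 (sb2 (sa1 (sa2 (sa0 R1)))))) (sa1 (sb2 (sa0 (sb1 (sb0 (sb2 R2)))))) (sa1 (sa0 (sa2 (sa2 (sa1 (sa0 R3)))))) :=
  Ref.s31 (by decide +kernel) j153 r161

theorem j155 : Ref (sa0 (sa2 (sa1 (sa0 (sa2 (sa1 R0)))))) (sa2 (sb0 (sb2 (sa1 (sa2 (sa0 R1)))))) (sb2 (sa0 (sb1 (sb0 (sb2 R2))))) (sa1 (sa0 (sa2 (sa2 (sa1 (sa0 R3)))))) :=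
  Ref.s21 (by decide +kernel) j154 r162

theorem j156 : Ref (sa2 (sa1 (sa0 (sa2 (sa1 R0))))) (sa2 (sb0 (sb2 (sa1 (sa2 (sa0 R1)))))) (sb2 (sa0 (sb1 (sb0 (sb2 R2))))) (sa1 (sa0 (sa2 (sa2 (sa1 (sa0 R3)))))) :=
  Ref.s00 (by decide +kernel) j155 r163

theorem j157 : Ref (sa2 (sa1 (sa0 (sa2 (sa1 R0))))) (sb0 (sb2 (sa1 (sa2 (sa0 R1))))) (sb2 (sa0 (sb1 (sb0 (sb2 R2))))) (sa1 (sa0 (sa2 (sa2 (sa1 (sa0 R3)))))) :=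
  Ref.s12 (by decide +kernel) j156 r164

theorem j158 : Ref (sa0 (sb1 (sb2 (sa1 (sa0 (sa2 (sa1 R0))))))) (sb0 (sb2 (sa1 (sa2 (sa0 R1))))) (sb1 (sa1 (sb2 (sa0 (sb1 (sb0 (sb2 R2))))))) (sa1 (sa1 (sa0 (sa2 (sa2 (sa1 (sa0 R3))))))) :=
  Ref.s11 (by decide +kernel) r167 r168

theorem j159 : Ref (sa0 (sb1 (sb2 (sa1 (sa0 (sa2 (sa1 R0))))))) (sb0 (sb2 (sa1 (sa2 (sa0 R1))))) (sa1 (sb2 (sa0 (sb1 (sb0 (sb2 R2)))))) (sa1 (sa1 (sa0 (sa2 (sa2 (sa1 (sa0 R3))))))) :=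
  Ref.s21 (by decide +kernel) r166 j158

theorem j160 : Ref (sa0 (sb1 (sb2 (sa1 (sa0 (sa2 (sa1 R0))))))) (sb0 (sb2 (sa1 (sa2 (sa0 R1))))) (sa1 (sb2 (sa0 (sb1 (sb0 (sb2 R2)))))) (sa1 (sa0 (sa2 (sa2 (sa1 (sa0 R3)))))) :=
  Ref.s31 (by decide +kernel) j159 r169

theorem j161 : Ref (sb1 (sb2 (sa1 (sa0 (sa2 (sa1 R0)))))) (sb0 (sb2 (sa1 (sa2 (sa0 R1))))) (sa1 (sb2 (sa0 (sb1 (sb0 (sb2 R2)))))) (sa1 (sa0 (sa2 (sa2 (sa1 (sa0 R3)))))) :=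
  Ref.s00 (by decide +kernel) j160 r170

theorem j162 : Ref (sb1 (sb2 (sa1 (sa0 (sa2 (sa1 R0)))))) (sb0 (sb2 (sa1 (sa2 (sa0 R1))))) (sb2 (sa0 (sb1 (sb0 (sb2 R2))))) (sa1 (sa0 (sa2 (sa2 (sa1 (sa0 R3)))))) :=
  Ref.s21 (by decide +kernel) j161 r171

theorem j163 : Ref (sb2 (sa1 (sa0 (sa2 (sa1 R0))))) (sb0 (sb2 (sa1 (sa2 (sa0 R1))))) (sb2 (sa0 (sb1 (sb0 (sb2 R2))))) (sa1 (sa0 (sa2 (sa2 (sa1 (sa0 R3)))))) :=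
  Ref.s01 (by decide +kernel) r165 j162

theorem j164 : Ref (sa1 (sa0 (sa2 (sa1 R0)))) (sb0 (sb2 (sa1 (sa2 (sa0 R1))))) (sb2 (sa0 (sb1 (sb0 (sb2 R2))))) (sa1 (sa0 (sa2 (sa2 (sa1 (sa0 R3)))))) :=
  Ref.s02 (by decide +kernel) j157 j163

theorem j165 : Ref (sa1 (sa0 (sa2 (sa1 R0)))) (sb2 (sa1 (sa2 (sa0 R1)))) (sb2 (sa0 (sb1 (sb0 (sb2 R2))))) (sa1 (sa0 (sa2 (sa2 (sa1 (sa0 R3)))))) :=
  Ref.s10 (by decide +kernel) r148 j164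

theorem j166 : Ref (sa1 (sa0 (sa2 (sa1 R0)))) (sb2 (sa1 (sa2 (sa0 R1)))) (sa0 (sb1 (sb0 (sb2 R2)))) (sa1 (sa0 (sa2 (sa2 (sa1 (sa0 R3)))))) :=
  Ref.s22 (by decide +kernel) r147 j165

theorem j167 : Ref (sa1 (sa0 (sa2 (sa1 R0)))) (sa1 (sa2 (sa0 R1))) (sa0 (sb1 (sb0 (sb2 R2)))) (sa1 (sa0 (sa2 (sa2 (sa1 (sa0 R3)))))) :=
  Ref.s12 (by decide +kernel) j142 j166

theorem j168 : Ref (sa1 (sa0 (sa2 (sa1 R0)))) (sa1 (sa2 (sa0 R1))) (sa0 (sb1 (sb0 (sb2 R2)))) (sa0 (sa2 (sa2 (sa1 (sa0 R3))))) :=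
  Ref.s31 (by decide +kernel) j167 r172

theorem j169 : Ref (sa1 (sa0 (sa2 (sa1 R0)))) (sa2 (sa0 R1)) (sa0 (sb1 (sb0 (sb2 R2)))) (sa0 (sa2 (sa2 (sa1 (sa0 R3))))) :=
  Ref.s11 (by decide +kernel) j168 r173

theorem j170 : Ref (sa0 (sa2 (sa1 R0))) (sa2 (sa0 R1)) (sa0 (sb1 (sb0 (sb2 R2)))) (sa0 (sa2 (sa2 (sa1 (sa0 R3))))) :=
  Ref.s01 (by decide +kernel) j169 r174

theorem j171 : Ref (sa0 (sa2 (sa1 R0))) (sa2 (sa0 R1)) (sb1 (sb0 (sb2 R2))) (sa0 (sa2 (sa2 (sa1 (sa0 R3))))) :=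
  Ref.s20 (by decide +kernel) j170 r175

theorem j172 : Ref (sa0 (sa2 (sa1 R0))) (sa2 (sa0 R1)) (sb1 (sb0 (sb2 R2))) (sa2 (sa2 (sa1 (sa0 R3)))) :=
  Ref.s30 (by decide +kernel) j171 r176

theorem j173 : Ref (sa2 (sa1 (sa0 (sa0 (sa2 (sa1 R0)))))) (sb0 (sa2 (sa0 R1))) (sa0 (sb1 (sb0 (sb2 R2)))) (sb0 (sb2 (sa2 (sa1 (sa0 R3))))) :=
  Ref.s21 (by decide +kernel) r179 r180

theorem j174 : Ref (sa2 (sa1 (sa0 (sa0 (sa2 (sa1 R0)))))) (sb0 (sa2 (sa0 R1))) (sa0 (sb1 (sb0 (sb2 R2)))) (sb2 (sa2 (sa1 (sa0 R3)))) :=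
  Ref.s30 (by decide +kernel) r178 j173

theorem j175 : Ref (sb2 (sa1 (sa0 (sa0 (sa2 (sa1 R0)))))) (sb0 (sa2 (sa0 R1))) (sb1 (sa0 (sb1 (sb0 (sb2 R2))))) (sb0 (sb2 (sa2 (sa1 (sa0 R3))))) :=
  Ref.s12 (by decide +kernel) r183 r184

theorem j176 : Ref (sb2 (sa1 (sa0 (sa0 (sa2 (sa1 R0)))))) (sb0 (sa2 (sa0 R1))) (sa0 (sb1 (sb0 (sb2 R2)))) (sb0 (sb2 (sa2 (sa1 (sa0 R3))))) :=
  Ref.s21 (by decide +kernel) r182 j175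

theorem j177 : Ref (sb2 (sa1 (sa0 (sa0 (sa2 (sa1 R0)))))) (sb0 (sa2 (sa0 R1))) (sa0 (sb1 (sb0 (sb2 R2)))) (sb2 (sa2 (sa1 (sa0 R3)))) :=
  Ref.s30 (by decide +kernel) r181 j176

theorem j178 : Ref (sa1 (sa0 (sa0 (sa2 (sa1 R0))))) (sb0 (sa2 (sa0 R1))) (sa0 (sb1 (sb0 (sb2 R2)))) (sb2 (sa2 (sa1 (sa0 R3)))) :=
  Ref.s02 (by decide +kernel) j174 j177

theorem j179 : Ref (sa1 (sa0 (sa0 (sa2 (sa1 R0))))) (sa2 (sa0 R1)) (sa0 (sb1 (sb0 (sb2 R2)))) (sb2 (sa2 (sa1 (sa0 R3)))) :=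
  Ref.s10 (by decide +kernel) r177 j178

theorem j180 : Ref (sa0 (sa0 (sa2 (sa1 R0)))) (sa2 (sa0 R1)) (sa0 (sb1 (sb0 (sb2 R2)))) (sb2 (sa2 (sa1 (sa0 R3)))) :=
  Ref.s01 (by decide +kernel) j179 r185

theorem j181 : Ref (sb0 (sa0 (sa2 (sa1 R0)))) (sb0 (sa2 (sa0 R1))) (sa0 (sb1 (sb0 (sb2 R2)))) (sb2 (sa2 (sa1 (sa0 R3)))) :=
  Ref.s21 (by decide +kernel) r187 r188

theorem j182 : Ref (sb0 (sa0 (sa2 (sa1 R0)))) (sa2 (sa0 R1)) (sa0 (sb1 (sb0 (sb2 R2)))) (sb2 (sa2 (sa1 (sa0 R3)))) :=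
  Ref.s10 (by decide +kernel) r186 j181

theorem j183 : Ref (sa0 (sa2 (sa1 R0))) (sa2 (sa0 R1)) (sa0 (sb1 (sb0 (sb2 R2)))) (sb2 (sa2 (sa1 (sa0 R3)))) :=
  Ref.s00 (by decide +kernel) j180 j182

theorem j184 : Ref (sa0 (sa2 (sa1 R0))) (sa2 (sa0 R1)) (sb1 (sb0 (sb2 R2))) (sb2 (sa2 (sa1 (sa0 R3)))) :=
  Ref.s20 (by decide +kernel) j183 r189

theorem j185 : Ref (sa0 (sa2 (sa1 R0))) (sa2 (sa0 R1)) (sb1 (sb0 (sb2 R2))) (sa2 (sa1 (sa0 R3))) :=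
  Ref.s32 (by decide +kernel) j172 j184

theorem j186 : Ref (sa0 (sa2 (sa1 R0))) (sa2 (sa0 R1)) (sb0 (sb2 R2)) (sa2 (sa1 (sa0 R3))) :=
  Ref.s21 (by decide +kernel) r109 j185

theorem j187 : Ref (sa2 (sa1 R0)) (sa2 (sa0 R1)) (sb0 (sb2 R2)) (sa2 (sa1 (sa0 R3))) :=
  Ref.s00 (by decide +kernel) j186 r190

theorem j188 : Ref (sb1 (sb2 (sa1 R0))) (sa2 (sa0 R1)) (sb1 (sb0 (sb2 R2))) (sa2 (sa2 (sa1 (sa0 R3)))) :=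
  Ref.s20 (by decide +kernel) r193 r194

theorem j189 : Ref (sb2 (sa1 R0)) (sa2 (sa0 R1)) (sb1 (sb0 (sb2 R2))) (sa2 (sa2 (sa1 (sa0 R3)))) :=
  Ref.s01 (by decide +kernel) r192 j188

theorem j190 : Ref (sa2 (sb2 (sa1 R0))) (sb2 (sb0 (sa2 (sa0 R1)))) (sa0 (sb1 (sb0 (sb2 R2)))) (sb0 (sb2 (sa2 (sa1 (sa0 R3))))) :=
  Ref.s00 (by decide +kernel) r198 r199

theorem j191 : Ref (sa2 (sb2 (sa1 R0))) (sb0 (sa2 (sa0 R1))) (sa0 (sb1 (sb0 (sb2 R2)))) (sb0 (sb2 (sa2 (sa1 (sa0 R3))))) :=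
  Ref.s12 (by decide +kernel) r197 j190

theorem j192 : Ref (sa2 (sb2 (sa1 R0))) (sb0 (sa2 (sa0 R1))) (sa0 (sb1 (sb0 (sb2 R2)))) (sb2 (sa2 (sa1 (sa0 R3)))) :=
  Ref.s30 (by decide +kernel) r196 j191

theorem j193 : Ref (sa2 (sb2 (sa1 R0))) (sa2 (sa0 R1)) (sa0 (sb1 (sb0 (sb2 R2)))) (sb2 (sa2 (sa1 (sa0 R3)))) :=
  Ref.s10 (by decide +kernel) r195 j192

theorem j194 : Ref (sa2 (sb2 (sa1 R0))) (sa2 (sa0 R1)) (sb1 (sb0 (sb2 R2))) (sb2 (sa2 (sa1 (sa0 R3)))) :=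
  Ref.s20 (by decide +kernel) j193 r200

theorem j195 : Ref (sb2 (sa1 R0)) (sa2 (sa0 R1)) (sb1 (sb0 (sb2 R2))) (sb2 (sa2 (sa1 (sa0 R3)))) :=
  Ref.s02 (by decide +kernel) j194 r201

theorem j196 : Ref (sb2 (sa1 R0)) (sa2 (sa0 R1)) (sb1 (sb0 (sb2 R2))) (sa2 (sa1 (sa0 R3))) :=
  Ref.s32 (by decide +kernel) j189 j195

theorem j197 : Ref (sb2 (sa1 R0)) (sa2 (sa0 R1)) (sb0 (sb2 R2)) (sa2 (sa1 (sa0 R3))) :=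
  Ref.s21 (by decide +kernel) r191 j196

theorem j198 : Ref (sa1 R0) (sa2 (sa0 R1)) (sb0 (sb2 R2)) (sa2 (sa1 (sa0 R3))) :=
  Ref.s02 (by decide +kernel) j187 j197

theorem j199 : Ref (sa1 R0) (sa2 (sa0 R1)) (sb2 R2) (sa2 (sa1 (sa0 R3))) :=
  Ref.s20 (by decide +kernel) j106 j198

theorem j200 : Ref (sa1 R0) (sa1 (sb2 (sa0 R1))) (sa1 (sa0 (sb2 R2))) (sa2 (sa1 (sa0 R3))) :=
  Ref.s00 (by decide +kernel) r202 r203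

theorem j201 : Ref (sa1 R0) (sa1 (sb2 (sa0 R1))) (sa0 (sb2 R2)) (sa2 (sa1 (sa0 R3))) :=
  Ref.s21 (by decide +kernel) j200 r204

theorem j202 : Ref (sb2 (sa1 (sa0 (sa0 (sa2 (sa1 R0)))))) (sa2 (sb0 (sb0 (sb1 (sb2 (sa0 R1)))))) (sa2 (sa2 (sa1 (sa0 (sb2 R2))))) (sa0 (sb0 (sa2 (sa2 (sa1 (sa0 R3)))))) :=
  Ref.s10 (by decide +kernel) r209 r210

theorem j203 : Ref (sa1 (sa0 (sa0 (sa2 (sa1 R0))))) (sa2 (sb0 (sb0 (sb1 (sb2 (sa0 R1)))))) (sa2 (sa2 (sa1 (sa0 (sb2 R2))))) (sa0 (sb0 (sa2 (sa2 (sa1 (sa0 R3)))))) :=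
  Ref.s02 (by decide +kernel) r208 j202

theorem j204 : Ref (sa1 (sa0 (sa0 (sa2 (sa1 R0))))) (sa2 (sb0 (sb0 (sb1 (sb2 (sa0 R1)))))) (sa2 (sa2 (sa1 (sa0 (sb2 R2))))) (sb0 (sa2 (sa2 (sa1 (sa0 R3))))) :=
  Ref.s30 (by decide +kernel) j203 r211

theorem j205 : Ref (sa1 (sa0 (sa0 (sa2 (sa1 R0))))) (sb0 (sb0 (sb1 (sb2 (sa0 R1))))) (sa2 (sa2 (sa1 (sa0 (sb2 R2))))) (sb0 (sa2 (sa2 (sa1 (sa0 R3))))) :=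
  Ref.s12 (by decide +kernel) j204 r212

theorem j206 : Ref (sa0 (sa0 (sa2 (sa1 R0)))) (sb0 (sb0 (sb1 (sb2 (sa0 R1))))) (sa2 (sa2 (sa1 (sa0 (sb2 R2))))) (sb0 (sa2 (sa2 (sa1 (sa0 R3))))) :=
  Ref.s01 (by decide +kernel) j205 r213

theorem j207 : Ref (sa0 (sa2 (sa1 R0))) (sb0 (sb0 (sb1 (sb2 (sa0 R1))))) (sa2 (sa2 (sa1 (sa0 (sb2 R2))))) (sb0 (sa2 (sa2 (sa1 (sa0 R3))))) :=
  Ref.s00 (by decide +kernel) j206 r214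

theorem j208 : Ref (sa0 (sa2 (sa1 R0))) (sb0 (sb0 (sb1 (sb2 (sa0 R1))))) (sa2 (sa1 (sa0 (sb2 R2)))) (sb0 (sa2 (sa2 (sa1 (sa0 R3))))) :=
  Ref.s22 (by decide +kernel) j207 r215

theorem j209 : Ref (sa0 (sa2 (sa1 R0))) (sb0 (sb1 (sb2 (sa0 R1)))) (sa2 (sa1 (sa0 (sb2 R2)))) (sb0 (sa2 (sa2 (sa1 (sa0 R3))))) :=
  Ref.s10 (by decide +kernel) r207 j208

theorem j210 : Ref (sa0 (sa2 (sa1 R0))) (sb0 (sb1 (sb2 (sa0 R1)))) (sa2 (sa1 (sa0 (sb2 R2)))) (sa2 (sa2 (sa1 (sa0 R3)))) :=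
  Ref.s30 (by decide +kernel) r206 j209

theorem j211 : Ref (sa0 (sa2 (sa1 R0))) (sb0 (sb1 (sb2 (sa0 R1)))) (sa2 (sa1 (sa0 (sb2 R2)))) (sa2 (sa1 (sa0 R3))) :=
  Ref.s32 (by decide +kernel) j210 r216

theorem j212 : Ref (sa2 (sa1 R0)) (sb0 (sb1 (sb2 (sa0 R1)))) (sa2 (sa1 (sa0 (sb2 R2)))) (sa2 (sa1 (sa0 R3))) :=
  Ref.s00 (by decide +kernel) j211 r217

theorem j213 : Ref (sa1 R0) (sb0 (sb1 (sb2 (sa0 R1)))) (sa2 (sa1 (sa0 (sb2 R2)))) (sa2 (sa1 (sa0 R3))) :=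
  Ref.s02 (by decide +kernel) j212 r218

theorem j214 : Ref (sa1 R0) (sb0 (sb1 (sb2 (sa0 R1)))) (sa1 (sa0 (sb2 R2))) (sa2 (sa1 (sa0 R3))) :=
  Ref.s22 (by decide +kernel) j213 r219

theorem j215 : Ref (sa0 (sa1 R0)) (sb0 (sb1 (sb2 (sa0 R1)))) (sb1 (sa0 (sb2 R2))) (sa2 (sa1 (sa0 R3))) :=
  Ref.s32 (by decide +kernel) r220 r221

theorem j216 : Ref (sa1 R0) (sb0 (sb1 (sb2 (sa0 R1)))) (sb1 (sa0 (sb2 R2))) (sa2 (sa1 (sa0 R3))) :=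
  Ref.s00 (by decide +kernel) j215 r222

theorem j217 : Ref (sa1 R0) (sb0 (sb1 (sb2 (sa0 R1)))) (sa0 (sb2 R2)) (sa2 (sa1 (sa0 R3))) :=
  Ref.s21 (by decide +kernel) j214 j216

theorem j218 : Ref (sa1 R0) (sb1 (sb2 (sa0 R1))) (sa0 (sb2 R2)) (sa2 (sa1 (sa0 R3))) :=
  Ref.s10 (by decide +kernel) r205 j217

theorem j219 : Ref (sa1 R0) (sb2 (sa0 R1)) (sa0 (sb2 R2)) (sa2 (sa1 (sa0 R3))) :=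
  Ref.s11 (by decide +kernel) j201 j218

theorem j220 : Ref (sa1 (sa0 (sa2 (sa1 R0)))) (sb1 (sb2 (sa0 R1))) (sb1 (sb0 (sb2 R2))) (sa2 (sa1 (sa0 R3))) :=
  Ref.s32 (by decide +kernel) r225 r226

theorem j221 : Ref (sa0 (sa2 (sa1 R0))) (sb1 (sb2 (sa0 R1))) (sb1 (sb0 (sb2 R2))) (sa2 (sa1 (sa0 R3))) :=
  Ref.s01 (by decide +kernel) j220 r227

theorem j222 : Ref (sa0 (sa2 (sa1 R0))) (sb2 (sa0 R1)) (sb1 (sb0 (sb2 R2))) (sa2 (sa1 (sa0 R3))) :=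
  Ref.s11 (by decide +kernel) r224 j221

theorem j223 : Ref (sa2 (sa1 R0)) (sb2 (sa0 R1)) (sb1 (sb0 (sb2 R2))) (sa2 (sa1 (sa0 R3))) :=
  Ref.s00 (by decide +kernel) j222 r228

theorem j224 : Ref (sa2 (sa1 R0)) (sb2 (sa0 R1)) (sb0 (sb2 R2)) (sa2 (sa1 (sa0 R3))) :=
  Ref.s21 (by decide +kernel) r223 j223

theorem j225 : Ref (sb2 (sa1 R0)) (sb2 (sa0 R1)) (sb0 (sb2 R2)) (sa2 (sa1 (sa0 R3))) :=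
  Ref.s21 (by decide +kernel) r229 r230

theorem j226 : Ref (sa1 R0) (sb2 (sa0 R1)) (sb0 (sb2 R2)) (sa2 (sa1 (sa0 R3))) :=
  Ref.s02 (by decide +kernel) j224 j225

theorem j227 : Ref (sa1 R0) (sb2 (sa0 R1)) (sb2 R2) (sa2 (sa1 (sa0 R3))) :=
  Ref.s20 (by decide +kernel) j219 j226

theorem j228 : Ref (sa1 R0) (sa0 R1) (sb2 R2) (sa2 (sa1 (sa0 R3))) :=
  Ref.s12 (by decide +kernel) j199 j227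

theorem j229 : Ref (sa1 R0) (sa0 R1) R2 (sa2 (sa1 (sa0 R3))) :=
  Ref.s22 (by decide +kernel) j3 j228

theorem j230 : Ref (sa2 (sa0 (sa1 R0))) (sa1 (sb0 R1)) (sb0 (sb1 (sb2 R2))) (sa2 (sa1 (sa0 R3))) :=
  Ref.s12 (by decide +kernel) r234 r235

theorem j231 : Ref (sa2 (sa0 (sa1 R0))) (sa1 (sb0 R1)) (sb1 (sb2 R2)) (sa2 (sa1 (sa0 R3))) :=
  Ref.s20 (by decide +kernel) r233 j230

theorem j232 : Ref (sa2 (sa0 (sa1 R0))) (sa1 (sb0 R1)) (sb2 R2) (sa2 (sa1 (sa0 R3))) :=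
  Ref.s21 (by decide +kernel) r232 j231

theorem j233 : Ref (sa0 (sa1 R0)) (sa1 (sb0 R1)) (sb2 R2) (sa2 (sa1 (sa0 R3))) :=
  Ref.s02 (by decide +kernel) j232 r236

theorem j234 : Ref (sb2 (sb0 (sa1 R0))) (sa0 (sa2 (sa1 (sb0 R1)))) (sa2 (sa1 (sa0 (sb2 R2)))) (sa0 (sa2 (sa2 (sa1 (sa0 R3))))) :=
  Ref.s02 (by decide +kernel) r238 r239

theorem j235 : Ref (sb2 (sb0 (sa1 R0))) (sa0 (sa2 (sa1 (sb0 R1)))) (sa2 (sa1 (sa0 (sb2 R2)))) (sa2 (sa2 (sa1 (sa0 R3)))) :=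
  Ref.s30 (by decide +kernel) j234 r240

theorem j236 : Ref (sb2 (sb0 (sa1 R0))) (sa0 (sa2 (sa1 (sb0 R1)))) (sa2 (sa1 (sa0 (sb2 R2)))) (sa2 (sa1 (sa0 R3))) :=
  Ref.s32 (by decide +kernel) j235 r241

theorem j237 : Ref (sb0 (sa1 R0)) (sa0 (sa2 (sa1 (sb0 R1)))) (sa2 (sa1 (sa0 (sb2 R2)))) (sa2 (sa1 (sa0 R3))) :=
  Ref.s02 (by decide +kernel) r237 j236

theorem j238 : Ref (sb0 (sa1 R0)) (sa0 (sa2 (sa1 (sb0 R1)))) (sa1 (sa0 (sb2 R2))) (sa2 (sa1 (sa0 R3))) :=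
  Ref.s22 (by decide +kernel) j237 r242

theorem j239 : Ref (sb0 (sa1 R0)) (sa0 (sa2 (sa1 (sb0 R1)))) (sa0 (sb2 R2)) (sa2 (sa1 (sa0 R3))) :=
  Ref.s21 (by decide +kernel) j238 r243

theorem j240 : Ref (sb0 (sa1 R0)) (sa0 (sa2 (sa1 (sb0 R1)))) (sb2 R2) (sa2 (sa1 (sa0 R3))) :=
  Ref.s20 (by decide +kernel) j239 r244

theorem j241 : Ref (sb0 (sa1 R0)) (sa2 (sa1 (sb0 R1))) (sb2 R2) (sa2 (sa1 (sa0 R3))) :=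
  Ref.s10 (by decide +kernel) j240 r245

theorem j242 : Ref (sb0 (sa1 R0)) (sa1 (sb0 R1)) (sb2 R2) (sa2 (sa1 (sa0 R3))) :=
  Ref.s12 (by decide +kernel) j241 r246

theorem j243 : Ref (sa1 R0) (sa1 (sb0 R1)) (sb2 R2) (sa2 (sa1 (sa0 R3))) :=
  Ref.s00 (by decide +kernel) j233 j242

theorem j244 : Ref (sa1 R0) (sa1 (sb0 R1)) R2 (sa2 (sa1 (sa0 R3))) :=
  Ref.s22 (by decide +kernel) r231 j243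

theorem j245 : Ref (sa1 R0) (sb1 (sb0 R1)) (sa0 (sa1 (sa2 R2))) (sa2 (sa1 (sa0 R3))) :=
  Ref.s00 (by decide +kernel) r247 r248

theorem j246 : Ref (sa1 R0) (sb1 (sb0 R1)) (sa1 (sa2 R2)) (sa2 (sa1 (sa0 R3))) :=
  Ref.s20 (by decide +kernel) j245 r249

theorem j247 : Ref (sa1 R0) (sb1 (sb0 R1)) (sa2 R2) (sa2 (sa1 (sa0 R3))) :=
  Ref.s21 (by decide +kernel) j246 r250

theorem j248 : Ref (sa2 (sb0 (sa1 (sa0 (sa1 R0))))) (sa0 (sa1 (sb2 (sb1 (sb0 R1))))) (sb0 (sa2 (sa1 (sa1 (sa0 (sb2 R2)))))) (sa1 (sa0 (sa2 (sa2 (sa1 (sa0 R3)))))) :=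
  Ref.s22 (by decide +kernel) r254 r255

theorem j249 : Ref (sa2 (sb0 (sa1 (sa0 (sa1 R0))))) (sa1 (sb2 (sb1 (sb0 R1)))) (sb0 (sa2 (sa1 (sa1 (sa0 (sb2 R2)))))) (sa1 (sa0 (sa2 (sa2 (sa1 (sa0 R3)))))) :=
  Ref.s10 (by decide +kernel) j248 r256

theorem j250 : Ref (sa2 (sb0 (sa1 (sa0 (sa1 R0))))) (sa1 (sb2 (sb1 (sb0 R1)))) (sb0 (sa2 (sa1 (sa1 (sa0 (sb2 R2)))))) (sa0 (sa2 (sa2 (sa1 (sa0 R3))))) :=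
  Ref.s31 (by decide +kernel) j249 r257

theorem j251 : Ref (sb0 (sa1 (sa0 (sa1 R0)))) (sa1 (sb2 (sb1 (sb0 R1)))) (sb0 (sa2 (sa1 (sa1 (sa0 (sb2 R2)))))) (sa0 (sa2 (sa2 (sa1 (sa0 R3))))) :=
  Ref.s02 (by decide +kernel) j250 r258

theorem j252 : Ref (sb0 (sa1 (sa0 (sa1 R0)))) (sa1 (sb2 (sb1 (sb0 R1)))) (sb0 (sa2 (sa1 (sa1 (sa0 (sb2 R2)))))) (sa2 (sa2 (sa1 (sa0 R3)))) :=
  Ref.s30 (by decide +kernel) j251 r259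

theorem j253 : Ref (sa0 (sa0 (sa2 (sa2 (sb0 (sa1 (sa0 (sa1 R0)))))))) (sa1 (sb2 (sa1 (sb2 (sb1 (sb2 (sb1 (sb0 R1)))))))) (sa2 (sb2 (sb0 (sa2 (sa1 (sa1 (sa0 (sb2 R2)))))))) (sa1 (sa0 (sa2 (sa2 (sa1 (sa0 R3)))))) :=
  Ref.s31 (by decide +kernel) r263 r264

theorem j254 : Ref (sa0 (sa0 (sa2 (sa2 (sb0 (sa1 (sa0 (sa1 R0)))))))) (sb2 (sa1 (sb2 (sb1 (sb2 (sb1 (sb0 R1))))))) (sa2 (sb2 (sb0 (sa2 (sa1 (sa1 (sa0 (sb2 R2)))))))) (sa1 (sa0 (sa2 (sa2 (sa1 (sa0 R3)))))) :=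
  Ref.s11 (by decide +kernel) j253 r265

theorem j255 : Ref (sa0 (sa2 (sa2 (sb0 (sa1 (sa0 (sa1 R0))))))) (sb2 (sa1 (sb2 (sb1 (sb2 (sb1 (sb0 R1))))))) (sa2 (sb2 (sb0 (sa2 (sa1 (sa1 (sa0 (sb2 R2)))))))) (sa1 (sa0 (sa2 (sa2 (sa1 (sa0 R3)))))) :=
  Ref.s00 (by decide +kernel) j254 r266

theorem j256 : Ref (sa0 (sa2 (sa2 (sb0 (sa1 (sa0 (sa1 R0))))))) (sb2 (sa1 (sb2 (sb1 (sb2 (sb1 (sb0 R1))))))) (sb2 (sb0 (sa2 (sa1 (sa1 (sa0 (sb2 R2))))))) (sa1 (sa0 (sa2 (sa2 (sa1 (sa0 R3)))))) :=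
  Ref.s22 (by decide +kernel) j255 r267

theorem j257 : Ref (sa0 (sa2 (sa2 (sb0 (sa1 (sa0 (sa1 R0))))))) (sa1 (sb2 (sb1 (sb2 (sb1 (sb0 R1)))))) (sb2 (sb0 (sa2 (sa1 (sa1 (sa0 (sb2 R2))))))) (sa1 (sa0 (sa2 (sa2 (sa1 (sa0 R3)))))) :=
  Ref.s12 (by decide +kernel) r262 j256

theorem j258 : Ref (sa2 (sa2 (sb0 (sa1 (sa0 (sa1 R0)))))) (sa1 (sb2 (sb1 (sb2 (sb1 (sb0 R1)))))) (sb2 (sb0 (sa2 (sa1 (sa1 (sa0 (sb2 R2))))))) (sa1 (sa0 (sa2 (sa2 (sa1 (sa0 R3)))))) :=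
  Ref.s00 (by decide +kernel) j257 r268

theorem j259 : Ref (sa2 (sb0 (sa1 (sa0 (sa1 R0))))) (sa1 (sb2 (sb1 (sb2 (sb1 (sb0 R1)))))) (sb2 (sb0 (sa2 (sa1 (sa1 (sa0 (sb2 R2))))))) (sa1 (sa0 (sa2 (sa2 (sa1 (sa0 R3)))))) :=
  Ref.s02 (by decide +kernel) j258 r269

theorem j260 : Ref (sa2 (sb0 (sa1 (sa0 (sa1 R0))))) (sb2 (sb1 (sb2 (sb1 (sb0 R1))))) (sb2 (sb0 (sa2 (sa1 (sa1 (sa0 (sb2 R2))))))) (sa1 (sa0 (sa2 (sa2 (sa1 (sa0 R3)))))) :=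
  Ref.s11 (by decide +kernel) j259 r270

theorem j261 : Ref (sa2 (sb0 (sa1 (sa0 (sa1 R0))))) (sb2 (sb1 (sb2 (sb1 (sb0 R1))))) (sb0 (sa2 (sa1 (sa1 (sa0 (sb2 R2)))))) (sa1 (sa0 (sa2 (sa2 (sa1 (sa0 R3)))))) :=
  Ref.s22 (by decide +kernel) r261 j260

theorem j262 : Ref (sa2 (sb0 (sa1 (sa0 (sa1 R0))))) (sb1 (sb2 (sb1 (sb0 R1)))) (sb0 (sa2 (sa1 (sa1 (sa0 (sb2 R2)))))) (sa1 (sa0 (sa2 (sa2 (sa1 (sa0 R3)))))) :=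
  Ref.s12 (by decide +kernel) r260 j261

theorem j263 : Ref (sa2 (sb0 (sa1 (sa0 (sa1 R0))))) (sb1 (sb2 (sb1 (sb0 R1)))) (sb0 (sa2 (sa1 (sa1 (sa0 (sb2 R2)))))) (sa0 (sa2 (sa2 (sa1 (sa0 R3))))) :=
  Ref.s31 (by decide +kernel) j262 r271

theorem j264 : Ref (sb0 (sa1 (sa0 (sa1 R0)))) (sb1 (sb2 (sb1 (sb0 R1)))) (sb0 (sa2 (sa1 (sa1 (sa0 (sb2 R2)))))) (sa0 (sa2 (sa2 (sa1 (sa0 R3))))) :=
  Ref.s02 (by decide +kernel) j263 r272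

theorem j265 : Ref (sb0 (sa1 (sa0 (sa1 R0)))) (sb1 (sb2 (sb1 (sb0 R1)))) (sb0 (sa2 (sa1 (sa1 (sa0 (sb2 R2)))))) (sa2 (sa2 (sa1 (sa0 R3)))) :=
  Ref.s30 (by decide +kernel) j264 r273

theorem j266 : Ref (sb0 (sa1 (sa0 (sa1 R0)))) (sb2 (sb1 (sb0 R1))) (sb0 (sa2 (sa1 (sa1 (sa0 (sb2 R2)))))) (sa2 (sa2 (sa1 (sa0 R3)))) :=
  Ref.s11 (by decide +kernel) j252 j265

theorem j267 : Ref (sb0 (sa1 (sa0 (sa1 R0)))) (sb2 (sb1 (sb0 R1))) (sa2 (sa1 (sa1 (sa0 (sb2 R2))))) (sa2 (sa2 (sa1 (sa0 R3)))) :=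
  Ref.s20 (by decide +kernel) r253 j266

theorem j268 : Ref (sa1 (sa0 (sa1 R0))) (sb2 (sb1 (sb0 R1))) (sa2 (sa1 (sa1 (sa0 (sb2 R2))))) (sa2 (sa2 (sa1 (sa0 R3)))) :=
  Ref.s00 (by decide +kernel) r252 j267

theorem j269 : Ref (sa0 (sa1 R0)) (sb2 (sb1 (sb0 R1))) (sa2 (sa1 (sa1 (sa0 (sb2 R2))))) (sa2 (sa2 (sa1 (sa0 R3)))) :=
  Ref.s01 (by decide +kernel) j268 r274

theorem j270 : Ref (sb0 (sa1 (sa0 (sa1 R0)))) (sb2 (sb1 (sb0 R1))) (sa2 (sa1 (sa1 (sa0 (sb2 R2))))) (sb2 (sa2 (sa1 (sa0 R3)))) :=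
  Ref.s20 (by decide +kernel) r276 r277

theorem j271 : Ref (sa1 (sa0 (sa1 R0))) (sb2 (sb1 (sb0 R1))) (sa2 (sa1 (sa1 (sa0 (sb2 R2))))) (sb2 (sa2 (sa1 (sa0 R3)))) :=
  Ref.s00 (by decide +kernel) r275 j270

theorem j272 : Ref (sb1 (sa0 (sa1 R0))) (sb2 (sb1 (sb0 R1))) (sa2 (sa1 (sa1 (sa0 (sb2 R2))))) (sb0 (sb2 (sa2 (sa1 (sa0 R3))))) :=
  Ref.s10 (by decide +kernel) r279 r280

theorem j273 : Ref (sb1 (sa0 (sa1 R0))) (sb2 (sb1 (sb0 R1))) (sa2 (sa1 (sa1 (sa0 (sb2 R2))))) (sb2 (sa2 (sa1 (sa0 R3)))) :=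
  Ref.s30 (by decide +kernel) r278 j272

theorem j274 : Ref (sa0 (sa1 R0)) (sb2 (sb1 (sb0 R1))) (sa2 (sa1 (sa1 (sa0 (sb2 R2))))) (sb2 (sa2 (sa1 (sa0 R3)))) :=
  Ref.s01 (by decide +kernel) j271 j273

theorem j275 : Ref (sa0 (sa1 R0)) (sb2 (sb1 (sb0 R1))) (sa2 (sa1 (sa1 (sa0 (sb2 R2))))) (sa2 (sa1 (sa0 R3))) :=
  Ref.s32 (by decide +kernel) j269 j274

theorem j276 : Ref (sa0 (sa1 R0)) (sb2 (sb1 (sb0 R1))) (sa1 (sa1 (sa0 (sb2 R2)))) (sa2 (sa1 (sa0 R3))) :=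
  Ref.s22 (by decide +kernel) j275 r281

theorem j277 : Ref (sb0 (sa1 (sa0 (sa1 R0)))) (sa1 (sb2 (sb1 (sb0 R1)))) (sb1 (sa1 (sa0 (sb2 R2)))) (sa2 (sa1 (sa0 R3))) :=
  Ref.s30 (by decide +kernel) r283 r284

theorem j278 : Ref (sa1 (sa0 (sa1 R0))) (sa1 (sb2 (sb1 (sb0 R1)))) (sb1 (sa1 (sa0 (sb2 R2)))) (sa2 (sa1 (sa0 R3))) :=
  Ref.s00 (by decide +kernel) r282 j277

theorem j279 : Ref (sb1 (sa0 (sa1 R0))) (sa1 (sb2 (sb1 (sb0 R1)))) (sb1 (sa1 (sa0 (sb2 R2)))) (sa2 (sa1 (sa0 R3))) :=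
  Ref.s30 (by decide +kernel) r285 r286

theorem j280 : Ref (sa0 (sa1 R0)) (sa1 (sb2 (sb1 (sb0 R1)))) (sb1 (sa1 (sa0 (sb2 R2)))) (sa2 (sa1 (sa0 R3))) :=
  Ref.s01 (by decide +kernel) j278 j279

theorem j281 : Ref (sa0 (sa1 R0)) (sb2 (sb1 (sb0 R1))) (sb1 (sa1 (sa0 (sb2 R2)))) (sa2 (sa1 (sa0 R3))) :=
  Ref.s11 (by decide +kernel) j280 r287

theorem j282 : Ref (sa0 (sa1 R0)) (sb2 (sb1 (sb0 R1))) (sa1 (sa0 (sb2 R2))) (sa2 (sa1 (sa0 R3))) :=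
  Ref.s21 (by decide +kernel) j276 j281

theorem j283 : Ref (sa0 (sa1 R0)) (sa1 (sb2 (sb1 (sb0 R1)))) (sb0 (sb1 (sa0 (sb2 R2)))) (sa2 (sa1 (sa0 R3))) :=
  Ref.s02 (by decide +kernel) r289 r290

theorem j284 : Ref (sa0 (sa1 R0)) (sa1 (sb2 (sb1 (sb0 R1)))) (sb1 (sa0 (sb2 R2))) (sa2 (sa1 (sa0 R3))) :=
  Ref.s20 (by decide +kernel) r288 j283

theorem j285 : Ref (sa0 (sa1 R0)) (sb2 (sb1 (sb0 R1))) (sb1 (sa0 (sb2 R2))) (sa2 (sa1 (sa0 R3))) :=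
  Ref.s11 (by decide +kernel) j284 r291

theorem j286 : Ref (sa0 (sa1 R0)) (sb2 (sb1 (sb0 R1))) (sa0 (sb2 R2)) (sa2 (sa1 (sa0 R3))) :=
  Ref.s21 (by decide +kernel) j282 j285

theorem j287 : Ref (sb1 (sa2 (sb2 (sb0 (sa1 R0))))) (sb2 (sb1 (sb0 R1))) (sa2 (sa1 (sa1 (sa0 (sb2 R2))))) (sa1 (sa0 (sa2 (sa2 (sa1 (sa0 R3)))))) :=
  Ref.s20 (by decide +kernel) r294 r295

theorem j288 : Ref (sa2 (sb2 (sb0 (sa1 R0)))) (sb2 (sb1 (sb0 R1))) (sa2 (sa1 (sa1 (sa0 (sb2 R2))))) (sa1 (sa0 (sa2 (sa2 (sa1 (sa0 R3)))))) :=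
  Ref.s01 (by decide +kernel) r293 j287

theorem j289 : Ref (sa2 (sb2 (sb0 (sa1 R0)))) (sb2 (sb1 (sb0 R1))) (sa2 (sa1 (sa1 (sa0 (sb2 R2))))) (sa0 (sa2 (sa2 (sa1 (sa0 R3))))) :=
  Ref.s31 (by decide +kernel) j288 r296

theorem j290 : Ref (sa2 (sb2 (sb0 (sa1 R0)))) (sb2 (sb1 (sb0 R1))) (sa1 (sa1 (sa0 (sb2 R2)))) (sa0 (sa2 (sa2 (sa1 (sa0 R3))))) :=
  Ref.s22 (by decide +kernel) j289 r297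

theorem j291 : Ref (sb1 (sb2 (sb2 (sb0 (sa1 R0))))) (sb2 (sb1 (sb0 R1))) (sa2 (sa1 (sa1 (sa0 (sb2 R2))))) (sa0 (sa2 (sa2 (sa1 (sa0 R3))))) :=
  Ref.s31 (by decide +kernel) r299 r300

theorem j292 : Ref (sb2 (sb2 (sb0 (sa1 R0)))) (sb2 (sb1 (sb0 R1))) (sa2 (sa1 (sa1 (sa0 (sb2 R2))))) (sa0 (sa2 (sa2 (sa1 (sa0 R3))))) :=
  Ref.s01 (by decide +kernel) r298 j291

theorem j293 : Ref (sb2 (sb2 (sb0 (sa1 R0)))) (sb2 (sb1 (sb0 R1))) (sa1 (sa1 (sa0 (sb2 R2)))) (sa0 (sa2 (sa2 (sa1 (sa0 R3))))) :=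
  Ref.s22 (by decide +kernel) j292 r301

theorem j294 : Ref (sb2 (sb0 (sa1 R0))) (sb2 (sb1 (sb0 R1))) (sa1 (sa1 (sa0 (sb2 R2)))) (sa0 (sa2 (sa2 (sa1 (sa0 R3))))) :=
  Ref.s02 (by decide +kernel) j290 j293

theorem j295 : Ref (sb2 (sb0 (sa1 R0))) (sb2 (sb1 (sb0 R1))) (sa1 (sa0 (sb2 R2))) (sa0 (sa2 (sa2 (sa1 (sa0 R3))))) :=
  Ref.s21 (by decide +kernel) j294 r302

theorem j296 : Ref (sb2 (sb0 (sa1 R0))) (sb2 (sb1 (sb0 R1))) (sa1 (sa0 (sb2 R2))) (sa2 (sa2 (sa1 (sa0 R3)))) :=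
  Ref.s30 (by decide +kernel) j295 r303

theorem j297 : Ref (sb2 (sb0 (sa1 R0))) (sa1 (sb2 (sb1 (sb0 R1)))) (sa1 (sa0 (sb2 R2))) (sb2 (sa2 (sa1 (sa0 R3)))) :=
  Ref.s02 (by decide +kernel) r304 r305

theorem j298 : Ref (sb2 (sb0 (sa1 R0))) (sb2 (sb1 (sb0 R1))) (sa1 (sa0 (sb2 R2))) (sb2 (sa2 (sa1 (sa0 R3)))) :=
  Ref.s11 (by decide +kernel) j297 r306

theorem j299 : Ref (sb2 (sb0 (sa1 R0))) (sb2 (sb1 (sb0 R1))) (sa1 (sa0 (sb2 R2))) (sa2 (sa1 (sa0 R3))) :=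
  Ref.s32 (by decide +kernel) j296 j298

theorem j300 : Ref (sb0 (sa1 R0)) (sb2 (sb1 (sb0 R1))) (sa1 (sa0 (sb2 R2))) (sa2 (sa1 (sa0 R3))) :=
  Ref.s02 (by decide +kernel) r292 j299

theorem j301 : Ref (sb0 (sa1 R0)) (sb2 (sb1 (sb0 R1))) (sa0 (sb2 R2)) (sa2 (sa1 (sa0 R3))) :=
  Ref.s21 (by decide +kernel) j300 r307

theorem j302 : Ref (sa1 R0) (sb2 (sb1 (sb0 R1))) (sa0 (sb2 R2)) (sa2 (sa1 (sa0 R3))) :=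
  Ref.s00 (by decide +kernel) j286 j301

theorem j303 : Ref (sa1 R0) (sb1 (sb0 R1)) (sa0 (sb2 R2)) (sa2 (sa1 (sa0 R3))) :=
  Ref.s12 (by decide +kernel) r251 j302

theorem j304 : Ref (sb0 (sa2 (sa1 (sa0 (sa1 R0))))) (sb1 (sa1 (sb2 (sa0 (sb2 (sb1 (sb0 R1))))))) (sa0 (sb1 (sb0 (sb2 R2)))) (sa1 (sa0 (sa2 (sa2 (sa1 (sa0 R3)))))) :=
  Ref.s02 (by decide +kernel) r313 r314

theorem j305 : Ref (sb0 (sa2 (sa1 (sa0 (sa1 R0))))) (sa1 (sb2 (sa0 (sb2 (sb1 (sb0 R1)))))) (sa0 (sb1 (sb0 (sb2 R2)))) (sa1 (sa0 (sa2 (sa2 (sa1 (sa0 R3)))))) :=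
  Ref.s11 (by decide +kernel) r312 j304

theorem j306 : Ref (sa2 (sa1 (sa0 (sa1 R0)))) (sa1 (sb2 (sa0 (sb2 (sb1 (sb0 R1)))))) (sa0 (sb1 (sb0 (sb2 R2)))) (sa1 (sa0 (sa2 (sa2 (sa1 (sa0 R3)))))) :=
  Ref.s00 (by decide +kernel) r311 j305

theorem j307 : Ref (sa2 (sa1 (sa0 (sa1 R0)))) (sa1 (sb2 (sa0 (sb2 (sb1 (sb0 R1)))))) (sa0 (sb1 (sb0 (sb2 R2)))) (sa0 (sa2 (sa2 (sa1 (sa0 R3))))) :=
  Ref.s31 (by decide +kernel) j306 r315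

theorem j308 : Ref (sa2 (sa1 (sa0 (sa1 R0)))) (sa1 (sb2 (sa0 (sb2 (sb1 (sb0 R1)))))) (sa0 (sb1 (sb0 (sb2 R2)))) (sa2 (sa2 (sa1 (sa0 R3)))) :=
  Ref.s30 (by decide +kernel) j307 r316

theorem j309 : Ref (sa0 (sa2 (sb0 (sa2 (sa1 (sa0 (sa1 R0))))))) (sa0 (sa1 (sb1 (sb2 (sa0 (sb2 (sb1 (sb0 R1)))))))) (sa1 (sa0 (sb1 (sb0 (sb2 R2))))) (sa1 (sa1 (sa0 (sa2 (sa2 (sa1 (sa0 R3))))))) :=
  Ref.s22 (by decide +kernel) r318 r319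

theorem j310 : Ref (sa0 (sa2 (sb0 (sa2 (sa1 (sa0 (sa1 R0))))))) (sa1 (sb1 (sb2 (sa0 (sb2 (sb1 (sb0 R1))))))) (sa1 (sa0 (sb1 (sb0 (sb2 R2))))) (sa1 (sa1 (sa0 (sa2 (sa2 (sa1 (sa0 R3))))))) :=
  Ref.s10 (by decide +kernel) j309 r320

theorem j311 : Ref (sa0 (sa2 (sb0 (sa2 (sa1 (sa0 (sa1 R0))))))) (sb1 (sb2 (sa0 (sb2 (sb1 (sb0 R1)))))) (sa1 (sa0 (sb1 (sb0 (sb2 R2))))) (sa1 (sa1 (sa0 (sa2 (sa2 (sa1 (sa0 R3))))))) :=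
  Ref.s11 (by decide +kernel) j310 r321

theorem j312 : Ref (sa0 (sa2 (sb0 (sa2 (sa1 (sa0 (sa1 R0))))))) (sb1 (sb2 (sa0 (sb2 (sb1 (sb0 R1)))))) (sa1 (sa0 (sb1 (sb0 (sb2 R2))))) (sa1 (sa0 (sa2 (sa2 (sa1 (sa0 R3)))))) :=
  Ref.s31 (by decide +kernel) j311 r322

theorem j313 : Ref (sa2 (sb0 (sa2 (sa1 (sa0 (sa1 R0)))))) (sb1 (sb2 (sa0 (sb2 (sb1 (sb0 R1)))))) (sa1 (sa0 (sb1 (sb0 (sb2 R2))))) (sa1 (sa0 (sa2 (sa2 (sa1 (sa0 R3)))))) :=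
  Ref.s00 (by decide +kernel) j312 r323

theorem j314 : Ref (sa2 (sb2 (sb0 (sa2 (sa1 (sa0 (sa1 R0))))))) (sa1 (sa0 (sb1 (sb2 (sa0 (sb2 (sb1 (sb0 R1)))))))) (sa1 (sa0 (sb1 (sb0 (sb2 R2))))) (sa1 (sa1 (sa0 (sa2 (sa2 (sa1 (sa0 R3))))))) :=
  Ref.s22 (by decide +kernel) r324 r325

theorem j315 : Ref (sa2 (sb2 (sb0 (sa2 (sa1 (sa0 (sa1 R0))))))) (sa1 (sa0 (sb1 (sb2 (sa0 (sb2 (sb1 (sb0 R1)))))))) (sa1 (sa0 (sb1 (sb0 (sb2 R2))))) (sa1 (sa0 (sa2 (sa2 (sa1 (sa0 R3)))))) :=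
  Ref.s31 (by decide +kernel) j314 r326

theorem j316 : Ref (sa2 (sb2 (sb0 (sa2 (sa1 (sa0 (sa1 R0))))))) (sa0 (sb1 (sb2 (sa0 (sb2 (sb1 (sb0 R1))))))) (sa1 (sa0 (sb1 (sb0 (sb2 R2))))) (sa1 (sa0 (sa2 (sa2 (sa1 (sa0 R3)))))) :=
  Ref.s11 (by decide +kernel) j315 r327

theorem j317 : Ref (sa2 (sb2 (sb0 (sa2 (sa1 (sa0 (sa1 R0))))))) (sb0 (sb1 (sb2 (sa0 (sb2 (sb1 (sb0 R1))))))) (sa0 (sb1 (sb2 (sa1 (sa0 (sb1 (sb0 (sb2 R2)))))))) (sa2 (sa1 (sa1 (sa0 (sa2 (sa2 (sa1 (sa0 R3)))))))) :=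
  Ref.s30 (by decide +kernel) r330 r331

theorem j318 : Ref (sa2 (sb2 (sb0 (sa2 (sa1 (sa0 (sa1 R0))))))) (sb0 (sb1 (sb2 (sa0 (sb2 (sb1 (sb0 R1))))))) (sa0 (sb1 (sb2 (sa1 (sa0 (sb1 (sb0 (sb2 R2)))))))) (sa1 (sa1 (sa0 (sa2 (sa2 (sa1 (sa0 R3))))))) :=
  Ref.s32 (by decide +kernel) j317 r332

theorem j319 : Ref (sa2 (sb2 (sb0 (sa2 (sa1 (sa0 (sa1 R0))))))) (sb0 (sb1 (sb2 (sa0 (sb2 (sb1 (sb0 R1))))))) (sb1 (sb2 (sa1 (sa0 (sb1 (sb0 (sb2 R2))))))) (sa1 (sa1 (sa0 (sa2 (sa2 (sa1 (sa0 R3))))))) :=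
  Ref.s20 (by decide +kernel) j318 r333

theorem j320 : Ref (sa2 (sb2 (sb0 (sa2 (sa1 (sa0 (sa1 R0))))))) (sb0 (sb1 (sb2 (sa0 (sb2 (sb1 (sb0 R1))))))) (sb2 (sa1 (sa0 (sb1 (sb0 (sb2 R2)))))) (sa1 (sa1 (sa0 (sa2 (sa2 (sa1 (sa0 R3))))))) :=
  Ref.s21 (by decide +kernel) r329 j319

theorem j321 : Ref (sa2 (sb2 (sb0 (sa2 (sa1 (sa0 (sa1 R0))))))) (sb0 (sb1 (sb2 (sa0 (sb2 (sb1 (sb0 R1))))))) (sa1 (sa0 (sb1 (sb0 (sb2 R2))))) (sa1 (sa1 (sa0 (sa2 (sa2 (sa1 (sa0 R3))))))) :=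
  Ref.s22 (by decide +kernel) r328 j320

theorem j322 : Ref (sa2 (sb2 (sb0 (sa2 (sa1 (sa0 (sa1 R0))))))) (sb0 (sb1 (sb2 (sa0 (sb2 (sb1 (sb0 R1))))))) (sa1 (sa0 (sb1 (sb0 (sb2 R2))))) (sa1 (sa0 (sa2 (sa2 (sa1 (sa0 R3)))))) :=
  Ref.s31 (by decide +kernel) j321 r334

theorem j323 : Ref (sa2 (sb2 (sb0 (sa2 (sa1 (sa0 (sa1 R0))))))) (sb1 (sb2 (sa0 (sb2 (sb1 (sb0 R1)))))) (sa1 (sa0 (sb1 (sb0 (sb2 R2))))) (sa1 (sa0 (sa2 (sa2 (sa1 (sa0 R3)))))) :=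
  Ref.s10 (by decide +kernel) j316 j322

theorem j324 : Ref (sb2 (sb0 (sa2 (sa1 (sa0 (sa1 R0)))))) (sb1 (sb2 (sa0 (sb2 (sb1 (sb0 R1)))))) (sa1 (sa0 (sb1 (sb0 (sb2 R2))))) (sa1 (sa0 (sa2 (sa2 (sa1 (sa0 R3)))))) :=
  Ref.s02 (by decide +kernel) j323 r335

theorem j325 : Ref (sb0 (sa2 (sa1 (sa0 (sa1 R0))))) (sb1 (sb2 (sa0 (sb2 (sb1 (sb0 R1)))))) (sa1 (sa0 (sb1 (sb0 (sb2 R2))))) (sa1 (sa0 (sa2 (sa2 (sa1 (sa0 R3)))))) :=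
  Ref.s02 (by decide +kernel) j313 j324

theorem j326 : Ref (sb0 (sa2 (sa1 (sa0 (sa1 R0))))) (sb1 (sb2 (sa0 (sb2 (sb1 (sb0 R1)))))) (sa0 (sb1 (sb0 (sb2 R2)))) (sa1 (sa0 (sa2 (sa2 (sa1 (sa0 R3)))))) :=
  Ref.s21 (by decide +kernel) j325 r336

theorem j327 : Ref (sa2 (sa1 (sa0 (sa1 R0)))) (sb1 (sb2 (sa0 (sb2 (sb1 (sb0 R1)))))) (sa0 (sb1 (sb0 (sb2 R2)))) (sa1 (sa0 (sa2 (sa2 (sa1 (sa0 R3)))))) :=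
  Ref.s00 (by decide +kernel) r317 j326

theorem j328 : Ref (sa2 (sa1 (sa0 (sa1 R0)))) (sb1 (sb2 (sa0 (sb2 (sb1 (sb0 R1)))))) (sa0 (sb1 (sb0 (sb2 R2)))) (sa0 (sa2 (sa2 (sa1 (sa0 R3))))) :=
  Ref.s31 (by decide +kernel) j327 r337

theorem j329 : Ref (sa2 (sa1 (sa0 (sa1 R0)))) (sb1 (sb2 (sa0 (sb2 (sb1 (sb0 R1)))))) (sa0 (sb1 (sb0 (sb2 R2)))) (sa2 (sa2 (sa1 (sa0 R3)))) :=
  Ref.s30 (by decide +kernel) j328 r338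

theorem j330 : Ref (sa2 (sa1 (sa0 (sa1 R0)))) (sb2 (sa0 (sb2 (sb1 (sb0 R1))))) (sa0 (sb1 (sb0 (sb2 R2)))) (sa2 (sa2 (sa1 (sa0 R3)))) :=
  Ref.s11 (by decide +kernel) j308 j329

theorem j331 : Ref (sa2 (sa1 (sa0 (sa1 R0)))) (sb2 (sa0 (sb2 (sb1 (sb0 R1))))) (sa0 (sb1 (sb0 (sb2 R2)))) (sb0 (sb2 (sa2 (sa1 (sa0 R3))))) :=
  Ref.s11 (by decide +kernel) r340 r341

theorem j332 : Ref (sa2 (sa1 (sa0 (sa1 R0)))) (sb2 (sa0 (sb2 (sb1 (sb0 R1))))) (sa0 (sb1 (sb0 (sb2 R2)))) (sb2 (sa2 (sa1 (sa0 R3)))) :=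
  Ref.s30 (by decide +kernel) r339 j331

theorem j333 : Ref (sa2 (sa1 (sa0 (sa1 R0)))) (sb2 (sa0 (sb2 (sb1 (sb0 R1))))) (sa0 (sb1 (sb0 (sb2 R2)))) (sa2 (sa1 (sa0 R3))) :=
  Ref.s32 (by decide +kernel) j330 j332

theorem j334 : Ref (sa2 (sa1 (sa0 (sa1 R0)))) (sa0 (sb2 (sb1 (sb0 R1)))) (sa0 (sb1 (sb0 (sb2 R2)))) (sa2 (sa1 (sa0 R3))) :=
  Ref.s12 (by decide +kernel) r310 j333

theorem j335 : Ref (sa2 (sa1 (sa0 (sa1 R0)))) (sb2 (sb1 (sb0 R1))) (sa0 (sb1 (sb0 (sb2 R2)))) (sa2 (sa1 (sa0 R3))) :=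
  Ref.s10 (by decide +kernel) j334 r342

theorem j336 : Ref (sa1 (sa0 (sa1 R0))) (sb2 (sb1 (sb0 R1))) (sa0 (sb1 (sb0 (sb2 R2)))) (sa2 (sa1 (sa0 R3))) :=
  Ref.s02 (by decide +kernel) j335 r343

theorem j337 : Ref (sa1 (sa0 (sa1 R0))) (sb2 (sb1 (sb0 R1))) (sb1 (sb0 (sb2 R2))) (sa2 (sa1 (sa0 R3))) :=
  Ref.s20 (by decide +kernel) j336 r344

theorem j338 : Ref (sb1 (sa0 (sa1 R0))) (sa0 (sb2 (sb1 (sb0 R1)))) (sb2 (sb1 (sb0 (sb2 R2)))) (sb2 (sa2 (sa1 (sa0 R3)))) :=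
  Ref.s30 (by decide +kernel) r347 r348

theorem j339 : Ref (sb1 (sa0 (sa1 R0))) (sa0 (sb2 (sb1 (sb0 R1)))) (sb2 (sb1 (sb0 (sb2 R2)))) (sa2 (sa1 (sa0 R3))) :=
  Ref.s32 (by decide +kernel) r346 j338

theorem j340 : Ref (sb1 (sa0 (sa1 R0))) (sb2 (sb1 (sb0 R1))) (sb2 (sb1 (sb0 (sb2 R2)))) (sa2 (sa1 (sa0 R3))) :=
  Ref.s10 (by decide +kernel) j339 r349

theorem j341 : Ref (sb1 (sa0 (sa1 R0))) (sb2 (sb1 (sb0 R1))) (sb1 (sb0 (sb2 R2))) (sa2 (sa1 (sa0 R3))) :=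
  Ref.s22 (by decide +kernel) r345 j340

theorem j342 : Ref (sa0 (sa1 R0)) (sb2 (sb1 (sb0 R1))) (sb1 (sb0 (sb2 R2))) (sa2 (sa1 (sa0 R3))) :=
  Ref.s01 (by decide +kernel) j337 j341

theorem j343 : Ref (sb1 (sb1 (sb2 (sb0 (sa1 R0))))) (sa1 (sb2 (sb1 (sb0 R1)))) (sa0 (sb1 (sb0 (sb2 R2)))) (sa1 (sa0 (sa2 (sa2 (sa1 (sa0 R3)))))) :=
  Ref.s21 (by decide +kernel) r353 r354

theorem j344 : Ref (sb1 (sb2 (sb0 (sa1 R0)))) (sa1 (sb2 (sb1 (sb0 R1)))) (sa0 (sb1 (sb0 (sb2 R2)))) (sa1 (sa0 (sa2 (sa2 (sa1 (sa0 R3)))))) :=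
  Ref.s01 (by decide +kernel) r352 j343

theorem j345 : Ref (sb1 (sb2 (sb0 (sa1 R0)))) (sa1 (sb2 (sb1 (sb0 R1)))) (sa0 (sb1 (sb0 (sb2 R2)))) (sa0 (sa2 (sa2 (sa1 (sa0 R3))))) :=
  Ref.s31 (by decide +kernel) j344 r355

theorem j346 : Ref (sb2 (sb0 (sa1 R0))) (sa1 (sb2 (sb1 (sb0 R1)))) (sa0 (sb1 (sb0 (sb2 R2)))) (sa0 (sa2 (sa2 (sa1 (sa0 R3))))) :=
  Ref.s01 (by decide +kernel) r351 j345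

theorem j347 : Ref (sb2 (sb0 (sa1 R0))) (sa1 (sb2 (sb1 (sb0 R1)))) (sa0 (sb1 (sb0 (sb2 R2)))) (sa2 (sa2 (sa1 (sa0 R3)))) :=
  Ref.s30 (by decide +kernel) j346 r356

theorem j348 : Ref (sb2 (sb0 (sa1 R0))) (sb2 (sb1 (sb0 R1))) (sa0 (sb1 (sb0 (sb2 R2)))) (sa2 (sa2 (sa1 (sa0 R3)))) :=
  Ref.s11 (by decide +kernel) j347 r357

theorem j349 : Ref (sb1 (sb1 (sb2 (sb0 (sa1 R0))))) (sb2 (sa1 (sb2 (sb1 (sb0 R1))))) (sa1 (sa0 (sb1 (sb0 (sb2 R2))))) (sb0 (sb2 (sa2 (sa1 (sa0 R3))))) :=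
  Ref.s11 (by decide +kernel) r362 r363

theorem j350 : Ref (sb1 (sb1 (sb2 (sb0 (sa1 R0))))) (sa1 (sb2 (sb1 (sb0 R1)))) (sa1 (sa0 (sb1 (sb0 (sb2 R2))))) (sb0 (sb2 (sa2 (sa1 (sa0 R3))))) :=
  Ref.s12 (by decide +kernel) r361 j349

theorem j351 : Ref (sb1 (sb1 (sb2 (sb0 (sa1 R0))))) (sa1 (sb2 (sb1 (sb0 R1)))) (sa0 (sb1 (sb0 (sb2 R2)))) (sb0 (sb2 (sa2 (sa1 (sa0 R3))))) :=
  Ref.s21 (by decide +kernel) j350 r364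

theorem j352 : Ref (sb1 (sb2 (sb0 (sa1 R0)))) (sa1 (sb2 (sb1 (sb0 R1)))) (sa0 (sb1 (sb0 (sb2 R2)))) (sb0 (sb2 (sa2 (sa1 (sa0 R3))))) :=
  Ref.s01 (by decide +kernel) r360 j351

theorem j353 : Ref (sb1 (sb2 (sb0 (sa1 R0)))) (sa1 (sb2 (sb1 (sb0 R1)))) (sa0 (sb1 (sb0 (sb2 R2)))) (sb2 (sa2 (sa1 (sa0 R3)))) :=
  Ref.s30 (by decide +kernel) r359 j352

theorem j354 : Ref (sb2 (sb0 (sa1 R0))) (sa1 (sb2 (sb1 (sb0 R1)))) (sa0 (sb1 (sb0 (sb2 R2)))) (sb2 (sa2 (sa1 (sa0 R3)))) :=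
  Ref.s01 (by decide +kernel) r358 j353

theorem j355 : Ref (sb2 (sb0 (sa1 R0))) (sb2 (sb1 (sb0 R1))) (sa0 (sb1 (sb0 (sb2 R2)))) (sb2 (sa2 (sa1 (sa0 R3)))) :=
  Ref.s11 (by decide +kernel) j354 r365

theorem j356 : Ref (sb2 (sb0 (sa1 R0))) (sb2 (sb1 (sb0 R1))) (sa0 (sb1 (sb0 (sb2 R2)))) (sa2 (sa1 (sa0 R3))) :=
  Ref.s32 (by decide +kernel) j348 j355

theorem j357 : Ref (sb2 (sb0 (sa1 R0))) (sb2 (sb1 (sb0 R1))) (sb1 (sb0 (sb2 R2))) (sa2 (sa1 (sa0 R3))) :=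
  Ref.s20 (by decide +kernel) j356 r366

theorem j358 : Ref (sb0 (sa1 R0)) (sb2 (sb1 (sb0 R1))) (sb1 (sb0 (sb2 R2))) (sa2 (sa1 (sa0 R3))) :=
  Ref.s02 (by decide +kernel) r350 j357

theorem j359 : Ref (sa1 R0) (sb2 (sb1 (sb0 R1))) (sb1 (sb0 (sb2 R2))) (sa2 (sa1 (sa0 R3))) :=
  Ref.s00 (by decide +kernel) j342 j358

theorem j360 : Ref (sa1 R0) (sb2 (sb1 (sb0 R1))) (sb0 (sb2 R2)) (sa2 (sa1 (sa0 R3))) :=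
  Ref.s21 (by decide +kernel) r309 j359

theorem j361 : Ref (sa1 R0) (sb1 (sb0 R1)) (sb0 (sb2 R2)) (sa2 (sa1 (sa0 R3))) :=
  Ref.s12 (by decide +kernel) r308 j360

theorem j362 : Ref (sa1 R0) (sb1 (sb0 R1)) (sb2 R2) (sa2 (sa1 (sa0 R3))) :=
  Ref.s20 (by decide +kernel) j303 j361

theorem j363 : Ref (sa1 R0) (sb1 (sb0 R1)) R2 (sa2 (sa1 (sa0 R3))) :=
  Ref.s22 (by decide +kernel) j247 j362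

theorem j364 : Ref (sa1 R0) (sb0 R1) R2 (sa2 (sa1 (sa0 R3))) :=
  Ref.s11 (by decide +kernel) j244 j363

theorem j365 : Ref (sa1 R0) R1 R2 (sa2 (sa1 (sa0 R3))) :=
  Ref.s10 (by decide +kernel) j229 j364

theorem j366 : Ref (sa2 (sa1 R0)) (sa1 R1) (sa1 R2) (sb2 (sa1 (sa0 R3))) :=
  Ref.s00 (by decide +kernel) r367 r368

theorem j367 : Ref (sa0 (sa2 (sa1 R0))) (sb2 (sb1 R1)) (sa0 (sa2 (sa0 (sa1 R2)))) (sb2 (sa1 (sa0 R3))) :=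
  Ref.s31 (by decide +kernel) r370 r371

theorem j368 : Ref (sa0 (sa2 (sa1 R0))) (sb2 (sb1 R1)) (sa2 (sa0 (sa1 R2))) (sb2 (sa1 (sa0 R3))) :=
  Ref.s20 (by decide +kernel) j367 r372

theorem j369 : Ref (sa0 (sa2 (sa1 R0))) (sb1 R1) (sa2 (sa0 (sa1 R2))) (sb2 (sa1 (sa0 R3))) :=
  Ref.s12 (by decide +kernel) r369 j368

theorem j370 : Ref (sa0 (sa2 (sa1 R0))) (sb1 R1) (sa0 (sa1 R2)) (sb2 (sa1 (sa0 R3))) :=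
  Ref.s22 (by decide +kernel) j369 r373

theorem j371 : Ref (sa0 (sa2 (sa1 R0))) (sb1 R1) (sa1 R2) (sb2 (sa1 (sa0 R3))) :=
  Ref.s20 (by decide +kernel) j370 r374

theorem j372 : Ref (sa2 (sa1 R0)) (sb1 R1) (sa1 R2) (sb2 (sa1 (sa0 R3))) :=
  Ref.s00 (by decide +kernel) j371 r375

theorem j373 : Ref (sa2 (sa1 R0)) R1 (sa1 R2) (sb2 (sa1 (sa0 R3))) :=
  Ref.s11 (by decide +kernel) j366 j372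

theorem j374 : Ref (sb2 (sa1 R0)) R1 (sa2 (sa0 (sa1 R2))) (sb2 (sa1 (sa0 R3))) :=
  Ref.s12 (by decide +kernel) r376 r377

theorem j375 : Ref (sb2 (sa1 R0)) R1 (sa0 (sa1 R2)) (sb2 (sa1 (sa0 R3))) :=
  Ref.s22 (by decide +kernel) j374 r378

theorem j376 : Ref (sb2 (sa1 R0)) R1 (sa1 R2) (sb2 (sa1 (sa0 R3))) :=
  Ref.s20 (by decide +kernel) j375 r379

theorem j377 : Ref (sa1 R0) R1 (sa1 R2) (sb2 (sa1 (sa0 R3))) :=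
  Ref.s02 (by decide +kernel) j373 j376

theorem j378 : Ref (sa1 (sa0 (sa2 (sa1 R0)))) (sa1 (sa2 R1)) (sb2 (sb0 (sb2 (sb1 R2)))) (sb2 (sa1 (sa0 R3))) :=
  Ref.s31 (by decide +kernel) r383 r384

theorem j379 : Ref (sa0 (sa2 (sa1 R0))) (sa1 (sa2 R1)) (sb2 (sb0 (sb2 (sb1 R2)))) (sb2 (sa1 (sa0 R3))) :=
  Ref.s01 (by decide +kernel) j378 r385

theorem j380 : Ref (sa0 (sa2 (sa1 R0))) (sa1 (sa2 R1)) (sb0 (sb2 (sb1 R2))) (sb2 (sa1 (sa0 R3))) :=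
  Ref.s22 (by decide +kernel) r382 j379

theorem j381 : Ref (sa0 (sa2 (sa1 R0))) (sa2 R1) (sb0 (sb2 (sb1 R2))) (sb2 (sa1 (sa0 R3))) :=
  Ref.s11 (by decide +kernel) j380 r386

theorem j382 : Ref (sa0 (sa2 (sa1 R0))) (sa2 R1) (sb2 (sb1 R2)) (sb2 (sa1 (sa0 R3))) :=
  Ref.s20 (by decide +kernel) r381 j381

theorem j383 : Ref (sa0 (sa2 (sa1 R0))) (sb0 (sb2 R1)) (sb2 (sa1 (sb2 (sb1 R2)))) (sb2 (sa1 (sa0 R3))) :=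
  Ref.s31 (by decide +kernel) r389 r390

theorem j384 : Ref (sa0 (sa2 (sa1 R0))) (sb0 (sb2 R1)) (sa1 (sb2 (sb1 R2))) (sb2 (sa1 (sa0 R3))) :=
  Ref.s22 (by decide +kernel) r388 j383

theorem j385 : Ref (sa0 (sa2 (sa1 R0))) (sb0 (sb2 R1)) (sb2 (sb1 R2)) (sb2 (sa1 (sa0 R3))) :=
  Ref.s21 (by decide +kernel) j384 r391

theorem j386 : Ref (sa0 (sa2 (sa1 R0))) (sb2 R1) (sb2 (sb1 R2)) (sb2 (sa1 (sa0 R3))) :=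
  Ref.s10 (by decide +kernel) r387 j385

theorem j387 : Ref (sa0 (sa2 (sa1 R0))) R1 (sb2 (sb1 R2)) (sb2 (sa1 (sa0 R3))) :=
  Ref.s12 (by decide +kernel) j382 j386

theorem j388 : Ref (sa0 (sa2 (sa1 R0))) R1 (sb1 R2) (sb2 (sa1 (sa0 R3))) :=
  Ref.s22 (by decide +kernel) r380 j387

theorem j389 : Ref (sa2 (sa1 R0)) R1 (sb1 R2) (sb2 (sa1 (sa0 R3))) :=
  Ref.s00 (by decide +kernel) j388 r392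

theorem j390 : Ref (sa2 (sb2 (sa1 R0))) (sa1 (sa2 R1)) (sb0 (sb2 (sb1 R2))) (sb1 (sb2 (sa1 (sa0 R3)))) :=
  Ref.s00 (by decide +kernel) r396 r397

theorem j391 : Ref (sa2 (sb2 (sa1 R0))) (sa1 (sa2 R1)) (sb0 (sb2 (sb1 R2))) (sb2 (sa1 (sa0 R3))) :=
  Ref.s31 (by decide +kernel) r395 j390

theorem j392 : Ref (sb2 (sa1 R0)) (sa1 (sa2 R1)) (sb0 (sb2 (sb1 R2))) (sb2 (sa1 (sa0 R3))) :=
  Ref.s02 (by decide +kernel) j391 r398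

theorem j393 : Ref (sb2 (sa1 R0)) (sa2 R1) (sb0 (sb2 (sb1 R2))) (sb2 (sa1 (sa0 R3))) :=
  Ref.s11 (by decide +kernel) j392 r399

theorem j394 : Ref (sb2 (sa1 R0)) (sa2 R1) (sb2 (sb1 R2)) (sb2 (sa1 (sa0 R3))) :=
  Ref.s20 (by decide +kernel) r394 j393

theorem j395 : Ref (sb2 (sa1 R0)) (sa2 R1) (sb1 R2) (sb2 (sa1 (sa0 R3))) :=
  Ref.s22 (by decide +kernel) r393 j394

theorem j396 : Ref (sb2 (sa1 R0)) (sb2 R1) (sb1 R2) (sb2 (sa1 (sa0 R3))) :=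
  Ref.s11 (by decide +kernel) r400 r401

theorem j397 : Ref (sb2 (sa1 R0)) R1 (sb1 R2) (sb2 (sa1 (sa0 R3))) :=
  Ref.s12 (by decide +kernel) j395 j396

theorem j398 : Ref (sa1 R0) R1 (sb1 R2) (sb2 (sa1 (sa0 R3))) :=
  Ref.s02 (by decide +kernel) j389 j397

theorem j399 : Ref (sa1 R0) R1 R2 (sb2 (sa1 (sa0 R3))) :=
  Ref.s21 (by decide +kernel) j377 j398

theorem j400 : Ref (sa1 R0) R1 R2 (sa1 (sa0 R3)) :=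
  Ref.s32 (by decide +kernel) j365 j399

theorem j401 : Ref (sa1 R0) (sa2 (sa1 (sa0 R1))) (sa1 (sa0 (sb2 R2))) (sb1 (sa0 R3)) :=
  Ref.s02 (by decide +kernel) r403 r404

theorem j402 : Ref (sa1 R0) (sa2 (sa1 (sa0 R1))) (sa0 (sb2 R2)) (sb1 (sa0 R3)) :=
  Ref.s21 (by decide +kernel) j401 r405

theorem j403 : Ref (sa1 R0) (sa2 (sa1 (sa0 R1))) (sb2 R2) (sb1 (sa0 R3)) :=
  Ref.s20 (by decide +kernel) j402 r406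

theorem j404 : Ref (sa1 R0) (sa2 (sa1 (sa0 R1))) R2 (sb1 (sa0 R3)) :=
  Ref.s22 (by decide +kernel) r402 j403

theorem j405 : Ref (sa1 R0) (sa1 (sa0 R1)) R2 (sb1 (sa0 R3)) :=
  Ref.s12 (by decide +kernel) j404 r407

theorem j406 : Ref (sa1 R0) (sa0 R1) R2 (sb1 (sa0 R3)) :=
  Ref.s11 (by decide +kernel) j405 r408

theorem j407 : Ref (sa0 (sa1 R0)) (sb2 (sb1 (sb0 R1))) (sb2 R2) (sb1 (sa0 R3)) :=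
  Ref.s21 (by decide +kernel) r412 r413

theorem j408 : Ref (sa1 R0) (sb2 (sb1 (sb0 R1))) (sb2 R2) (sb1 (sa0 R3)) :=
  Ref.s00 (by decide +kernel) j407 r414

theorem j409 : Ref (sa1 R0) (sb1 (sb0 R1)) (sb2 R2) (sb1 (sa0 R3)) :=
  Ref.s12 (by decide +kernel) r411 j408

theorem j410 : Ref (sa1 R0) (sb1 (sb0 R1)) R2 (sb1 (sa0 R3)) :=
  Ref.s22 (by decide +kernel) r410 j409

theorem j411 : Ref (sa1 R0) (sb0 R1) R2 (sb1 (sa0 R3)) :=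
  Ref.s11 (by decide +kernel) r409 j410

theorem j412 : Ref (sa1 R0) R1 R2 (sb1 (sa0 R3)) :=
  Ref.s10 (by decide +kernel) j406 j411

theorem j413 : Ref (sa1 R0) R1 R2 (sa0 R3) :=
  Ref.s31 (by decide +kernel) j400 j412

theorem j414 : Ref (sb2 (sb0 (sb1 R0))) (sa2 (sa0 R1)) (sb1 (sa0 (sa1 R2))) (sa1 (sa2 (sa0 R3))) :=
  Ref.s02 (by decide +kernel) r418 r419

theorem j415 : Ref (sb2 (sb0 (sb1 R0))) (sa2 (sa0 R1)) (sa0 (sa1 R2)) (sa1 (sa2 (sa0 R3))) :=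
  Ref.s21 (by decide +kernel) r417 j414

theorem j416 : Ref (sb0 (sb1 R0)) (sa2 (sa0 R1)) (sa0 (sa1 R2)) (sa1 (sa2 (sa0 R3))) :=
  Ref.s02 (by decide +kernel) r416 j415

theorem j417 : Ref (sb1 R0) (sa2 (sa0 R1)) (sa0 (sa1 R2)) (sa1 (sa2 (sa0 R3))) :=
  Ref.s00 (by decide +kernel) r415 j416

theorem j418 : Ref (sb1 R0) (sa2 (sa0 R1)) (sa0 (sa1 R2)) (sa2 (sa0 R3)) :=
  Ref.s31 (by decide +kernel) j417 r420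

theorem j419 : Ref (sb1 R0) (sa0 R1) (sa0 (sa1 R2)) (sa2 (sa0 R3)) :=
  Ref.s12 (by decide +kernel) j418 r421

theorem j420 : Ref (sb1 R0) (sa0 R1) (sa1 R2) (sa2 (sa0 R3)) :=
  Ref.s20 (by decide +kernel) j419 r422

theorem j421 : Ref (sb2 (sb0 (sb1 R0))) (sa2 (sa0 R1)) (sb0 (sb2 (sb1 R2))) (sa1 (sa2 (sa0 R3))) :=
  Ref.s10 (by decide +kernel) r427 r428

theorem j422 : Ref (sb0 (sb1 R0)) (sa2 (sa0 R1)) (sb0 (sb2 (sb1 R2))) (sa1 (sa2 (sa0 R3))) :=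
  Ref.s02 (by decide +kernel) r426 j421

theorem j423 : Ref (sb1 R0) (sa2 (sa0 R1)) (sb0 (sb2 (sb1 R2))) (sa1 (sa2 (sa0 R3))) :=
  Ref.s00 (by decide +kernel) r425 j422

theorem j424 : Ref (sb1 R0) (sa2 (sa0 R1)) (sb2 (sb1 R2)) (sa1 (sa2 (sa0 R3))) :=
  Ref.s20 (by decide +kernel) r424 j423

theorem j425 : Ref (sb1 R0) (sa0 R1) (sb2 (sb1 R2)) (sa1 (sa2 (sa0 R3))) :=
  Ref.s12 (by decide +kernel) j424 r429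

theorem j426 : Ref (sb1 R0) (sa0 R1) (sb1 R2) (sa1 (sa2 (sa0 R3))) :=
  Ref.s22 (by decide +kernel) r423 j425

theorem j427 : Ref (sb1 R0) (sa0 R1) (sb1 R2) (sa2 (sa0 R3)) :=
  Ref.s31 (by decide +kernel) j426 r430

theorem j428 : Ref (sb1 R0) (sa0 R1) R2 (sa2 (sa0 R3)) :=
  Ref.s21 (by decide +kernel) j420 j427

theorem j429 : Ref (sb1 R0) (sb1 (sb2 (sb0 R1))) (sa0 (sb2 R2)) (sa1 (sa2 (sa0 R3))) :=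
  Ref.s21 (by decide +kernel) r434 r435

theorem j430 : Ref (sb1 R0) (sb1 (sb2 (sb0 R1))) (sb0 (sb2 R2)) (sa1 (sa2 (sa0 R3))) :=
  Ref.s02 (by decide +kernel) r436 r437

theorem j431 : Ref (sb1 R0) (sb1 (sb2 (sb0 R1))) (sb2 R2) (sa1 (sa2 (sa0 R3))) :=
  Ref.s20 (by decide +kernel) j429 j430

theorem j432 : Ref (sb1 R0) (sb1 (sb2 (sb0 R1))) R2 (sa1 (sa2 (sa0 R3))) :=
  Ref.s22 (by decide +kernel) r433 j431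

theorem j433 : Ref (sb1 R0) (sb2 (sb0 R1)) R2 (sa1 (sa2 (sa0 R3))) :=
  Ref.s11 (by decide +kernel) r432 j432

theorem j434 : Ref (sb1 R0) (sb0 R1) R2 (sa1 (sa2 (sa0 R3))) :=
  Ref.s12 (by decide +kernel) r431 j433

theorem j435 : Ref (sb1 R0) (sb0 R1) R2 (sa2 (sa0 R3)) :=
  Ref.s31 (by decide +kernel) j434 r438

theorem j436 : Ref (sb1 R0) R1 R2 (sa2 (sa0 R3)) :=
  Ref.s10 (by decide +kernel) j428 j435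

theorem j437 : Ref (sb2 (sb0 (sb1 R0))) (sb1 R1) (sa2 (sa0 (sa1 R2))) (sa1 (sb2 (sa0 R3))) :=
  Ref.s10 (by decide +kernel) r442 r443

theorem j438 : Ref (sb2 (sb0 (sb1 R0))) (sb1 R1) (sa0 (sa1 R2)) (sa1 (sb2 (sa0 R3))) :=
  Ref.s22 (by decide +kernel) j437 r444

theorem j439 : Ref (sb0 (sb1 R0)) (sb1 R1) (sa0 (sa1 R2)) (sa1 (sb2 (sa0 R3))) :=
  Ref.s02 (by decide +kernel) r441 j438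

theorem j440 : Ref (sb0 (sb1 R0)) (sb1 R1) (sa1 R2) (sa1 (sb2 (sa0 R3))) :=
  Ref.s20 (by decide +kernel) j439 r445

theorem j441 : Ref (sb0 (sb1 R0)) R1 (sa1 R2) (sa1 (sb2 (sa0 R3))) :=
  Ref.s11 (by decide +kernel) r440 j440

theorem j442 : Ref (sb1 R0) R1 (sa1 R2) (sa1 (sb2 (sa0 R3))) :=
  Ref.s00 (by decide +kernel) r439 j441

theorem j443 : Ref (sb0 (sb2 (sb1 R0))) (sb2 (sb0 (sb1 R1))) (sb0 (sb2 (sb1 R2))) (sa1 (sb2 (sa0 R3))) :=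
  Ref.s11 (by decide +kernel) r453 r454

theorem j444 : Ref (sb0 (sb2 (sb1 R0))) (sb0 (sb1 R1)) (sb0 (sb2 (sb1 R2))) (sa1 (sb2 (sa0 R3))) :=
  Ref.s12 (by decide +kernel) r452 j443

theorem j445 : Ref (sb0 (sb2 (sb1 R0))) (sb1 R1) (sb0 (sb2 (sb1 R2))) (sa1 (sb2 (sa0 R3))) :=
  Ref.s10 (by decide +kernel) r451 j444

theorem j446 : Ref (sb0 (sb2 (sb1 R0))) (sb1 R1) (sb2 (sb1 R2)) (sa1 (sb2 (sa0 R3))) :=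
  Ref.s20 (by decide +kernel) r450 j445

theorem j447 : Ref (sb2 (sb1 R0)) (sb1 R1) (sb2 (sb1 R2)) (sa1 (sb2 (sa0 R3))) :=
  Ref.s00 (by decide +kernel) r449 j446

theorem j448 : Ref (sb1 R0) (sb1 R1) (sb2 (sb1 R2)) (sa1 (sb2 (sa0 R3))) :=
  Ref.s02 (by decide +kernel) r448 j447

theorem j449 : Ref (sb1 R0) R1 (sb2 (sb1 R2)) (sa1 (sb2 (sa0 R3))) :=
  Ref.s11 (by decide +kernel) r447 j448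

theorem j450 : Ref (sb1 R0) R1 (sb1 R2) (sa1 (sb2 (sa0 R3))) :=
  Ref.s22 (by decide +kernel) r446 j449

theorem j451 : Ref (sb1 R0) R1 R2 (sa1 (sb2 (sa0 R3))) :=
  Ref.s21 (by decide +kernel) j442 j450

theorem j452 : Ref (sb2 (sb1 R0)) R1 (sa0 (sa2 (sa1 R2))) (sb0 (sb1 (sb2 (sa0 R3)))) :=
  Ref.s10 (by decide +kernel) r457 r458

theorem j453 : Ref (sb2 (sb1 R0)) R1 (sa2 (sa1 R2)) (sb0 (sb1 (sb2 (sa0 R3)))) :=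
  Ref.s20 (by decide +kernel) j452 r459

theorem j454 : Ref (sb1 R0) R1 (sa2 (sa1 R2)) (sb0 (sb1 (sb2 (sa0 R3)))) :=
  Ref.s02 (by decide +kernel) r456 j453

theorem j455 : Ref (sb1 R0) R1 (sb2 (sa1 R2)) (sb0 (sb1 (sb2 (sa0 R3)))) :=
  Ref.s10 (by decide +kernel) r460 r461

theorem j456 : Ref (sb1 R0) R1 (sa1 R2) (sb0 (sb1 (sb2 (sa0 R3)))) :=
  Ref.s22 (by decide +kernel) j454 j455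

theorem j457 : Ref (sb1 R0) R1 (sa1 R2) (sb1 (sb2 (sa0 R3))) :=
  Ref.s30 (by decide +kernel) r455 j456

theorem j458 : Ref (sb1 R0) R1 (sb1 R2) (sb1 (sb2 (sa0 R3))) :=
  Ref.s10 (by decide +kernel) r462 r463

theorem j459 : Ref (sb1 R0) R1 R2 (sb1 (sb2 (sa0 R3))) :=
  Ref.s21 (by decide +kernel) j457 j458

theorem j460 : Ref (sb1 R0) R1 R2 (sb2 (sa0 R3)) :=
  Ref.s31 (by decide +kernel) j451 j459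

theorem j461 : Ref (sb1 R0) R1 R2 (sa0 R3) :=
  Ref.s32 (by decide +kernel) j436 j460

theorem j462 : Ref R0 R1 R2 (sa0 R3) :=
  Ref.s01 (by decide +kernel) j413 j461

theorem j463 : Ref (sa2 (sa0 (sa1 R0))) (sa2 (sa0 (sa1 R1))) (sa1 (sa1 (sa0 (sb2 R2)))) (sa0 (sa2 (sa1 (sb0 R3)))) :=
  Ref.s10 (by decide +kernel) r465 r466

theorem j464 : Ref (sa2 (sa2 (sa0 (sa1 R0)))) (sa2 (sa0 (sa1 R1))) (sb1 (sa1 (sa0 (sb2 R2)))) (sa0 (sa2 (sa1 (sb0 R3)))) :=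
  Ref.s01 (by decide +kernel) r467 r468

theorem j465 : Ref (sa2 (sa0 (sa1 R0))) (sa2 (sa0 (sa1 R1))) (sb1 (sa1 (sa0 (sb2 R2)))) (sa0 (sa2 (sa1 (sb0 R3)))) :=
  Ref.s02 (by decide +kernel) j464 r469

theorem j466 : Ref (sa2 (sa0 (sa1 R0))) (sa2 (sa0 (sa1 R1))) (sa1 (sa0 (sb2 R2))) (sa0 (sa2 (sa1 (sb0 R3)))) :=
  Ref.s21 (by decide +kernel) j463 j465

theorem j467 : Ref (sa2 (sa0 (sa1 R0))) (sa2 (sa0 (sa1 R1))) (sa0 (sb2 R2)) (sa0 (sa2 (sa1 (sb0 R3)))) :=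
  Ref.s21 (by decide +kernel) j466 r470

theorem j468 : Ref (sa0 (sa1 R0)) (sa2 (sa0 (sa1 R1))) (sa0 (sb2 R2)) (sa0 (sa2 (sa1 (sb0 R3)))) :=
  Ref.s02 (by decide +kernel) j467 r471

theorem j469 : Ref (sb1 (sb2 (sb0 (sa1 R0)))) (sa2 (sa0 (sa1 R1))) (sa1 (sa0 (sb2 R2))) (sa0 (sa2 (sa1 (sb0 R3)))) :=
  Ref.s10 (by decide +kernel) r474 r475

theorem j470 : Ref (sb1 (sb2 (sb0 (sa1 R0)))) (sa2 (sa0 (sa1 R1))) (sa0 (sb2 R2)) (sa0 (sa2 (sa1 (sb0 R3)))) :=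
  Ref.s21 (by decide +kernel) j469 r476

theorem j471 : Ref (sb2 (sb0 (sa1 R0))) (sa2 (sa0 (sa1 R1))) (sa0 (sb2 R2)) (sa0 (sa2 (sa1 (sb0 R3)))) :=
  Ref.s01 (by decide +kernel) r473 j470

theorem j472 : Ref (sb0 (sa1 R0)) (sa2 (sa0 (sa1 R1))) (sa0 (sb2 R2)) (sa0 (sa2 (sa1 (sb0 R3)))) :=
  Ref.s02 (by decide +kernel) r472 j471

theorem j473 : Ref (sa1 R0) (sa2 (sa0 (sa1 R1))) (sa0 (sb2 R2)) (sa0 (sa2 (sa1 (sb0 R3)))) :=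
  Ref.s00 (by decide +kernel) j468 j472

theorem j474 : Ref (sb1 (sa0 (sa1 R0))) (sa2 (sa0 (sa1 R1))) (sa0 (sb1 (sb0 (sb2 R2)))) (sa0 (sa2 (sa1 (sb0 R3)))) :=
  Ref.s00 (by decide +kernel) r479 r480

theorem j475 : Ref (sa0 (sa1 R0)) (sa2 (sa0 (sa1 R1))) (sa0 (sb1 (sb0 (sb2 R2)))) (sa0 (sa2 (sa1 (sb0 R3)))) :=
  Ref.s01 (by decide +kernel) r478 j474

theorem j476 : Ref (sa0 (sa1 R0)) (sa2 (sa0 (sa1 R1))) (sb1 (sb0 (sb2 R2))) (sa0 (sa2 (sa1 (sb0 R3)))) :=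
  Ref.s20 (by decide +kernel) j475 r481

theorem j477 : Ref (sb2 (sb0 (sa1 R0))) (sa2 (sa0 (sa1 R1))) (sb1 (sb0 (sb2 R2))) (sa0 (sa2 (sa1 (sb0 R3)))) :=
  Ref.s10 (by decide +kernel) r483 r484

theorem j478 : Ref (sb0 (sa1 R0)) (sa2 (sa0 (sa1 R1))) (sb1 (sb0 (sb2 R2))) (sa0 (sa2 (sa1 (sb0 R3)))) :=
  Ref.s02 (by decide +kernel) r482 j477

theorem j479 : Ref (sa1 R0) (sa2 (sa0 (sa1 R1))) (sb1 (sb0 (sb2 R2))) (sa0 (sa2 (sa1 (sb0 R3)))) :=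
  Ref.s00 (by decide +kernel) j476 j478

theorem j480 : Ref (sa1 R0) (sa2 (sa0 (sa1 R1))) (sb0 (sb2 R2)) (sa0 (sa2 (sa1 (sb0 R3)))) :=
  Ref.s21 (by decide +kernel) r477 j479

theorem j481 : Ref (sa1 R0) (sa2 (sa0 (sa1 R1))) (sb2 R2) (sa0 (sa2 (sa1 (sb0 R3)))) :=
  Ref.s20 (by decide +kernel) j473 j480

theorem j482 : Ref (sa1 R0) (sa0 (sa1 R1)) (sb2 R2) (sa0 (sa2 (sa1 (sb0 R3)))) :=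
  Ref.s12 (by decide +kernel) j481 r485

theorem j483 : Ref (sa1 R0) (sa0 (sa1 R1)) R2 (sa0 (sa2 (sa1 (sb0 R3)))) :=
  Ref.s22 (by decide +kernel) r464 j482

theorem j484 : Ref (sa1 R0) (sb0 (sa1 R1)) (sb2 R2) (sa0 (sa2 (sa1 (sb0 R3)))) :=
  Ref.s12 (by decide +kernel) r487 r488

theorem j485 : Ref (sa1 R0) (sb0 (sa1 R1)) R2 (sa0 (sa2 (sa1 (sb0 R3)))) :=
  Ref.s22 (by decide +kernel) r486 j484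

theorem j486 : Ref (sa1 R0) (sa1 R1) R2 (sa0 (sa2 (sa1 (sb0 R3)))) :=
  Ref.s10 (by decide +kernel) j483 j485

theorem j487 : Ref (sa2 (sa0 (sa1 R0))) (sa0 (sb1 R1)) (sa0 (sb2 R2)) (sa0 (sa2 (sa1 (sb0 R3)))) :=
  Ref.s21 (by decide +kernel) r490 r491

theorem j488 : Ref (sa2 (sa0 (sa1 R0))) (sa0 (sb1 R1)) (sb2 R2) (sa0 (sa2 (sa1 (sb0 R3)))) :=
  Ref.s20 (by decide +kernel) j487 r492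

theorem j489 : Ref (sa0 (sa1 R0)) (sa0 (sb1 R1)) (sb2 R2) (sa0 (sa2 (sa1 (sb0 R3)))) :=
  Ref.s02 (by decide +kernel) j488 r493

theorem j490 : Ref (sb0 (sa1 R0)) (sa0 (sb1 R1)) (sb2 R2) (sa0 (sa2 (sa1 (sb0 R3)))) :=
  Ref.s20 (by decide +kernel) r494 r495

theorem j491 : Ref (sa1 R0) (sa0 (sb1 R1)) (sb2 R2) (sa0 (sa2 (sa1 (sb0 R3)))) :=
  Ref.s00 (by decide +kernel) j489 j490

theorem j492 : Ref (sa1 R0) (sa0 (sb1 R1)) R2 (sa0 (sa2 (sa1 (sb0 R3)))) :=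
  Ref.s22 (by decide +kernel) r489 j491

theorem j493 : Ref (sa0 (sa1 R0)) (sa2 (sa1 (sb2 (sb0 (sb1 R1))))) (sb2 (sa1 (sa2 (sa0 R2)))) (sa0 (sa2 (sa1 (sb0 R3)))) :=
  Ref.s01 (by decide +kernel) r498 r499

theorem j494 : Ref (sa0 (sa1 R0)) (sa2 (sa1 (sb2 (sb0 (sb1 R1))))) (sa1 (sa2 (sa0 R2))) (sa0 (sa2 (sa1 (sb0 R3)))) :=
  Ref.s22 (by decide +kernel) r497 j493

theorem j495 : Ref (sa0 (sa1 R0)) (sa2 (sa1 (sb2 (sb0 (sb1 R1))))) (sa2 (sa0 R2)) (sa0 (sa2 (sa1 (sb0 R3)))) :=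
  Ref.s21 (by decide +kernel) j494 r500

theorem j496 : Ref (sa2 (sb0 (sa1 (sa0 (sa1 R0))))) (sb2 (sa1 (sb2 (sb0 (sb1 R1))))) (sa1 (sb2 (sa1 (sa2 (sa0 R2))))) (sa0 (sb1 (sa0 (sa2 (sa1 (sb0 R3)))))) :=
  Ref.s11 (by decide +kernel) r504 r505

theorem j497 : Ref (sa2 (sb0 (sa1 (sa0 (sa1 R0))))) (sb2 (sa1 (sb2 (sb0 (sb1 R1))))) (sa1 (sb2 (sa1 (sa2 (sa0 R2))))) (sb1 (sa0 (sa2 (sa1 (sb0 R3))))) :=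
  Ref.s30 (by decide +kernel) j496 r506

theorem j498 : Ref (sa2 (sb0 (sa1 (sa0 (sa1 R0))))) (sb2 (sa1 (sb2 (sb0 (sb1 R1))))) (sa1 (sb2 (sa1 (sa2 (sa0 R2))))) (sa0 (sa2 (sa1 (sb0 R3)))) :=
  Ref.s31 (by decide +kernel) r503 j497

theorem j499 : Ref (sa2 (sb0 (sa1 (sa0 (sa1 R0))))) (sb2 (sa1 (sb2 (sb0 (sb1 R1))))) (sb2 (sa1 (sa2 (sa0 R2)))) (sa0 (sa2 (sa1 (sb0 R3)))) :=
  Ref.s21 (by decide +kernel) j498 r507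

theorem j500 : Ref (sb0 (sa1 (sa0 (sa1 R0)))) (sb2 (sa1 (sb2 (sb0 (sb1 R1))))) (sb2 (sa1 (sa2 (sa0 R2)))) (sa0 (sa2 (sa1 (sb0 R3)))) :=
  Ref.s02 (by decide +kernel) j499 r508

theorem j501 : Ref (sa1 (sa0 (sa1 R0))) (sb2 (sa1 (sb2 (sb0 (sb1 R1))))) (sb2 (sa1 (sa2 (sa0 R2)))) (sa0 (sa2 (sa1 (sb0 R3)))) :=
  Ref.s00 (by decide +kernel) r502 j500

theorem j502 : Ref (sb0 (sb1 (sa0 (sa1 R0)))) (sb2 (sa1 (sb2 (sb0 (sb1 R1))))) (sa1 (sb2 (sa1 (sa2 (sa0 R2))))) (sa0 (sa0 (sa2 (sa1 (sb0 R3))))) :=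
  Ref.s02 (by decide +kernel) r510 r511

theorem j503 : Ref (sb1 (sa0 (sa1 R0))) (sb2 (sa1 (sb2 (sb0 (sb1 R1))))) (sa1 (sb2 (sa1 (sa2 (sa0 R2))))) (sa0 (sa0 (sa2 (sa1 (sb0 R3))))) :=
  Ref.s00 (by decide +kernel) r509 j502

theorem j504 : Ref (sb1 (sa0 (sa1 R0))) (sb2 (sa1 (sb2 (sb0 (sb1 R1))))) (sb2 (sa1 (sa2 (sa0 R2)))) (sa0 (sa0 (sa2 (sa1 (sb0 R3))))) :=
  Ref.s21 (by decide +kernel) j503 r512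

theorem j505 : Ref (sb1 (sa0 (sa1 R0))) (sb2 (sa1 (sb2 (sb0 (sb1 R1))))) (sb2 (sa1 (sa2 (sa0 R2)))) (sa0 (sa2 (sa1 (sb0 R3)))) :=
  Ref.s30 (by decide +kernel) j504 r513

theorem j506 : Ref (sa0 (sa1 R0)) (sb2 (sa1 (sb2 (sb0 (sb1 R1))))) (sb2 (sa1 (sa2 (sa0 R2)))) (sa0 (sa2 (sa1 (sb0 R3)))) :=
  Ref.s01 (by decide +kernel) j501 j505

theorem j507 : Ref (sa0 (sa1 R0)) (sb2 (sa1 (sb2 (sb0 (sb1 R1))))) (sa1 (sa2 (sa0 R2))) (sa0 (sa2 (sa1 (sb0 R3)))) :=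
  Ref.s22 (by decide +kernel) r501 j506

theorem j508 : Ref (sa0 (sa1 R0)) (sb2 (sa1 (sb2 (sb0 (sb1 R1))))) (sa2 (sa0 R2)) (sa0 (sa2 (sa1 (sb0 R3)))) :=
  Ref.s21 (by decide +kernel) j507 r514

theorem j509 : Ref (sa0 (sa1 R0)) (sa1 (sb2 (sb0 (sb1 R1)))) (sa2 (sa0 R2)) (sa0 (sa2 (sa1 (sb0 R3)))) :=
  Ref.s12 (by decide +kernel) j495 j508

theorem j510 : Ref (sa0 (sa1 R0)) (sb1 (sb2 (sb0 (sb1 R1)))) (sa2 (sa0 R2)) (sa0 (sa2 (sa1 (sb0 R3)))) :=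
  Ref.s20 (by decide +kernel) r515 r516

theorem j511 : Ref (sa0 (sa1 R0)) (sb2 (sb0 (sb1 R1))) (sa2 (sa0 R2)) (sa0 (sa2 (sa1 (sb0 R3)))) :=
  Ref.s11 (by decide +kernel) j509 j510

theorem j512 : Ref (sb1 (sb1 (sb2 (sb0 (sa1 R0))))) (sa2 (sa1 (sb2 (sb0 (sb1 R1))))) (sa1 (sb2 (sa0 (sa1 (sa2 (sa0 R2)))))) (sb1 (sa0 (sa0 (sa2 (sa1 (sb0 R3)))))) :=
  Ref.s10 (by decide +kernel) r522 r523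

theorem j513 : Ref (sb1 (sb2 (sb0 (sa1 R0)))) (sa2 (sa1 (sb2 (sb0 (sb1 R1))))) (sa1 (sb2 (sa0 (sa1 (sa2 (sa0 R2)))))) (sb1 (sa0 (sa0 (sa2 (sa1 (sb0 R3)))))) :=
  Ref.s01 (by decide +kernel) r521 j512

theorem j514 : Ref (sb1 (sb2 (sb0 (sa1 R0)))) (sa2 (sa1 (sb2 (sb0 (sb1 R1))))) (sa1 (sb2 (sa0 (sa1 (sa2 (sa0 R2)))))) (sa0 (sa0 (sa2 (sa1 (sb0 R3))))) :=
  Ref.s31 (by decide +kernel) r520 j513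

theorem j515 : Ref (sb1 (sb2 (sb0 (sa1 R0)))) (sb2 (sa1 (sb2 (sb0 (sb1 R1))))) (sa1 (sb2 (sa0 (sa1 (sa2 (sa0 R2)))))) (sb1 (sa0 (sa0 (sa2 (sa1 (sb0 R3)))))) :=
  Ref.s01 (by decide +kernel) r525 r526

theorem j516 : Ref (sb1 (sb2 (sb0 (sa1 R0)))) (sb2 (sa1 (sb2 (sb0 (sb1 R1))))) (sa1 (sb2 (sa0 (sa1 (sa2 (sa0 R2)))))) (sa0 (sa0 (sa2 (sa1 (sb0 R3))))) :=
  Ref.s31 (by decide +kernel) r524 j515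

theorem j517 : Ref (sb1 (sb2 (sb0 (sa1 R0)))) (sa1 (sb2 (sb0 (sb1 R1)))) (sa1 (sb2 (sa0 (sa1 (sa2 (sa0 R2)))))) (sa0 (sa0 (sa2 (sa1 (sb0 R3))))) :=
  Ref.s12 (by decide +kernel) j514 j516

theorem j518 : Ref (sb1 (sb2 (sb0 (sa1 R0)))) (sa1 (sb2 (sb0 (sb1 R1)))) (sb2 (sa0 (sa1 (sa2 (sa0 R2))))) (sa0 (sa0 (sa2 (sa1 (sb0 R3))))) :=
  Ref.s21 (by decide +kernel) j517 r527

theorem j519 : Ref (sb1 (sb2 (sb0 (sa1 R0)))) (sa1 (sb2 (sb0 (sb1 R1)))) (sb2 (sa0 (sa1 (sa2 (sa0 R2))))) (sa0 (sa2 (sa1 (sb0 R3)))) :=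
  Ref.s30 (by decide +kernel) j518 r528

theorem j520 : Ref (sb1 (sb2 (sb0 (sa1 R0)))) (sa1 (sb2 (sb0 (sb1 R1)))) (sa0 (sa1 (sa2 (sa0 R2)))) (sa0 (sa2 (sa1 (sb0 R3)))) :=
  Ref.s22 (by decide +kernel) r519 j519

theorem j521 : Ref (sb1 (sb2 (sb0 (sa1 R0)))) (sa1 (sb2 (sb0 (sb1 R1)))) (sa1 (sa2 (sa0 R2))) (sa0 (sa2 (sa1 (sb0 R3)))) :=
  Ref.s20 (by decide +kernel) j520 r529

theorem j522 : Ref (sb2 (sb0 (sa1 R0))) (sa1 (sb2 (sb0 (sb1 R1)))) (sa1 (sa2 (sa0 R2))) (sa0 (sa2 (sa1 (sb0 R3)))) :=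
  Ref.s01 (by decide +kernel) r518 j521

theorem j523 : Ref (sb2 (sb0 (sa1 R0))) (sb2 (sb0 (sb1 R1))) (sa1 (sa2 (sa0 R2))) (sa0 (sa2 (sa1 (sb0 R3)))) :=
  Ref.s11 (by decide +kernel) j522 r530

theorem j524 : Ref (sb0 (sa1 R0)) (sb2 (sb0 (sb1 R1))) (sa1 (sa2 (sa0 R2))) (sa0 (sa2 (sa1 (sb0 R3)))) :=
  Ref.s02 (by decide +kernel) r517 j523

theorem j525 : Ref (sb0 (sa1 R0)) (sb2 (sb0 (sb1 R1))) (sa2 (sa0 R2)) (sa0 (sa2 (sa1 (sb0 R3)))) :=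
  Ref.s21 (by decide +kernel) j524 r531

theorem j526 : Ref (sa1 R0) (sb2 (sb0 (sb1 R1))) (sa2 (sa0 R2)) (sa0 (sa2 (sa1 (sb0 R3)))) :=
  Ref.s00 (by decide +kernel) j511 j525

theorem j527 : Ref (sa2 (sa0 (sa1 R0))) (sa1 (sb2 (sb0 (sb1 R1)))) (sb1 (sa1 (sb2 (sa0 R2)))) (sa0 (sa2 (sa1 (sb0 R3)))) :=
  Ref.s01 (by decide +kernel) r533 r534

theorem j528 : Ref (sa2 (sa0 (sa1 R0))) (sb2 (sb0 (sb1 R1))) (sb1 (sa1 (sb2 (sa0 R2)))) (sa0 (sa2 (sa1 (sb0 R3)))) :=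
  Ref.s11 (by decide +kernel) j527 r535

theorem j529 : Ref (sa2 (sa0 (sa1 R0))) (sb2 (sb0 (sb1 R1))) (sa1 (sb2 (sa0 R2))) (sa0 (sa2 (sa1 (sb0 R3)))) :=
  Ref.s21 (by decide +kernel) r532 j528

theorem j530 : Ref (sa0 (sa2 (sa2 (sa0 (sa1 R0))))) (sa1 (sb2 (sb0 (sb1 R1)))) (sb0 (sa1 (sb1 (sb2 (sa0 R2))))) (sa0 (sa2 (sa1 (sb0 R3)))) :=
  Ref.s12 (by decide +kernel) r537 r538

theorem j531 : Ref (sb0 (sa2 (sa2 (sa0 (sa1 R0))))) (sb2 (sa1 (sb2 (sb0 (sb1 R1))))) (sb0 (sb0 (sa1 (sb1 (sb2 (sa0 R2)))))) (sa0 (sa2 (sa1 (sb0 R3)))) :=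
  Ref.s00 (by decide +kernel) r541 r542

theorem j532 : Ref (sb0 (sa2 (sa2 (sa0 (sa1 R0))))) (sb2 (sa1 (sb2 (sb0 (sb1 R1))))) (sb0 (sa1 (sb1 (sb2 (sa0 R2))))) (sa0 (sa2 (sa1 (sb0 R3)))) :=
  Ref.s20 (by decide +kernel) r540 j531

theorem j533 : Ref (sb0 (sa2 (sa2 (sa0 (sa1 R0))))) (sa1 (sb2 (sb0 (sb1 R1)))) (sb0 (sa1 (sb1 (sb2 (sa0 R2))))) (sa0 (sa2 (sa1 (sb0 R3)))) :=
  Ref.s12 (by decide +kernel) r539 j532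

theorem j534 : Ref (sa2 (sa2 (sa0 (sa1 R0)))) (sa1 (sb2 (sb0 (sb1 R1)))) (sb0 (sa1 (sb1 (sb2 (sa0 R2))))) (sa0 (sa2 (sa1 (sb0 R3)))) :=
  Ref.s00 (by decide +kernel) j530 j533

theorem j535 : Ref (sa2 (sa2 (sa0 (sa1 R0)))) (sa1 (sb2 (sb0 (sb1 R1)))) (sa1 (sb1 (sb2 (sa0 R2)))) (sa0 (sa2 (sa1 (sb0 R3)))) :=
  Ref.s20 (by decide +kernel) r536 j534

theorem j536 : Ref (sa2 (sa0 (sa1 R0))) (sa1 (sb2 (sb0 (sb1 R1)))) (sa1 (sb1 (sb2 (sa0 R2)))) (sa0 (sa2 (sa1 (sb0 R3)))) :=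
  Ref.s02 (by decide +kernel) j535 r543

theorem j537 : Ref (sa2 (sa0 (sa1 R0))) (sa2 (sa1 (sb2 (sb0 (sb1 R1))))) (sb1 (sb1 (sb2 (sa0 R2)))) (sa0 (sa2 (sa1 (sb0 R3)))) :=
  Ref.s00 (by decide +kernel) r544 r545

theorem j538 : Ref (sb0 (sa2 (sa0 (sa1 R0)))) (sb2 (sa1 (sb2 (sb0 (sb1 R1))))) (sb0 (sb1 (sb1 (sb2 (sa0 R2))))) (sa0 (sa2 (sa1 (sb0 R3)))) :=
  Ref.s20 (by decide +kernel) r548 r549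

theorem j539 : Ref (sb0 (sa2 (sa0 (sa1 R0)))) (sb2 (sa1 (sb2 (sb0 (sb1 R1))))) (sb1 (sb1 (sb2 (sa0 R2)))) (sa0 (sa2 (sa1 (sb0 R3)))) :=
  Ref.s20 (by decide +kernel) r547 j538

theorem j540 : Ref (sa2 (sa0 (sa1 R0))) (sb2 (sa1 (sb2 (sb0 (sb1 R1))))) (sb1 (sb1 (sb2 (sa0 R2)))) (sa0 (sa2 (sa1 (sb0 R3)))) :=
  Ref.s00 (by decide +kernel) r546 j539

theorem j541 : Ref (sa2 (sa0 (sa1 R0))) (sa1 (sb2 (sb0 (sb1 R1)))) (sb1 (sb1 (sb2 (sa0 R2)))) (sa0 (sa2 (sa1 (sb0 R3)))) :=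
  Ref.s12 (by decide +kernel) j537 j540

theorem j542 : Ref (sa2 (sa0 (sa1 R0))) (sa1 (sb2 (sb0 (sb1 R1)))) (sb1 (sb2 (sa0 R2))) (sa0 (sa2 (sa1 (sb0 R3)))) :=
  Ref.s21 (by decide +kernel) j536 j541

theorem j543 : Ref (sb0 (sa2 (sa0 (sa1 R0)))) (sb1 (sb2 (sb0 (sb1 R1)))) (sb1 (sb2 (sa0 R2))) (sa0 (sa2 (sa1 (sb0 R3)))) :=
  Ref.s21 (by decide +kernel) r551 r552

theorem j544 : Ref (sa2 (sa0 (sa1 R0))) (sb1 (sb2 (sb0 (sb1 R1)))) (sb1 (sb2 (sa0 R2))) (sa0 (sa2 (sa1 (sb0 R3)))) :=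
  Ref.s00 (by decide +kernel) r550 j543

theorem j545 : Ref (sa2 (sa0 (sa1 R0))) (sb2 (sb0 (sb1 R1))) (sb1 (sb2 (sa0 R2))) (sa0 (sa2 (sa1 (sb0 R3)))) :=
  Ref.s11 (by decide +kernel) j542 j544

theorem j546 : Ref (sa2 (sa0 (sa1 R0))) (sb2 (sb0 (sb1 R1))) (sb2 (sa0 R2)) (sa0 (sa2 (sa1 (sb0 R3)))) :=
  Ref.s21 (by decide +kernel) j529 j545

theorem j547 : Ref (sa0 (sa1 R0)) (sb2 (sb0 (sb1 R1))) (sb2 (sa0 R2)) (sa0 (sa2 (sa1 (sb0 R3)))) :=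
  Ref.s02 (by decide +kernel) j546 r553

theorem j548 : Ref (sa2 (sb0 (sa1 R0))) (sb2 (sb0 (sb1 R1))) (sb2 (sa0 R2)) (sa0 (sa2 (sa1 (sb0 R3)))) :=
  Ref.s21 (by decide +kernel) r554 r555

theorem j549 : Ref (sb1 (sb1 (sb2 (sb0 (sa1 R0))))) (sa2 (sb2 (sa1 (sb2 (sb0 (sb1 R1)))))) (sa0 (sa2 (sb0 (sa1 (sb1 (sb2 (sa0 R2))))))) (sa0 (sb1 (sa0 (sa2 (sa1 (sb0 R3)))))) :=
  Ref.s11 (by decide +kernel) r562 r563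

theorem j550 : Ref (sb1 (sb1 (sb2 (sb0 (sa1 R0))))) (sa2 (sb2 (sa1 (sb2 (sb0 (sb1 R1)))))) (sa0 (sa2 (sb0 (sa1 (sb1 (sb2 (sa0 R2))))))) (sb1 (sa0 (sa2 (sa1 (sb0 R3))))) :=
  Ref.s30 (by decide +kernel) j549 r564

theorem j551 : Ref (sb1 (sb1 (sb2 (sb0 (sa1 R0))))) (sa2 (sb2 (sa1 (sb2 (sb0 (sb1 R1)))))) (sa0 (sa2 (sb0 (sa1 (sb1 (sb2 (sa0 R2))))))) (sa0 (sa2 (sa1 (sb0 R3)))) :=
  Ref.s31 (by decide +kernel) r561 j550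

theorem j552 : Ref (sb1 (sb2 (sb0 (sa1 R0)))) (sa2 (sb2 (sa1 (sb2 (sb0 (sb1 R1)))))) (sa0 (sa2 (sb0 (sa1 (sb1 (sb2 (sa0 R2))))))) (sa0 (sa2 (sa1 (sb0 R3)))) :=
  Ref.s01 (by decide +kernel) r560 j551

theorem j553 : Ref (sb1 (sb2 (sb0 (sa1 R0)))) (sb2 (sa1 (sb2 (sb0 (sb1 R1))))) (sa0 (sa2 (sb0 (sa1 (sb1 (sb2 (sa0 R2))))))) (sa0 (sa2 (sa1 (sb0 R3)))) :=
  Ref.s12 (by decide +kernel) j552 r565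

theorem j554 : Ref (sa0 (sb1 (sb1 (sb2 (sb0 (sa1 R0)))))) (sb2 (sa1 (sb2 (sb0 (sb1 R1))))) (sb0 (sa2 (sb0 (sa1 (sb1 (sb2 (sa0 R2))))))) (sa0 (sb1 (sa0 (sa2 (sa1 (sb0 R3)))))) :=
  Ref.s11 (by decide +kernel) r568 r569

theorem j555 : Ref (sb1 (sb1 (sb2 (sb0 (sa1 R0))))) (sb2 (sa1 (sb2 (sb0 (sb1 R1))))) (sb0 (sa2 (sb0 (sa1 (sb1 (sb2 (sa0 R2))))))) (sa0 (sb1 (sa0 (sa2 (sa1 (sb0 R3)))))) :=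
  Ref.s00 (by decide +kernel) j554 r570

theorem j556 : Ref (sb1 (sb2 (sb0 (sa1 R0)))) (sb2 (sa1 (sb2 (sb0 (sb1 R1))))) (sb0 (sa2 (sb0 (sa1 (sb1 (sb2 (sa0 R2))))))) (sa0 (sb1 (sa0 (sa2 (sa1 (sb0 R3)))))) :=
  Ref.s01 (by decide +kernel) r567 j555

theorem j557 : Ref (sb1 (sb2 (sb0 (sa1 R0)))) (sb2 (sa1 (sb2 (sb0 (sb1 R1))))) (sb0 (sa2 (sb0 (sa1 (sb1 (sb2 (sa0 R2))))))) (sb1 (sa0 (sa2 (sa1 (sb0 R3))))) :=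
  Ref.s30 (by decide +kernel) j556 r571

theorem j558 : Ref (sb1 (sb2 (sb0 (sa1 R0)))) (sb2 (sa1 (sb2 (sb0 (sb1 R1))))) (sb0 (sa2 (sb0 (sa1 (sb1 (sb2 (sa0 R2))))))) (sa0 (sa2 (sa1 (sb0 R3)))) :=
  Ref.s31 (by decide +kernel) r566 j557

theorem j559 : Ref (sb1 (sb2 (sb0 (sa1 R0)))) (sb2 (sa1 (sb2 (sb0 (sb1 R1))))) (sa2 (sb0 (sa1 (sb1 (sb2 (sa0 R2)))))) (sa0 (sa2 (sa1 (sb0 R3)))) :=
  Ref.s20 (by decide +kernel) j553 j558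

theorem j560 : Ref (sb1 (sb2 (sb0 (sa1 R0)))) (sb2 (sa1 (sb2 (sb0 (sb1 R1))))) (sb0 (sa1 (sb1 (sb2 (sa0 R2))))) (sa0 (sa2 (sa1 (sb0 R3)))) :=
  Ref.s22 (by decide +kernel) j559 r572

theorem j561 : Ref (sb1 (sb2 (sb0 (sa1 R0)))) (sb2 (sa1 (sb2 (sb0 (sb1 R1))))) (sa1 (sb1 (sb2 (sa0 R2)))) (sa0 (sa2 (sa1 (sb0 R3)))) :=
  Ref.s20 (by decide +kernel) r559 j560

theorem j562 : Ref (sb1 (sb2 (sb0 (sa1 R0)))) (sa1 (sb2 (sb0 (sb1 R1)))) (sa1 (sb1 (sb2 (sa0 R2)))) (sa0 (sa2 (sa1 (sb0 R3)))) :=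
  Ref.s12 (by decide +kernel) r558 j561

theorem j563 : Ref (sa0 (sb1 (sb2 (sb0 (sa1 R0))))) (sa2 (sa1 (sb2 (sb0 (sb1 R1))))) (sb0 (sa2 (sb0 (sb1 (sb1 (sb2 (sa0 R2))))))) (sa0 (sa2 (sa1 (sb0 R3)))) :=
  Ref.s22 (by decide +kernel) r575 r576

theorem j564 : Ref (sb1 (sb2 (sb0 (sa1 R0)))) (sa2 (sa1 (sb2 (sb0 (sb1 R1))))) (sb0 (sa2 (sb0 (sb1 (sb1 (sb2 (sa0 R2))))))) (sa0 (sa2 (sa1 (sb0 R3)))) :=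
  Ref.s00 (by decide +kernel) j563 r577

theorem j565 : Ref (sb1 (sb2 (sb0 (sa1 R0)))) (sa2 (sa1 (sb2 (sb0 (sb1 R1))))) (sa2 (sb0 (sb1 (sb1 (sb2 (sa0 R2)))))) (sa0 (sa2 (sa1 (sb0 R3)))) :=
  Ref.s20 (by decide +kernel) r574 j564

theorem j566 : Ref (sb1 (sb2 (sb0 (sa1 R0)))) (sa2 (sa1 (sb2 (sb0 (sb1 R1))))) (sb0 (sb1 (sb1 (sb2 (sa0 R2))))) (sa0 (sa2 (sa1 (sb0 R3)))) :=
  Ref.s22 (by decide +kernel) j565 r578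

theorem j567 : Ref (sb1 (sb2 (sb0 (sa1 R0)))) (sa2 (sa1 (sb2 (sb0 (sb1 R1))))) (sb1 (sb1 (sb2 (sa0 R2)))) (sa0 (sa2 (sa1 (sb0 R3)))) :=
  Ref.s20 (by decide +kernel) r573 j566

theorem j568 : Ref (sa0 (sb1 (sb2 (sb0 (sa1 R0))))) (sa2 (sb2 (sa1 (sb2 (sb0 (sb1 R1)))))) (sa2 (sa2 (sb0 (sb0 (sb1 (sb1 (sb2 (sa0 R2)))))))) (sa0 (sa0 (sa2 (sa1 (sb0 R3))))) :=
  Ref.s01 (by decide +kernel) r581 r582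

theorem j569 : Ref (sb1 (sb2 (sb0 (sa1 R0)))) (sa2 (sb2 (sa1 (sb2 (sb0 (sb1 R1)))))) (sa2 (sa2 (sb0 (sb0 (sb1 (sb1 (sb2 (sa0 R2)))))))) (sa0 (sa0 (sa2 (sa1 (sb0 R3))))) :=
  Ref.s00 (by decide +kernel) j568 r583

theorem j570 : Ref (sb1 (sb2 (sb0 (sa1 R0)))) (sb2 (sa1 (sb2 (sb0 (sb1 R1))))) (sa2 (sa2 (sb0 (sb0 (sb1 (sb1 (sb2 (sa0 R2)))))))) (sa0 (sa0 (sa2 (sa1 (sb0 R3))))) :=
  Ref.s12 (by decide +kernel) j569 r584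

theorem j571 : Ref (sb1 (sb2 (sb0 (sa1 R0)))) (sb2 (sa1 (sb2 (sb0 (sb1 R1))))) (sa2 (sb0 (sb0 (sb1 (sb1 (sb2 (sa0 R2))))))) (sa0 (sa0 (sa2 (sa1 (sb0 R3))))) :=
  Ref.s22 (by decide +kernel) j570 r585

theorem j572 : Ref (sb1 (sb2 (sb0 (sa1 R0)))) (sb2 (sa1 (sb2 (sb0 (sb1 R1))))) (sb0 (sb0 (sb1 (sb1 (sb2 (sa0 R2)))))) (sa0 (sa0 (sa2 (sa1 (sb0 R3))))) :=
  Ref.s22 (by decide +kernel) j571 r586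

theorem j573 : Ref (sb1 (sb2 (sb0 (sa1 R0)))) (sb2 (sa1 (sb2 (sb0 (sb1 R1))))) (sb0 (sb1 (sb1 (sb2 (sa0 R2))))) (sa0 (sa0 (sa2 (sa1 (sb0 R3))))) :=
  Ref.s20 (by decide +kernel) r580 j572

theorem j574 : Ref (sb1 (sb2 (sb0 (sa1 R0)))) (sb2 (sa1 (sb2 (sb0 (sb1 R1))))) (sb0 (sb1 (sb1 (sb2 (sa0 R2))))) (sa0 (sa2 (sa1 (sb0 R3)))) :=
  Ref.s30 (by decide +kernel) j573 r587

theorem j575 : Ref (sb1 (sb2 (sb0 (sa1 R0)))) (sb2 (sa1 (sb2 (sb0 (sb1 R1))))) (sb1 (sb1 (sb2 (sa0 R2)))) (sa0 (sa2 (sa1 (sb0 R3)))) :=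
  Ref.s20 (by decide +kernel) r579 j574

theorem j576 : Ref (sb1 (sb2 (sb0 (sa1 R0)))) (sa1 (sb2 (sb0 (sb1 R1)))) (sb1 (sb1 (sb2 (sa0 R2)))) (sa0 (sa2 (sa1 (sb0 R3)))) :=
  Ref.s12 (by decide +kernel) j567 j575

theorem j577 : Ref (sb1 (sb2 (sb0 (sa1 R0)))) (sa1 (sb2 (sb0 (sb1 R1)))) (sb1 (sb2 (sa0 R2))) (sa0 (sa2 (sa1 (sb0 R3)))) :=
  Ref.s21 (by decide +kernel) j562 j576

theorem j578 : Ref (sb1 (sb2 (sb0 (sa1 R0)))) (sb2 (sb0 (sb1 R1))) (sb1 (sb2 (sa0 R2))) (sa0 (sa2 (sa1 (sb0 R3)))) :=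
  Ref.s11 (by decide +kernel) j577 r588

theorem j579 : Ref (sb1 (sb2 (sb0 (sa1 R0)))) (sb2 (sb0 (sb1 R1))) (sb2 (sa0 R2)) (sa0 (sa2 (sa1 (sb0 R3)))) :=
  Ref.s21 (by decide +kernel) r557 j578

theorem j580 : Ref (sb2 (sb0 (sa1 R0))) (sb2 (sb0 (sb1 R1))) (sb2 (sa0 R2)) (sa0 (sa2 (sa1 (sb0 R3)))) :=
  Ref.s01 (by decide +kernel) r556 j579

theorem j581 : Ref (sb0 (sa1 R0)) (sb2 (sb0 (sb1 R1))) (sb2 (sa0 R2)) (sa0 (sa2 (sa1 (sb0 R3)))) :=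
  Ref.s02 (by decide +kernel) j548 j580

theorem j582 : Ref (sa1 R0) (sb2 (sb0 (sb1 R1))) (sb2 (sa0 R2)) (sa0 (sa2 (sa1 (sb0 R3)))) :=
  Ref.s00 (by decide +kernel) j547 j581

theorem j583 : Ref (sa1 R0) (sb2 (sb0 (sb1 R1))) (sa0 R2) (sa0 (sa2 (sa1 (sb0 R3)))) :=
  Ref.s22 (by decide +kernel) j526 j582

theorem j584 : Ref (sa1 R0) (sb2 (sb0 (sb1 R1))) R2 (sa0 (sa2 (sa1 (sb0 R3)))) :=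
  Ref.s20 (by decide +kernel) j583 r589

theorem j585 : Ref (sa1 R0) (sb0 (sb1 R1)) R2 (sa0 (sa2 (sa1 (sb0 R3)))) :=
  Ref.s12 (by decide +kernel) r496 j584

theorem j586 : Ref (sa1 R0) (sb1 R1) R2 (sa0 (sa2 (sa1 (sb0 R3)))) :=
  Ref.s10 (by decide +kernel) j492 j585

theorem j587 : Ref (sa1 R0) R1 R2 (sa0 (sa2 (sa1 (sb0 R3)))) :=
  Ref.s11 (by decide +kernel) j486 j586

theorem j588 : Ref (sb2 (sb1 R0)) (sa0 (sa1 R1)) (sb0 (sb1 (sb2 R2))) (sa0 (sa2 (sa1 (sb0 R3)))) :=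
  Ref.s01 (by decide +kernel) r594 r595

theorem j589 : Ref (sb1 R0) (sa0 (sa1 R1)) (sb0 (sb1 (sb2 R2))) (sa0 (sa2 (sa1 (sb0 R3)))) :=
  Ref.s02 (by decide +kernel) r593 j588

theorem j590 : Ref (sb1 R0) (sa0 (sa1 R1)) (sb1 (sb2 R2)) (sa0 (sa2 (sa1 (sb0 R3)))) :=
  Ref.s20 (by decide +kernel) r592 j589

theorem j591 : Ref (sb1 R0) (sa0 (sa1 R1)) (sb2 R2) (sa0 (sa2 (sa1 (sb0 R3)))) :=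
  Ref.s21 (by decide +kernel) r591 j590

theorem j592 : Ref (sb1 R0) (sa1 R1) (sb2 R2) (sa0 (sa2 (sa1 (sb0 R3)))) :=
  Ref.s10 (by decide +kernel) j591 r596

theorem j593 : Ref (sb2 (sb0 (sb1 R0))) (sa0 (sb1 R1)) (sa1 (sa0 (sb2 R2))) (sa0 (sa2 (sa1 (sb0 R3)))) :=
  Ref.s02 (by decide +kernel) r599 r600

theorem j594 : Ref (sb2 (sb0 (sb1 R0))) (sa0 (sb1 R1)) (sa0 (sb2 R2)) (sa0 (sa2 (sa1 (sb0 R3)))) :=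
  Ref.s21 (by decide +kernel) j593 r601

theorem j595 : Ref (sb2 (sb0 (sb1 R0))) (sa0 (sb1 R1)) (sb2 R2) (sa0 (sa2 (sa1 (sb0 R3)))) :=
  Ref.s20 (by decide +kernel) j594 r602

theorem j596 : Ref (sb0 (sb1 R0)) (sa0 (sb1 R1)) (sb2 R2) (sa0 (sa2 (sa1 (sb0 R3)))) :=
  Ref.s02 (by decide +kernel) r598 j595

theorem j597 : Ref (sb1 R0) (sa0 (sb1 R1)) (sb2 R2) (sa0 (sa2 (sa1 (sb0 R3)))) :=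
  Ref.s00 (by decide +kernel) r597 j596

theorem j598 : Ref (sb2 (sb0 (sb1 R0))) (sa1 (sb2 (sb0 (sb1 R1)))) (sa2 (sa1 (sa0 (sb2 R2)))) (sa0 (sa0 (sa2 (sa1 (sb0 R3))))) :=
  Ref.s12 (by decide +kernel) r606 r607

theorem j599 : Ref (sb2 (sb0 (sb1 R0))) (sa1 (sb2 (sb0 (sb1 R1)))) (sa2 (sa1 (sa0 (sb2 R2)))) (sa0 (sa2 (sa1 (sb0 R3)))) :=
  Ref.s30 (by decide +kernel) j598 r608

theorem j600 : Ref (sb2 (sb0 (sb1 R0))) (sa1 (sb2 (sb0 (sb1 R1)))) (sa1 (sa0 (sb2 R2))) (sa0 (sa2 (sa1 (sb0 R3)))) :=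
  Ref.s22 (by decide +kernel) j599 r609

theorem j601 : Ref (sb2 (sb0 (sb1 R0))) (sb2 (sb0 (sb1 R1))) (sa1 (sa0 (sb2 R2))) (sa0 (sa2 (sa1 (sb0 R3)))) :=
  Ref.s11 (by decide +kernel) j600 r610

theorem j602 : Ref (sb2 (sb0 (sb1 R0))) (sb2 (sb0 (sb1 R1))) (sa0 (sb2 R2)) (sa0 (sa2 (sa1 (sb0 R3)))) :=
  Ref.s21 (by decide +kernel) j601 r611

theorem j603 : Ref (sb2 (sb0 (sb1 R0))) (sb2 (sb2 (sb0 (sb1 R1)))) (sa0 (sb1 (sb0 (sb2 R2)))) (sa0 (sa2 (sa1 (sb0 R3)))) :=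
  Ref.s01 (by decide +kernel) r614 r615

theorem j604 : Ref (sb2 (sb0 (sb1 R0))) (sb2 (sb2 (sb0 (sb1 R1)))) (sb1 (sb0 (sb2 R2))) (sa0 (sa2 (sa1 (sb0 R3)))) :=
  Ref.s20 (by decide +kernel) j603 r616

theorem j605 : Ref (sb2 (sb0 (sb1 R0))) (sb2 (sb0 (sb1 R1))) (sb1 (sb0 (sb2 R2))) (sa0 (sa2 (sa1 (sb0 R3)))) :=
  Ref.s12 (by decide +kernel) r613 j604

theorem j606 : Ref (sb2 (sb0 (sb1 R0))) (sb2 (sb0 (sb1 R1))) (sb0 (sb2 R2)) (sa0 (sa2 (sa1 (sb0 R3)))) :=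
  Ref.s21 (by decide +kernel) r612 j605

theorem j607 : Ref (sb2 (sb0 (sb1 R0))) (sb2 (sb0 (sb1 R1))) (sb2 R2) (sa0 (sa2 (sa1 (sb0 R3)))) :=
  Ref.s20 (by decide +kernel) j602 j606

theorem j608 : Ref (sb0 (sb1 R0)) (sb2 (sb0 (sb1 R1))) (sb2 R2) (sa0 (sa2 (sa1 (sb0 R3)))) :=
  Ref.s02 (by decide +kernel) r605 j607

theorem j609 : Ref (sb1 R0) (sb2 (sb0 (sb1 R1))) (sb2 R2) (sa0 (sa2 (sa1 (sb0 R3)))) :=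
  Ref.s00 (by decide +kernel) r604 j608

theorem j610 : Ref (sb1 R0) (sb0 (sb1 R1)) (sb2 R2) (sa0 (sa2 (sa1 (sb0 R3)))) :=
  Ref.s12 (by decide +kernel) r603 j609

theorem j611 : Ref (sb1 R0) (sb1 R1) (sb2 R2) (sa0 (sa2 (sa1 (sb0 R3)))) :=
  Ref.s10 (by decide +kernel) j597 j610

theorem j612 : Ref (sb1 R0) R1 (sb2 R2) (sa0 (sa2 (sa1 (sb0 R3)))) :=
  Ref.s11 (by decide +kernel) j592 j611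

theorem j613 : Ref (sb1 R0) R1 R2 (sa0 (sa2 (sa1 (sb0 R3)))) :=
  Ref.s22 (by decide +kernel) r590 j612

theorem j614 : Ref R0 R1 R2 (sa0 (sa2 (sa1 (sb0 R3)))) :=
  Ref.s01 (by decide +kernel) j587 j613

theorem j615 : Ref R0 R1 (sb2 R2) (sb0 (sa2 (sa1 (sb0 R3)))) :=
  Ref.s00 (by decide +kernel) r618 r619

theorem j616 : Ref R0 R1 R2 (sb0 (sa2 (sa1 (sb0 R3)))) :=
  Ref.s22 (by decide +kernel) r617 j615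

theorem j617 : Ref R0 R1 R2 (sa2 (sa1 (sb0 R3))) :=
  Ref.s30 (by decide +kernel) j614 j616

theorem j618 : Ref (sa2 (sa0 (sa1 R0))) (sa1 (sa0 (sa2 (sa0 (sa1 R1))))) (sa2 (sa2 (sa1 (sa0 (sb2 R2))))) (sb1 (sb2 (sa1 (sb0 R3)))) :=
  Ref.s01 (by decide +kernel) r622 r623

theorem j619 : Ref (sa2 (sa0 (sa1 R0))) (sa0 (sa2 (sa0 (sa1 R1)))) (sa2 (sa2 (sa1 (sa0 (sb2 R2))))) (sb1 (sb2 (sa1 (sb0 R3)))) :=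
  Ref.s11 (by decide +kernel) j618 r624

theorem j620 : Ref (sb0 (sa2 (sa0 (sa1 R0)))) (sa0 (sa2 (sa0 (sa1 R1)))) (sb2 (sa2 (sa1 (sa0 (sb2 R2))))) (sb1 (sb2 (sa1 (sb0 R3)))) :=
  Ref.s11 (by decide +kernel) r626 r627

theorem j621 : Ref (sa2 (sa0 (sa1 R0))) (sa0 (sa2 (sa0 (sa1 R1)))) (sb2 (sa2 (sa1 (sa0 (sb2 R2))))) (sb1 (sb2 (sa1 (sb0 R3)))) :=
  Ref.s00 (by decide +kernel) r625 j620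

theorem j622 : Ref (sa2 (sa0 (sa1 R0))) (sa0 (sa2 (sa0 (sa1 R1)))) (sa2 (sa1 (sa0 (sb2 R2)))) (sb1 (sb2 (sa1 (sb0 R3)))) :=
  Ref.s22 (by decide +kernel) j619 j621

theorem j623 : Ref (sa2 (sa0 (sa1 R0))) (sa0 (sa2 (sa0 (sa1 R1)))) (sa2 (sa1 (sa0 (sb2 R2)))) (sb2 (sa1 (sb0 R3))) :=
  Ref.s31 (by decide +kernel) r621 j622

theorem j624 : Ref (sa2 (sa0 (sa1 R0))) (sa0 (sa2 (sa0 (sa1 R1)))) (sa1 (sa0 (sb2 R2))) (sb2 (sa1 (sb0 R3))) :=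
  Ref.s22 (by decide +kernel) j623 r628

theorem j625 : Ref (sa2 (sa0 (sa1 R0))) (sb0 (sa2 (sa0 (sa1 R1)))) (sb1 (sa1 (sa0 (sb2 R2)))) (sb2 (sa1 (sb0 R3))) :=
  Ref.s01 (by decide +kernel) r630 r631

theorem j626 : Ref (sa2 (sa0 (sa1 R0))) (sb0 (sa2 (sa0 (sa1 R1)))) (sa1 (sa0 (sb2 R2))) (sb2 (sa1 (sb0 R3))) :=
  Ref.s21 (by decide +kernel) r629 j625

theorem j627 : Ref (sa2 (sa0 (sa1 R0))) (sa2 (sa0 (sa1 R1))) (sa1 (sa0 (sb2 R2))) (sb2 (sa1 (sb0 R3))) :=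
  Ref.s10 (by decide +kernel) j624 j626

theorem j628 : Ref (sa2 (sa0 (sa1 R0))) (sa2 (sa0 (sa1 R1))) (sa0 (sb2 R2)) (sb2 (sa1 (sb0 R3))) :=
  Ref.s21 (by decide +kernel) j627 r632

theorem j629 : Ref (sa0 (sa1 R0)) (sa2 (sa0 (sa1 R1))) (sa0 (sb2 R2)) (sb2 (sa1 (sb0 R3))) :=
  Ref.s02 (by decide +kernel) j628 r633

theorem j630 : Ref (sb1 (sb2 (sb0 (sa1 R0)))) (sa0 (sa2 (sa0 (sa1 R1)))) (sa2 (sa1 (sa0 (sb2 R2)))) (sb2 (sa1 (sb0 R3))) :=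
  Ref.s01 (by decide +kernel) r636 r637

theorem j631 : Ref (sb1 (sb2 (sb0 (sa1 R0)))) (sa0 (sa2 (sa0 (sa1 R1)))) (sa1 (sa0 (sb2 R2))) (sb2 (sa1 (sb0 R3))) :=
  Ref.s22 (by decide +kernel) j630 r638

theorem j632 : Ref (sb1 (sb2 (sb0 (sa1 R0)))) (sb0 (sa2 (sa0 (sa1 R1)))) (sa1 (sa0 (sb2 R2))) (sb2 (sa1 (sb0 R3))) :=
  Ref.s32 (by decide +kernel) r639 r640

theorem j633 : Ref (sb1 (sb2 (sb0 (sa1 R0)))) (sa2 (sa0 (sa1 R1))) (sa1 (sa0 (sb2 R2))) (sb2 (sa1 (sb0 R3))) :=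
  Ref.s10 (by decide +kernel) j631 j632

theorem j634 : Ref (sb1 (sb2 (sb0 (sa1 R0)))) (sa2 (sa0 (sa1 R1))) (sa0 (sb2 R2)) (sb2 (sa1 (sb0 R3))) :=
  Ref.s21 (by decide +kernel) j633 r641

theorem j635 : Ref (sb2 (sb0 (sa1 R0))) (sa2 (sa0 (sa1 R1))) (sa0 (sb2 R2)) (sb2 (sa1 (sb0 R3))) :=
  Ref.s01 (by decide +kernel) r635 j634

theorem j636 : Ref (sb0 (sa1 R0)) (sa2 (sa0 (sa1 R1))) (sa0 (sb2 R2)) (sb2 (sa1 (sb0 R3))) :=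
  Ref.s02 (by decide +kernel) r634 j635

theorem j637 : Ref (sa1 R0) (sa2 (sa0 (sa1 R1))) (sa0 (sb2 R2)) (sb2 (sa1 (sb0 R3))) :=
  Ref.s00 (by decide +kernel) j629 j636

theorem j638 : Ref (sa2 (sa0 (sa1 R0))) (sa2 (sa0 (sa1 R1))) (sb1 (sb0 (sb2 R2))) (sb2 (sa1 (sb0 R3))) :=
  Ref.s21 (by decide +kernel) r643 r644

theorem j639 : Ref (sa0 (sa1 R0)) (sa2 (sa0 (sa1 R1))) (sb1 (sb0 (sb2 R2))) (sb2 (sa1 (sb0 R3))) :=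
  Ref.s02 (by decide +kernel) j638 r645

theorem j640 : Ref (sb2 (sb0 (sa1 R0))) (sa2 (sa0 (sa1 R1))) (sb1 (sb0 (sb2 R2))) (sa2 (sb2 (sa1 (sb0 R3)))) :=
  Ref.s10 (by decide +kernel) r647 r648

theorem j641 : Ref (sb2 (sb0 (sa1 R0))) (sa2 (sa0 (sa1 R1))) (sb1 (sb0 (sb2 R2))) (sb2 (sa1 (sb0 R3))) :=
  Ref.s32 (by decide +kernel) j640 r649

theorem j642 : Ref (sb0 (sa1 R0)) (sa2 (sa0 (sa1 R1))) (sb1 (sb0 (sb2 R2))) (sb2 (sa1 (sb0 R3))) :=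
  Ref.s02 (by decide +kernel) r646 j641

theorem j643 : Ref (sa1 R0) (sa2 (sa0 (sa1 R1))) (sb1 (sb0 (sb2 R2))) (sb2 (sa1 (sb0 R3))) :=
  Ref.s00 (by decide +kernel) j639 j642

theorem j644 : Ref (sa1 R0) (sa2 (sa0 (sa1 R1))) (sb0 (sb2 R2)) (sb2 (sa1 (sb0 R3))) :=
  Ref.s21 (by decide +kernel) r642 j643

theorem j645 : Ref (sa1 R0) (sa2 (sa0 (sa1 R1))) (sb2 R2) (sb2 (sa1 (sb0 R3))) :=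
  Ref.s20 (by decide +kernel) j637 j644

theorem j646 : Ref (sa1 R0) (sa0 (sa1 R1)) (sb2 R2) (sb2 (sa1 (sb0 R3))) :=
  Ref.s12 (by decide +kernel) j645 r650

theorem j647 : Ref (sa1 R0) (sa0 (sa1 R1)) R2 (sb2 (sa1 (sb0 R3))) :=
  Ref.s22 (by decide +kernel) r620 j646

theorem j648 : Ref (sa1 R0) (sb2 (sb0 (sa1 R1))) (sb2 R2) (sb2 (sa1 (sb0 R3))) :=
  Ref.s11 (by decide +kernel) r653 r654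

theorem j649 : Ref (sa1 R0) (sb0 (sa1 R1)) (sb2 R2) (sb2 (sa1 (sb0 R3))) :=
  Ref.s12 (by decide +kernel) r652 j648

theorem j650 : Ref (sa1 R0) (sb0 (sa1 R1)) R2 (sb2 (sa1 (sb0 R3))) :=
  Ref.s22 (by decide +kernel) r651 j649

theorem j651 : Ref (sa1 R0) (sa1 R1) R2 (sb2 (sa1 (sb0 R3))) :=
  Ref.s10 (by decide +kernel) j647 j650

theorem j652 : Ref (sa1 R0) (sa1 (sa0 (sa2 (sb1 R1)))) (sa0 (sb2 R2)) (sb2 (sa1 (sb0 R3))) :=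
  Ref.s00 (by decide +kernel) r656 r657

theorem j653 : Ref (sa1 R0) (sa1 (sa0 (sa2 (sb1 R1)))) (sb2 R2) (sb2 (sa1 (sb0 R3))) :=
  Ref.s20 (by decide +kernel) j652 r658

theorem j654 : Ref (sa1 R0) (sa0 (sa2 (sb1 R1))) (sb2 R2) (sb2 (sa1 (sb0 R3))) :=
  Ref.s11 (by decide +kernel) j653 r659

theorem j655 : Ref (sa1 R0) (sa0 (sa2 (sb1 R1))) R2 (sb2 (sa1 (sb0 R3))) :=
  Ref.s22 (by decide +kernel) r655 j654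

theorem j656 : Ref (sa1 R0) (sa2 (sb1 R1)) R2 (sb2 (sa1 (sb0 R3))) :=
  Ref.s10 (by decide +kernel) j655 r660

theorem j657 : Ref (sa2 (sa0 (sa1 R0))) (sb0 (sb0 (sb2 (sb1 R1)))) (sb0 (sa2 (sa1 (sa1 (sa0 (sb2 R2)))))) (sa2 (sb2 (sa1 (sb0 R3)))) :=
  Ref.s00 (by decide +kernel) r665 r666

theorem j658 : Ref (sa2 (sa0 (sa1 R0))) (sb0 (sb2 (sb1 R1))) (sb0 (sa2 (sa1 (sa1 (sa0 (sb2 R2)))))) (sa2 (sb2 (sa1 (sb0 R3)))) :=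
  Ref.s10 (by decide +kernel) r664 j657

theorem j659 : Ref (sa2 (sa0 (sa1 R0))) (sb0 (sb2 (sb1 R1))) (sa2 (sa1 (sa1 (sa0 (sb2 R2))))) (sa2 (sb2 (sa1 (sb0 R3)))) :=
  Ref.s20 (by decide +kernel) r663 j658

theorem j660 : Ref (sa2 (sa0 (sa1 R0))) (sb0 (sb2 (sb1 R1))) (sa1 (sa1 (sa0 (sb2 R2)))) (sa2 (sb2 (sa1 (sb0 R3)))) :=
  Ref.s22 (by decide +kernel) j659 r667

theorem j661 : Ref (sa2 (sa0 (sa1 R0))) (sa2 (sa1 (sb0 (sb2 (sb1 R1))))) (sb1 (sa1 (sa0 (sb2 R2)))) (sa2 (sb2 (sa1 (sb0 R3)))) :=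
  Ref.s01 (by decide +kernel) r668 r669

theorem j662 : Ref (sa2 (sa0 (sa1 R0))) (sa1 (sb0 (sb2 (sb1 R1)))) (sb1 (sa1 (sa0 (sb2 R2)))) (sa2 (sb2 (sa1 (sb0 R3)))) :=
  Ref.s12 (by decide +kernel) j661 r670

theorem j663 : Ref (sa2 (sa0 (sa1 R0))) (sb0 (sb2 (sb1 R1))) (sb1 (sa1 (sa0 (sb2 R2)))) (sa2 (sb2 (sa1 (sb0 R3)))) :=
  Ref.s11 (by decide +kernel) j662 r671

theorem j664 : Ref (sa2 (sa0 (sa1 R0))) (sb0 (sb2 (sb1 R1))) (sa1 (sa0 (sb2 R2))) (sa2 (sb2 (sa1 (sb0 R3)))) :=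
  Ref.s21 (by decide +kernel) j660 j663

theorem j665 : Ref (sa1 (sa2 (sa0 (sa1 R0)))) (sb0 (sb2 (sb1 R1))) (sa2 (sa1 (sa0 (sb2 R2)))) (sb1 (sb2 (sb2 (sa1 (sb0 R3))))) :=
  Ref.s12 (by decide +kernel) r673 r674

theorem j666 : Ref (sa2 (sa0 (sa1 R0))) (sb0 (sb2 (sb1 R1))) (sa2 (sa1 (sa0 (sb2 R2)))) (sb1 (sb2 (sb2 (sa1 (sb0 R3))))) :=
  Ref.s01 (by decide +kernel) j665 r675

theorem j667 : Ref (sa2 (sa0 (sa1 R0))) (sb0 (sb2 (sb1 R1))) (sa1 (sa0 (sb2 R2))) (sb1 (sb2 (sb2 (sa1 (sb0 R3))))) :=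
  Ref.s22 (by decide +kernel) j666 r676

theorem j668 : Ref (sa2 (sa0 (sa1 R0))) (sb0 (sb2 (sb1 R1))) (sa1 (sa0 (sb2 R2))) (sb2 (sb2 (sa1 (sb0 R3)))) :=
  Ref.s31 (by decide +kernel) r672 j667

theorem j669 : Ref (sa2 (sa0 (sa1 R0))) (sb0 (sb2 (sb1 R1))) (sa1 (sa0 (sb2 R2))) (sb2 (sa1 (sb0 R3))) :=
  Ref.s32 (by decide +kernel) j664 j668

theorem j670 : Ref (sa2 (sa0 (sa1 R0))) (sb0 (sb2 (sb1 R1))) (sa1 (sb1 (sa0 (sb2 R2)))) (sb2 (sa1 (sb0 R3))) :=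
  Ref.s32 (by decide +kernel) r677 r678

theorem j671 : Ref (sa2 (sa0 (sa1 R0))) (sb0 (sb2 (sb1 R1))) (sb1 (sa0 (sb2 R2))) (sb2 (sa1 (sb0 R3))) :=
  Ref.s21 (by decide +kernel) j670 r679

theorem j672 : Ref (sa2 (sa0 (sa1 R0))) (sb0 (sb2 (sb1 R1))) (sa0 (sb2 R2)) (sb2 (sa1 (sb0 R3))) :=
  Ref.s21 (by decide +kernel) j669 j671

theorem j673 : Ref (sa0 (sa1 R0)) (sb0 (sb2 (sb1 R1))) (sa0 (sb2 R2)) (sb2 (sa1 (sb0 R3))) :=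
  Ref.s02 (by decide +kernel) j672 r680

theorem j674 : Ref (sb2 (sb0 (sa1 R0))) (sb0 (sb2 (sb1 R1))) (sa2 (sa1 (sa0 (sb2 R2)))) (sa2 (sb2 (sa1 (sb0 R3)))) :=
  Ref.s12 (by decide +kernel) r682 r683

theorem j675 : Ref (sb2 (sb0 (sa1 R0))) (sb0 (sb2 (sb1 R1))) (sa2 (sa1 (sa0 (sb2 R2)))) (sb2 (sa1 (sb0 R3))) :=
  Ref.s32 (by decide +kernel) j674 r684

theorem j676 : Ref (sb0 (sa1 R0)) (sb0 (sb2 (sb1 R1))) (sa2 (sa1 (sa0 (sb2 R2)))) (sb2 (sa1 (sb0 R3))) :=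
  Ref.s02 (by decide +kernel) r681 j675

theorem j677 : Ref (sb0 (sa1 R0)) (sb0 (sb2 (sb1 R1))) (sa1 (sa0 (sb2 R2))) (sb2 (sa1 (sb0 R3))) :=
  Ref.s22 (by decide +kernel) j676 r685

theorem j678 : Ref (sb0 (sa1 R0)) (sb0 (sb2 (sb1 R1))) (sa0 (sb2 R2)) (sb2 (sa1 (sb0 R3))) :=
  Ref.s21 (by decide +kernel) j677 r686

theorem j679 : Ref (sa1 R0) (sb0 (sb2 (sb1 R1))) (sa0 (sb2 R2)) (sb2 (sa1 (sb0 R3))) :=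
  Ref.s00 (by decide +kernel) j673 j678

theorem j680 : Ref (sa2 (sa0 (sa1 R0))) (sb0 (sb0 (sb2 (sb1 R1)))) (sb1 (sb0 (sb2 R2))) (sa2 (sb2 (sa1 (sb0 R3)))) :=
  Ref.s00 (by decide +kernel) r689 r690

theorem j681 : Ref (sa2 (sa0 (sa1 R0))) (sb0 (sb2 (sb1 R1))) (sb1 (sb0 (sb2 R2))) (sa2 (sb2 (sa1 (sb0 R3)))) :=
  Ref.s10 (by decide +kernel) r688 j680

theorem j682 : Ref (sa2 (sa0 (sa1 R0))) (sb0 (sb2 (sb1 R1))) (sb1 (sb0 (sb2 R2))) (sb2 (sa1 (sb0 R3))) :=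
  Ref.s32 (by decide +kernel) j681 r691

theorem j683 : Ref (sa0 (sa1 R0)) (sb0 (sb2 (sb1 R1))) (sb1 (sb0 (sb2 R2))) (sb2 (sa1 (sb0 R3))) :=
  Ref.s02 (by decide +kernel) j682 r692

theorem j684 : Ref (sa2 (sb2 (sb0 (sa1 R0)))) (sb0 (sb2 (sb1 R1))) (sb1 (sb0 (sb2 R2))) (sa2 (sb2 (sa1 (sb0 R3)))) :=
  Ref.s11 (by decide +kernel) r694 r695

theorem j685 : Ref (sb2 (sb0 (sa1 R0))) (sb0 (sb2 (sb1 R1))) (sb1 (sb0 (sb2 R2))) (sa2 (sb2 (sa1 (sb0 R3)))) :=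
  Ref.s02 (by decide +kernel) j684 r696

theorem j686 : Ref (sb2 (sb0 (sa1 R0))) (sb0 (sb2 (sb1 R1))) (sb1 (sb0 (sb2 R2))) (sb2 (sa1 (sb0 R3))) :=
  Ref.s32 (by decide +kernel) j685 r697

theorem j687 : Ref (sb0 (sa1 R0)) (sb0 (sb2 (sb1 R1))) (sb1 (sb0 (sb2 R2))) (sb2 (sa1 (sb0 R3))) :=
  Ref.s02 (by decide +kernel) r693 j686

theorem j688 : Ref (sa1 R0) (sb0 (sb2 (sb1 R1))) (sb1 (sb0 (sb2 R2))) (sb2 (sa1 (sb0 R3))) :=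
  Ref.s00 (by decide +kernel) j683 j687

theorem j689 : Ref (sa1 R0) (sb0 (sb2 (sb1 R1))) (sb0 (sb2 R2)) (sb2 (sa1 (sb0 R3))) :=
  Ref.s21 (by decide +kernel) r687 j688

theorem j690 : Ref (sa1 R0) (sb0 (sb2 (sb1 R1))) (sb2 R2) (sb2 (sa1 (sb0 R3))) :=
  Ref.s20 (by decide +kernel) j679 j689

theorem j691 : Ref (sa1 R0) (sb2 (sb1 R1)) (sb2 R2) (sb2 (sa1 (sb0 R3))) :=
  Ref.s10 (by decide +kernel) r662 j690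

theorem j692 : Ref (sa1 R0) (sb2 (sb1 R1)) R2 (sb2 (sa1 (sb0 R3))) :=
  Ref.s22 (by decide +kernel) r661 j691

theorem j693 : Ref (sa1 R0) (sb1 R1) R2 (sb2 (sa1 (sb0 R3))) :=
  Ref.s12 (by decide +kernel) j656 j692

theorem j694 : Ref (sa1 R0) R1 R2 (sb2 (sa1 (sb0 R3))) :=
  Ref.s11 (by decide +kernel) j651 j693

theorem j695 : Ref (sa0 (sb1 R0)) R1 (sa0 (sa1 R2)) (sb2 (sa1 (sb0 R3))) :=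
  Ref.s22 (by decide +kernel) r698 r699

theorem j696 : Ref (sa0 (sb1 R0)) R1 (sa1 R2) (sb2 (sa1 (sb0 R3))) :=
  Ref.s20 (by decide +kernel) j695 r700

theorem j697 : Ref (sa0 (sb1 R0)) R1 R2 (sb2 (sa1 (sb0 R3))) :=
  Ref.s21 (by decide +kernel) j696 r701

theorem j698 : Ref (sb0 (sb1 R0)) (sa1 R1) (sa2 (sa0 (sa1 R2))) (sb2 (sa1 (sb0 R3))) :=
  Ref.s10 (by decide +kernel) r702 r703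

theorem j699 : Ref (sb0 (sb1 R0)) (sa1 R1) (sa0 (sa1 R2)) (sb2 (sa1 (sb0 R3))) :=
  Ref.s22 (by decide +kernel) j698 r704

theorem j700 : Ref (sb0 (sb1 R0)) (sa1 R1) (sa1 R2) (sb2 (sa1 (sb0 R3))) :=
  Ref.s20 (by decide +kernel) j699 r705

theorem j701 : Ref (sb2 (sb0 (sb1 R0))) (sa1 R1) (sb2 (sb1 R2)) (sb2 (sa1 (sb0 R3))) :=
  Ref.s20 (by decide +kernel) r708 r709

theorem j702 : Ref (sb2 (sb0 (sb1 R0))) (sa1 R1) (sb1 R2) (sb2 (sa1 (sb0 R3))) :=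
  Ref.s22 (by decide +kernel) r707 j701

theorem j703 : Ref (sb0 (sb1 R0)) (sa1 R1) (sb1 R2) (sb2 (sa1 (sb0 R3))) :=
  Ref.s02 (by decide +kernel) r706 j702

theorem j704 : Ref (sb0 (sb1 R0)) (sa1 R1) R2 (sb2 (sa1 (sb0 R3))) :=
  Ref.s21 (by decide +kernel) j700 j703

theorem j705 : Ref (sb2 (sb0 (sb1 R0))) (sa0 (sb1 R1)) (sb2 R2) (sb2 (sa1 (sb0 R3))) :=
  Ref.s20 (by decide +kernel) r712 r713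

theorem j706 : Ref (sb0 (sb1 R0)) (sa0 (sb1 R1)) (sb2 R2) (sb2 (sa1 (sb0 R3))) :=
  Ref.s02 (by decide +kernel) r711 j705

theorem j707 : Ref (sb2 (sb0 (sb1 R0))) (sb2 (sb0 (sb1 R1))) (sb1 (sa0 (sa1 (sb2 R2)))) (sb2 (sa1 (sb0 R3))) :=
  Ref.s02 (by decide +kernel) r717 r718

theorem j708 : Ref (sb2 (sb0 (sb1 R0))) (sb2 (sb0 (sb1 R1))) (sa0 (sa1 (sb2 R2))) (sb2 (sa1 (sb0 R3))) :=
  Ref.s21 (by decide +kernel) r716 j707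

theorem j709 : Ref (sb2 (sb0 (sb1 R0))) (sb2 (sb0 (sb1 R1))) (sa1 (sb2 R2)) (sb2 (sa1 (sb0 R3))) :=
  Ref.s20 (by decide +kernel) j708 r719

theorem j710 : Ref (sb2 (sb0 (sb1 R0))) (sa1 (sb2 (sb0 (sb1 R1)))) (sb2 (sb0 (sb1 (sb2 R2)))) (sb2 (sa1 (sb0 R3))) :=
  Ref.s12 (by decide +kernel) r722 r723

theorem j711 : Ref (sb2 (sb0 (sb1 R0))) (sb2 (sb0 (sb1 R1))) (sb2 (sb0 (sb1 (sb2 R2)))) (sb2 (sa1 (sb0 R3))) :=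
  Ref.s11 (by decide +kernel) j710 r724

theorem j712 : Ref (sb2 (sb0 (sb1 R0))) (sb2 (sb0 (sb1 R1))) (sb0 (sb1 (sb2 R2))) (sb2 (sa1 (sb0 R3))) :=
  Ref.s22 (by decide +kernel) r721 j711

theorem j713 : Ref (sb2 (sb0 (sb1 R0))) (sb2 (sb0 (sb1 R1))) (sb1 (sb2 R2)) (sb2 (sa1 (sb0 R3))) :=
  Ref.s20 (by decide +kernel) r720 j712

theorem j714 : Ref (sb2 (sb0 (sb1 R0))) (sb2 (sb0 (sb1 R1))) (sb2 R2) (sb2 (sa1 (sb0 R3))) :=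
  Ref.s21 (by decide +kernel) j709 j713

theorem j715 : Ref (sb2 (sb0 (sb1 R0))) (sb0 (sb1 R1)) (sb2 R2) (sb2 (sa1 (sb0 R3))) :=
  Ref.s12 (by decide +kernel) r715 j714

theorem j716 : Ref (sb0 (sb1 R0)) (sb0 (sb1 R1)) (sb2 R2) (sb2 (sa1 (sb0 R3))) :=
  Ref.s02 (by decide +kernel) r714 j715

theorem j717 : Ref (sb0 (sb1 R0)) (sb1 R1) (sb2 R2) (sb2 (sa1 (sb0 R3))) :=
  Ref.s10 (by decide +kernel) j706 j716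

theorem j718 : Ref (sb0 (sb1 R0)) (sb1 R1) R2 (sb2 (sa1 (sb0 R3))) :=
  Ref.s22 (by decide +kernel) r710 j717

theorem j719 : Ref (sb0 (sb1 R0)) R1 R2 (sb2 (sa1 (sb0 R3))) :=
  Ref.s11 (by decide +kernel) j704 j718

theorem j720 : Ref (sb1 R0) R1 R2 (sb2 (sa1 (sb0 R3))) :=
  Ref.s00 (by decide +kernel) j697 j719

theorem j721 : Ref R0 R1 R2 (sb2 (sa1 (sb0 R3))) :=
  Ref.s01 (by decide +kernel) j694 j720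

theorem j722 : Ref R0 R1 R2 (sa1 (sb0 R3)) :=
  Ref.s32 (by decide +kernel) j617 j721

theorem j723 : Ref (sb2 (sa1 (sb2 (sa1 (sa1 (sa2 (sa0 R0))))))) (sa2 (sb0 (sa0 (sa2 (sa1 (sa0 R1)))))) (sa1 (sa0 (sb1 (sa0 (sa2 (sa1 R2)))))) (sa2 (sa1 (sb2 (sa1 (sb2 (sb1 (sb0 R3))))))) :=
  Ref.s30 (by decide +kernel) r731 r732

theorem j724 : Ref (sb2 (sa1 (sb2 (sa1 (sa1 (sa2 (sa0 R0))))))) (sa2 (sb0 (sa0 (sa2 (sa1 (sa0 R1)))))) (sa0 (sb1 (sa0 (sa2 (sa1 R2))))) (sa2 (sa1 (sb2 (sa1 (sb2 (sb1 (sb0 R3))))))) :=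
  Ref.s21 (by decide +kernel) j723 r733

theorem j725 : Ref (sb2 (sa1 (sb2 (sa1 (sa1 (sa2 (sa0 R0))))))) (sa2 (sb0 (sa0 (sa2 (sa1 (sa0 R1)))))) (sa0 (sb1 (sa0 (sa2 (sa1 R2))))) (sa1 (sb2 (sa1 (sb2 (sb1 (sb0 R3)))))) :=
  Ref.s32 (by decide +kernel) j724 r734

theorem j726 : Ref (sb2 (sa1 (sb2 (sa1 (sa1 (sa2 (sa0 R0))))))) (sb0 (sa0 (sa2 (sa1 (sa0 R1))))) (sa0 (sb1 (sa0 (sa2 (sa1 R2))))) (sa1 (sb2 (sa1 (sb2 (sb1 (sb0 R3)))))) :=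
  Ref.s12 (by decide +kernel) j725 r735

theorem j727 : Ref (sb2 (sa1 (sb2 (sa1 (sa1 (sa2 (sa0 R0))))))) (sa0 (sa2 (sa1 (sa0 R1)))) (sa0 (sb1 (sa0 (sa2 (sa1 R2))))) (sa1 (sb2 (sa1 (sb2 (sb1 (sb0 R3)))))) :=
  Ref.s10 (by decide +kernel) r730 j726

theorem j728 : Ref (sb2 (sa1 (sb2 (sa1 (sa1 (sa2 (sa0 R0))))))) (sa0 (sa2 (sa1 (sa0 R1)))) (sa0 (sb1 (sa0 (sa2 (sa1 R2))))) (sb2 (sa1 (sb2 (sb1 (sb0 R3))))) :=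
  Ref.s31 (by decide +kernel) j727 r736

theorem j729 : Ref (sa1 (sb2 (sa1 (sa1 (sa2 (sa0 R0)))))) (sa0 (sa2 (sa1 (sa0 R1)))) (sa0 (sb1 (sa0 (sa2 (sa1 R2))))) (sb2 (sa1 (sb2 (sb1 (sb0 R3))))) :=
  Ref.s02 (by decide +kernel) r729 j728

theorem j730 : Ref (sb2 (sa1 (sa1 (sa2 (sa0 R0))))) (sa0 (sa2 (sa1 (sa0 R1)))) (sa0 (sb1 (sa0 (sa2 (sa1 R2))))) (sb2 (sa1 (sb2 (sb1 (sb0 R3))))) :=
  Ref.s01 (by decide +kernel) j729 r737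

theorem j731 : Ref (sa1 (sa1 (sa2 (sa0 R0)))) (sa0 (sa2 (sa1 (sa0 R1)))) (sa0 (sb1 (sa0 (sa2 (sa1 R2))))) (sb2 (sa1 (sb2 (sb1 (sb0 R3))))) :=
  Ref.s02 (by decide +kernel) r728 j730

theorem j732 : Ref (sa1 (sa2 (sa0 R0))) (sa0 (sa2 (sa1 (sa0 R1)))) (sa0 (sb1 (sa0 (sa2 (sa1 R2))))) (sb2 (sa1 (sb2 (sb1 (sb0 R3))))) :=
  Ref.s01 (by decide +kernel) j731 r738

theorem j733 : Ref (sb2 (sa1 (sa1 (sa2 (sa0 R0))))) (sb0 (sa2 (sa1 (sa0 R1)))) (sa0 (sb1 (sa0 (sa2 (sa1 R2))))) (sb2 (sa1 (sb2 (sb1 (sb0 R3))))) :=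
  Ref.s12 (by decide +kernel) r740 r741

theorem j734 : Ref (sa1 (sa1 (sa2 (sa0 R0)))) (sb0 (sa2 (sa1 (sa0 R1)))) (sa0 (sb1 (sa0 (sa2 (sa1 R2))))) (sb2 (sa1 (sb2 (sb1 (sb0 R3))))) :=
  Ref.s02 (by decide +kernel) r739 j733

theorem j735 : Ref (sa1 (sa2 (sa0 R0))) (sb0 (sa2 (sa1 (sa0 R1)))) (sa0 (sb1 (sa0 (sa2 (sa1 R2))))) (sb2 (sa1 (sb2 (sb1 (sb0 R3))))) :=
  Ref.s01 (by decide +kernel) j734 r742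

theorem j736 : Ref (sa1 (sa2 (sa0 R0))) (sa2 (sa1 (sa0 R1))) (sa0 (sb1 (sa0 (sa2 (sa1 R2))))) (sb2 (sa1 (sb2 (sb1 (sb0 R3))))) :=
  Ref.s10 (by decide +kernel) j732 j735

theorem j737 : Ref (sa1 (sa2 (sa0 R0))) (sa2 (sa1 (sa0 R1))) (sb1 (sa0 (sa2 (sa1 R2)))) (sb2 (sa1 (sb2 (sb1 (sb0 R3))))) :=
  Ref.s20 (by decide +kernel) j736 r743

theorem j738 : Ref (sa1 (sa2 (sa0 R0))) (sa2 (sa1 (sa0 R1))) (sb1 (sa0 (sa2 (sa1 R2)))) (sa1 (sb2 (sb1 (sb0 R3)))) :=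
  Ref.s32 (by decide +kernel) r727 j737

theorem j739 : Ref (sa1 (sa2 (sa0 R0))) (sa2 (sa1 (sa0 R1))) (sa0 (sa2 (sa1 R2))) (sa1 (sb2 (sb1 (sb0 R3)))) :=
  Ref.s21 (by decide +kernel) r726 j738

theorem j740 : Ref (sa1 (sa2 (sa0 R0))) (sa2 (sa1 (sa0 R1))) (sa0 (sa2 (sa1 R2))) (sb2 (sb1 (sb0 R3))) :=
  Ref.s31 (by decide +kernel) j739 r744

theorem j741 : Ref (sa1 (sa2 (sa0 R0))) (sa2 (sa1 (sa0 R1))) (sa2 (sa1 R2)) (sb2 (sb1 (sb0 R3))) :=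
  Ref.s20 (by decide +kernel) j740 r745

theorem j742 : Ref (sa1 (sa2 (sa0 R0))) (sa2 (sa1 (sa0 R1))) (sb2 (sa1 R2)) (sb2 (sb1 (sb0 R3))) :=
  Ref.s30 (by decide +kernel) r746 r747

theorem j743 : Ref (sa1 (sa2 (sa0 R0))) (sa2 (sa1 (sa0 R1))) (sa1 R2) (sb2 (sb1 (sb0 R3))) :=
  Ref.s22 (by decide +kernel) j741 j742

theorem j744 : Ref (sa1 (sa2 (sa0 R0))) (sa1 (sa0 R1)) (sa1 R2) (sb2 (sb1 (sb0 R3))) :=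
  Ref.s12 (by decide +kernel) j743 r748

theorem j745 : Ref (sa2 (sa0 R0)) (sa1 (sa0 R1)) (sa1 R2) (sb2 (sb1 (sb0 R3))) :=
  Ref.s01 (by decide +kernel) j744 r749

theorem j746 : Ref (sa1 (sa2 (sa0 R0))) (sa2 (sa1 (sa0 R1))) (sb0 (sa1 (sb0 (sb2 (sb1 R2))))) (sb2 (sb1 (sb0 R3))) :=
  Ref.s00 (by decide +kernel) r753 r754

theorem j747 : Ref (sa1 (sa2 (sa0 R0))) (sa2 (sa1 (sa0 R1))) (sa1 (sb0 (sb2 (sb1 R2)))) (sb2 (sb1 (sb0 R3))) :=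
  Ref.s20 (by decide +kernel) r752 j746

theorem j748 : Ref (sa1 (sa2 (sa0 R0))) (sa2 (sa1 (sa0 R1))) (sb0 (sb2 (sb1 R2))) (sb2 (sb1 (sb0 R3))) :=
  Ref.s21 (by decide +kernel) j747 r755

theorem j749 : Ref (sa1 (sa2 (sa0 R0))) (sa1 (sa0 R1)) (sb0 (sb2 (sb1 R2))) (sb2 (sb1 (sb0 R3))) :=
  Ref.s12 (by decide +kernel) j748 r756

theorem j750 : Ref (sa2 (sa0 R0)) (sa1 (sa0 R1)) (sb0 (sb2 (sb1 R2))) (sb2 (sb1 (sb0 R3))) :=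
  Ref.s01 (by decide +kernel) j749 r757

theorem j751 : Ref (sa2 (sa0 R0)) (sa1 (sa0 R1)) (sb2 (sb1 R2)) (sb2 (sb1 (sb0 R3))) :=
  Ref.s20 (by decide +kernel) r751 j750

theorem j752 : Ref (sa2 (sa0 R0)) (sa1 (sa0 R1)) (sb1 R2) (sb2 (sb1 (sb0 R3))) :=
  Ref.s22 (by decide +kernel) r750 j751

theorem j753 : Ref (sa2 (sa0 R0)) (sa1 (sa0 R1)) R2 (sb2 (sb1 (sb0 R3))) :=
  Ref.s21 (by decide +kernel) j745 j752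

theorem j754 : Ref (sa1 (sb2 (sa0 R0))) (sa2 (sa1 (sa0 R1))) (sa2 (sa0 R2)) (sb2 (sb1 (sb0 R3))) :=
  Ref.s10 (by decide +kernel) r758 r759

theorem j755 : Ref (sa1 (sb2 (sa0 R0))) (sa1 (sa0 R1)) (sa2 (sa0 R2)) (sb2 (sb1 (sb0 R3))) :=
  Ref.s12 (by decide +kernel) j754 r760

theorem j756 : Ref (sa1 (sb2 (sa0 R0))) (sa1 (sa0 R1)) (sa0 R2) (sb2 (sb1 (sb0 R3))) :=
  Ref.s22 (by decide +kernel) j755 r761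

theorem j757 : Ref (sa2 (sb0 (sb0 (sa1 (sb1 (sb2 (sa0 R0))))))) (sa0 (sb0 (sb1 (sa0 (sa2 (sa2 (sa1 (sa0 R1)))))))) (sa2 (sb0 (sa1 (sb2 (sa0 (sa2 (sa1 (sa0 R2)))))))) (sa1 (sa0 (sa2 (sa1 (sb2 (sa1 (sb2 (sb1 (sb0 R3))))))))) :=
  Ref.s02 (by decide +kernel) r769 r770

theorem j758 : Ref (sa2 (sb0 (sb0 (sa1 (sb1 (sb2 (sa0 R0))))))) (sa0 (sb0 (sb1 (sa0 (sa2 (sa2 (sa1 (sa0 R1)))))))) (sb0 (sa1 (sb2 (sa0 (sa2 (sa1 (sa0 R2))))))) (sa1 (sa0 (sa2 (sa1 (sb2 (sa1 (sb2 (sb1 (sb0 R3))))))))) :=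
  Ref.s22 (by decide +kernel) j757 r771

theorem j759 : Ref (sa2 (sb0 (sb0 (sa1 (sb1 (sb2 (sa0 R0))))))) (sa0 (sb0 (sb1 (sa0 (sa2 (sa2 (sa1 (sa0 R1)))))))) (sb0 (sa1 (sb2 (sa0 (sa2 (sa1 (sa0 R2))))))) (sa0 (sa2 (sa1 (sb2 (sa1 (sb2 (sb1 (sb0 R3)))))))) :=
  Ref.s31 (by decide +kernel) j758 r772

theorem j760 : Ref (sa2 (sb0 (sb0 (sa1 (sb1 (sb2 (sa0 R0))))))) (sb0 (sb1 (sa0 (sa2 (sa2 (sa1 (sa0 R1))))))) (sb0 (sa1 (sb2 (sa0 (sa2 (sa1 (sa0 R2))))))) (sa0 (sa2 (sa1 (sb2 (sa1 (sb2 (sb1 (sb0 R3)))))))) :=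
  Ref.s10 (by decide +kernel) j759 r773

theorem j761 : Ref (sa2 (sb0 (sb0 (sa1 (sb1 (sb2 (sa0 R0))))))) (sb0 (sb1 (sa0 (sa2 (sa2 (sa1 (sa0 R1))))))) (sa1 (sb2 (sa0 (sa2 (sa1 (sa0 R2)))))) (sa0 (sa2 (sa1 (sb2 (sa1 (sb2 (sb1 (sb0 R3)))))))) :=
  Ref.s20 (by decide +kernel) r768 j760

theorem j762 : Ref (sa2 (sb0 (sb0 (sa1 (sb1 (sb2 (sa0 R0))))))) (sb0 (sb1 (sa0 (sa2 (sa2 (sa1 (sa0 R1))))))) (sa1 (sb2 (sa0 (sa2 (sa1 (sa0 R2)))))) (sa2 (sa1 (sb2 (sa1 (sb2 (sb1 (sb0 R3))))))) :=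
  Ref.s30 (by decide +kernel) j761 r774

theorem j763 : Ref (sa2 (sb0 (sb0 (sa1 (sb1 (sb2 (sa0 R0))))))) (sb0 (sb1 (sa0 (sa2 (sa2 (sa1 (sa0 R1))))))) (sa1 (sb2 (sa0 (sa2 (sa1 (sa0 R2)))))) (sa1 (sb2 (sa1 (sb2 (sb1 (sb0 R3)))))) :=
  Ref.s32 (by decide +kernel) j762 r775

theorem j764 : Ref (sa2 (sb0 (sb0 (sa1 (sb1 (sb2 (sa0 R0))))))) (sb0 (sb1 (sa0 (sa2 (sa2 (sa1 (sa0 R1))))))) (sb2 (sa0 (sa2 (sa1 (sa0 R2))))) (sa1 (sb2 (sa1 (sb2 (sb1 (sb0 R3)))))) :=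
  Ref.s21 (by decide +kernel) j763 r776

theorem j765 : Ref (sb0 (sb0 (sa1 (sb1 (sb2 (sa0 R0)))))) (sb0 (sb1 (sa0 (sa2 (sa2 (sa1 (sa0 R1))))))) (sb2 (sa0 (sa2 (sa1 (sa0 R2))))) (sa1 (sb2 (sa1 (sb2 (sb1 (sb0 R3)))))) :=
  Ref.s02 (by decide +kernel) j764 r777

theorem j766 : Ref (sb0 (sb0 (sa1 (sb1 (sb2 (sa0 R0)))))) (sb1 (sa0 (sa2 (sa2 (sa1 (sa0 R1)))))) (sb2 (sa0 (sa2 (sa1 (sa0 R2))))) (sa1 (sb2 (sa1 (sb2 (sb1 (sb0 R3)))))) :=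
  Ref.s10 (by decide +kernel) r767 j765

theorem j767 : Ref (sb0 (sb0 (sa1 (sb1 (sb2 (sa0 R0)))))) (sa0 (sa2 (sa2 (sa1 (sa0 R1))))) (sb2 (sa0 (sa2 (sa1 (sa0 R2))))) (sa1 (sb2 (sa1 (sb2 (sb1 (sb0 R3)))))) :=
  Ref.s11 (by decide +kernel) r766 j766

theorem j768 : Ref (sb0 (sa1 (sb1 (sb2 (sa0 R0))))) (sa0 (sa2 (sa2 (sa1 (sa0 R1))))) (sb2 (sa0 (sa2 (sa1 (sa0 R2))))) (sa1 (sb2 (sa1 (sb2 (sb1 (sb0 R3)))))) :=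
  Ref.s00 (by decide +kernel) r765 j767

theorem j769 : Ref (sb0 (sa1 (sb1 (sb2 (sa0 R0))))) (sa0 (sa2 (sa2 (sa1 (sa0 R1))))) (sa0 (sa2 (sa1 (sa0 R2)))) (sa1 (sb2 (sa1 (sb2 (sb1 (sb0 R3)))))) :=
  Ref.s22 (by decide +kernel) r764 j768

theorem j770 : Ref (sb0 (sa1 (sb1 (sb2 (sa0 R0))))) (sa0 (sa2 (sa2 (sa1 (sa0 R1))))) (sa0 (sa2 (sa1 (sa0 R2)))) (sb2 (sa1 (sb2 (sb1 (sb0 R3))))) :=
  Ref.s31 (by decide +kernel) j769 r778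

theorem j771 : Ref (sb0 (sa1 (sb1 (sb2 (sa0 R0))))) (sa2 (sa2 (sa1 (sa0 R1)))) (sa0 (sa2 (sa1 (sa0 R2)))) (sb2 (sa1 (sb2 (sb1 (sb0 R3))))) :=
  Ref.s10 (by decide +kernel) j770 r779

theorem j772 : Ref (sb0 (sa1 (sb1 (sb2 (sa0 R0))))) (sb2 (sa2 (sa1 (sa0 R1)))) (sa0 (sa2 (sa1 (sa0 R2)))) (sb2 (sa1 (sb2 (sb1 (sb0 R3))))) :=
  Ref.s10 (by decide +kernel) r780 r781

theorem j773 : Ref (sb0 (sa1 (sb1 (sb2 (sa0 R0))))) (sa2 (sa1 (sa0 R1))) (sa0 (sa2 (sa1 (sa0 R2)))) (sb2 (sa1 (sb2 (sb1 (sb0 R3))))) :=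
  Ref.s12 (by decide +kernel) j771 j772

theorem j774 : Ref (sa1 (sb1 (sb2 (sa0 R0)))) (sa2 (sa1 (sa0 R1))) (sa0 (sa2 (sa1 (sa0 R2)))) (sb2 (sa1 (sb2 (sb1 (sb0 R3))))) :=
  Ref.s00 (by decide +kernel) r763 j773

theorem j775 : Ref (sa1 (sb1 (sb2 (sa0 R0)))) (sa2 (sa1 (sa0 R1))) (sa0 (sa2 (sa1 (sa0 R2)))) (sa1 (sb2 (sb1 (sb0 R3)))) :=
  Ref.s32 (by decide +kernel) r762 j774

theorem j776 : Ref (sb0 (sa2 (sa2 (sb0 (sb0 (sb1 (sb1 (sb2 (sa0 R0))))))))) (sb0 (sb1 (sa0 (sa2 (sa2 (sa1 (sa0 R1))))))) (sb2 (sa0 (sa2 (sa1 (sa0 R2))))) (sa1 (sb2 (sa1 (sb2 (sb1 (sb0 R3)))))) :=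
  Ref.s21 (by decide +kernel) r789 r790

theorem j777 : Ref (sb0 (sa2 (sa2 (sb0 (sb0 (sb1 (sb1 (sb2 (sa0 R0))))))))) (sb0 (sb1 (sa0 (sa2 (sa2 (sa1 (sa0 R1))))))) (sa0 (sa2 (sa1 (sa0 R2)))) (sa1 (sb2 (sa1 (sb2 (sb1 (sb0 R3)))))) :=
  Ref.s22 (by decide +kernel) r788 j776

theorem j778 : Ref (sa2 (sa2 (sb0 (sb0 (sb1 (sb1 (sb2 (sa0 R0)))))))) (sb0 (sb1 (sa0 (sa2 (sa2 (sa1 (sa0 R1))))))) (sa0 (sa2 (sa1 (sa0 R2)))) (sa1 (sb2 (sa1 (sb2 (sb1 (sb0 R3)))))) :=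
  Ref.s00 (by decide +kernel) r787 j777

theorem j779 : Ref (sa2 (sb0 (sb0 (sb1 (sb1 (sb2 (sa0 R0))))))) (sb0 (sb1 (sa0 (sa2 (sa2 (sa1 (sa0 R1))))))) (sa0 (sa2 (sa1 (sa0 R2)))) (sa1 (sb2 (sa1 (sb2 (sb1 (sb0 R3)))))) :=
  Ref.s02 (by decide +kernel) j778 r791

theorem j780 : Ref (sa2 (sb0 (sb0 (sb1 (sb1 (sb2 (sa0 R0))))))) (sb0 (sb1 (sa0 (sa2 (sa2 (sa1 (sa0 R1))))))) (sa0 (sa2 (sa1 (sa0 R2)))) (sb2 (sa1 (sb2 (sb1 (sb0 R3))))) :=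
  Ref.s31 (by decide +kernel) j779 r792

theorem j781 : Ref (sa2 (sb0 (sb0 (sb1 (sb1 (sb2 (sa0 R0))))))) (sb1 (sa0 (sa2 (sa2 (sa1 (sa0 R1)))))) (sa0 (sa2 (sa1 (sa0 R2)))) (sb2 (sa1 (sb2 (sb1 (sb0 R3))))) :=
  Ref.s10 (by decide +kernel) r786 j780

theorem j782 : Ref (sb0 (sb0 (sb1 (sb1 (sb2 (sa0 R0)))))) (sb1 (sa0 (sa2 (sa2 (sa1 (sa0 R1)))))) (sa0 (sa2 (sa1 (sa0 R2)))) (sb2 (sa1 (sb2 (sb1 (sb0 R3))))) :=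
  Ref.s02 (by decide +kernel) j781 r793

theorem j783 : Ref (sb0 (sb0 (sb1 (sb1 (sb2 (sa0 R0)))))) (sa0 (sa2 (sa2 (sa1 (sa0 R1))))) (sa0 (sa2 (sa1 (sa0 R2)))) (sb2 (sa1 (sb2 (sb1 (sb0 R3))))) :=
  Ref.s11 (by decide +kernel) r785 j782

theorem j784 : Ref (sb0 (sb0 (sb1 (sb1 (sb2 (sa0 R0)))))) (sa2 (sa2 (sa1 (sa0 R1)))) (sa0 (sa2 (sa1 (sa0 R2)))) (sb2 (sa1 (sb2 (sb1 (sb0 R3))))) :=
  Ref.s10 (by decide +kernel) j783 r794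

theorem j785 : Ref (sb0 (sb1 (sb1 (sb2 (sa0 R0))))) (sa2 (sa2 (sa1 (sa0 R1)))) (sa0 (sa2 (sa1 (sa0 R2)))) (sb2 (sa1 (sb2 (sb1 (sb0 R3))))) :=
  Ref.s00 (by decide +kernel) r784 j784

theorem j786 : Ref (sb0 (sb1 (sb1 (sb2 (sa0 R0))))) (sb2 (sa2 (sa1 (sa0 R1)))) (sa0 (sa2 (sa1 (sa0 R2)))) (sb2 (sa1 (sb2 (sb1 (sb0 R3))))) :=
  Ref.s10 (by decide +kernel) r795 r796

theorem j787 : Ref (sb0 (sb1 (sb1 (sb2 (sa0 R0))))) (sa2 (sa1 (sa0 R1))) (sa0 (sa2 (sa1 (sa0 R2)))) (sb2 (sa1 (sb2 (sb1 (sb0 R3))))) :=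
  Ref.s12 (by decide +kernel) j785 j786

theorem j788 : Ref (sb0 (sb1 (sb1 (sb2 (sa0 R0))))) (sa2 (sa1 (sa0 R1))) (sa0 (sa2 (sa1 (sa0 R2)))) (sa1 (sb2 (sb1 (sb0 R3)))) :=
  Ref.s32 (by decide +kernel) r783 j787

theorem j789 : Ref (sb1 (sb1 (sb2 (sa0 R0)))) (sa2 (sa1 (sa0 R1))) (sa0 (sa2 (sa1 (sa0 R2)))) (sa1 (sb2 (sb1 (sb0 R3)))) :=
  Ref.s00 (by decide +kernel) r782 j788

theorem j790 : Ref (sb1 (sb2 (sa0 R0))) (sa2 (sa1 (sa0 R1))) (sa0 (sa2 (sa1 (sa0 R2)))) (sa1 (sb2 (sb1 (sb0 R3)))) :=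
  Ref.s01 (by decide +kernel) j775 j789

theorem j791 : Ref (sb1 (sb2 (sa0 R0))) (sa2 (sa1 (sa0 R1))) (sa0 (sa2 (sa1 (sa0 R2)))) (sb2 (sb1 (sb0 R3))) :=
  Ref.s31 (by decide +kernel) j790 r797

theorem j792 : Ref (sb1 (sb2 (sa0 R0))) (sa2 (sa1 (sa0 R1))) (sa2 (sa1 (sa0 R2))) (sb2 (sb1 (sb0 R3))) :=
  Ref.s20 (by decide +kernel) j791 r798

theorem j793 : Ref (sb1 (sb2 (sa0 R0))) (sa1 (sa0 R1)) (sa2 (sa1 (sa0 R2))) (sb2 (sb1 (sb0 R3))) :=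
  Ref.s12 (by decide +kernel) j792 r799

theorem j794 : Ref (sb1 (sb2 (sa0 R0))) (sa1 (sa0 R1)) (sa1 (sa0 R2)) (sb2 (sb1 (sb0 R3))) :=
  Ref.s22 (by decide +kernel) j793 r800

theorem j795 : Ref (sb1 (sb2 (sa0 R0))) (sa1 (sa0 R1)) (sa0 R2) (sb2 (sb1 (sb0 R3))) :=
  Ref.s21 (by decide +kernel) j794 r801

theorem j796 : Ref (sb2 (sa0 R0)) (sa1 (sa0 R1)) (sa0 R2) (sb2 (sb1 (sb0 R3))) :=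
  Ref.s01 (by decide +kernel) j756 j795

theorem j797 : Ref (sb2 (sa0 R0)) (sa1 (sa0 R1)) R2 (sb2 (sb1 (sb0 R3))) :=
  Ref.s20 (by decide +kernel) j796 r802

theorem j798 : Ref (sa0 R0) (sa1 (sa0 R1)) R2 (sb2 (sb1 (sb0 R3))) :=
  Ref.s02 (by decide +kernel) j753 j797

theorem j799 : Ref (sa1 (sb0 R0)) (sa1 (sa0 R1)) (sa0 (sa2 R2)) (sb2 (sb1 (sb0 R3))) :=
  Ref.s12 (by decide +kernel) r803 r804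

theorem j800 : Ref (sb0 R0) (sa1 (sa0 R1)) (sa0 (sa2 R2)) (sb2 (sb1 (sb0 R3))) :=
  Ref.s01 (by decide +kernel) j799 r805

theorem j801 : Ref (sb0 R0) (sa1 (sa0 R1)) (sa2 R2) (sb2 (sb1 (sb0 R3))) :=
  Ref.s20 (by decide +kernel) j800 r806

theorem j802 : Ref (sa0 (sa2 (sa1 (sb0 R0)))) (sa2 (sa1 (sa0 (sa2 (sa1 (sa0 R1)))))) (sb0 (sa2 (sa1 (sa0 (sb2 R2))))) (sa1 (sb0 (sb2 (sb1 (sb0 R3))))) :=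
  Ref.s22 (by decide +kernel) r809 r810

theorem j803 : Ref (sa0 (sa2 (sa1 (sb0 R0)))) (sa2 (sa1 (sa0 (sa2 (sa1 (sa0 R1)))))) (sb0 (sa2 (sa1 (sa0 (sb2 R2))))) (sb0 (sb2 (sb1 (sb0 R3)))) :=
  Ref.s31 (by decide +kernel) j802 r811

theorem j804 : Ref (sa0 (sa2 (sa1 (sb0 R0)))) (sa1 (sa0 (sa2 (sa1 (sa0 R1))))) (sb0 (sa2 (sa1 (sa0 (sb2 R2))))) (sb0 (sb2 (sb1 (sb0 R3)))) :=
  Ref.s12 (by decide +kernel) j803 r812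

theorem j805 : Ref (sa0 (sa2 (sa1 (sb0 R0)))) (sa0 (sa2 (sa1 (sa0 R1)))) (sb0 (sa2 (sa1 (sa0 (sb2 R2))))) (sb0 (sb2 (sb1 (sb0 R3)))) :=
  Ref.s11 (by decide +kernel) j804 r813

theorem j806 : Ref (sa0 (sa2 (sa1 (sb0 R0)))) (sa0 (sa2 (sa1 (sa0 R1)))) (sa2 (sa1 (sa0 (sb2 R2)))) (sb0 (sb2 (sb1 (sb0 R3)))) :=
  Ref.s20 (by decide +kernel) r808 j805

theorem j807 : Ref (sa0 (sa2 (sa1 (sb0 R0)))) (sa0 (sa2 (sa1 (sa0 R1)))) (sa2 (sa1 (sa0 (sb2 R2)))) (sb2 (sb1 (sb0 R3))) :=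
  Ref.s30 (by decide +kernel) r807 j806

theorem j808 : Ref (sa0 (sa2 (sa1 (sb0 R0)))) (sa0 (sa2 (sa1 (sa0 R1)))) (sa1 (sa0 (sb2 R2))) (sb2 (sb1 (sb0 R3))) :=
  Ref.s22 (by decide +kernel) j807 r814

theorem j809 : Ref (sa0 (sa0 (sa2 (sa1 (sb0 R0))))) (sb2 (sb2 (sb0 (sa2 (sa1 (sa0 R1)))))) (sb0 (sa2 (sa2 (sa1 (sa0 (sb2 R2)))))) (sb2 (sa1 (sb2 (sb1 (sb0 R3))))) :=
  Ref.s31 (by decide +kernel) r819 r820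

theorem j810 : Ref (sa0 (sa0 (sa2 (sa1 (sb0 R0))))) (sb2 (sb2 (sb0 (sa2 (sa1 (sa0 R1)))))) (sb0 (sa2 (sa2 (sa1 (sa0 (sb2 R2)))))) (sa1 (sb2 (sb1 (sb0 R3)))) :=
  Ref.s32 (by decide +kernel) r818 j809

theorem j811 : Ref (sa0 (sa0 (sa2 (sa1 (sb0 R0))))) (sb2 (sb2 (sb0 (sa2 (sa1 (sa0 R1)))))) (sa2 (sa2 (sa1 (sa0 (sb2 R2))))) (sa1 (sb2 (sb1 (sb0 R3)))) :=
  Ref.s20 (by decide +kernel) r817 j810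

theorem j812 : Ref (sa0 (sa0 (sa2 (sa1 (sb0 R0))))) (sb2 (sb0 (sa2 (sa1 (sa0 R1))))) (sa2 (sa2 (sa1 (sa0 (sb2 R2))))) (sa1 (sb2 (sb1 (sb0 R3)))) :=
  Ref.s12 (by decide +kernel) r816 j811

theorem j813 : Ref (sa0 (sa2 (sa1 (sb0 R0)))) (sb2 (sb0 (sa2 (sa1 (sa0 R1))))) (sa2 (sa2 (sa1 (sa0 (sb2 R2))))) (sa1 (sb2 (sb1 (sb0 R3)))) :=
  Ref.s00 (by decide +kernel) j812 r821

theorem j814 : Ref (sa0 (sa2 (sa1 (sb0 R0)))) (sb2 (sb0 (sa2 (sa1 (sa0 R1))))) (sa2 (sa1 (sa0 (sb2 R2)))) (sa1 (sb2 (sb1 (sb0 R3)))) :=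
  Ref.s22 (by decide +kernel) j813 r822

theorem j815 : Ref (sa0 (sa2 (sa1 (sb0 R0)))) (sb2 (sb0 (sa2 (sa1 (sa0 R1))))) (sa1 (sa0 (sb2 R2))) (sa1 (sb2 (sb1 (sb0 R3)))) :=
  Ref.s22 (by decide +kernel) j814 r823

theorem j816 : Ref (sa0 (sa2 (sa1 (sb0 R0)))) (sb2 (sb0 (sa2 (sa1 (sa0 R1))))) (sa1 (sa0 (sb2 R2))) (sb2 (sb1 (sb0 R3))) :=
  Ref.s31 (by decide +kernel) j815 r824

theorem j817 : Ref (sa0 (sa2 (sa1 (sb0 R0)))) (sb0 (sa2 (sa1 (sa0 R1)))) (sa1 (sa0 (sb2 R2))) (sb2 (sb1 (sb0 R3))) :=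
  Ref.s12 (by decide +kernel) r815 j816

theorem j818 : Ref (sa0 (sa2 (sa1 (sb0 R0)))) (sa2 (sa1 (sa0 R1))) (sa1 (sa0 (sb2 R2))) (sb2 (sb1 (sb0 R3))) :=
  Ref.s10 (by decide +kernel) j808 j817

theorem j819 : Ref (sa0 (sa2 (sa1 (sb0 R0)))) (sa2 (sa1 (sa0 R1))) (sa0 (sb2 R2)) (sb2 (sb1 (sb0 R3))) :=
  Ref.s21 (by decide +kernel) j818 r825

theorem j820 : Ref (sa2 (sa1 (sb0 R0))) (sa2 (sa1 (sa0 R1))) (sa0 (sb2 R2)) (sb2 (sb1 (sb0 R3))) :=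
  Ref.s00 (by decide +kernel) j819 r826

theorem j821 : Ref (sa1 (sb0 R0)) (sa2 (sa1 (sa0 R1))) (sa0 (sb2 R2)) (sb2 (sb1 (sb0 R3))) :=
  Ref.s02 (by decide +kernel) j820 r827

theorem j822 : Ref (sa2 (sa1 (sb2 (sb1 (sb0 R0))))) (sa0 (sa2 (sa2 (sa1 (sa0 R1))))) (sb2 (sa2 (sa1 (sa0 (sb2 R2))))) (sa1 (sb2 (sb2 (sb1 (sb0 R3))))) :=
  Ref.s00 (by decide +kernel) r831 r832

theorem j823 : Ref (sa2 (sa1 (sb2 (sb1 (sb0 R0))))) (sa0 (sa2 (sa2 (sa1 (sa0 R1))))) (sb2 (sa2 (sa1 (sa0 (sb2 R2))))) (sb2 (sb2 (sb1 (sb0 R3)))) :=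
  Ref.s31 (by decide +kernel) j822 r833

theorem j824 : Ref (sa2 (sa1 (sb2 (sb1 (sb0 R0))))) (sa0 (sa2 (sa2 (sa1 (sa0 R1))))) (sa2 (sa1 (sa0 (sb2 R2)))) (sb2 (sb2 (sb1 (sb0 R3)))) :=
  Ref.s22 (by decide +kernel) r830 j823

theorem j825 : Ref (sb2 (sa1 (sb2 (sb1 (sb0 R0))))) (sa1 (sa0 (sa2 (sa2 (sa1 (sa0 R1)))))) (sa2 (sa2 (sa1 (sa0 (sb2 R2))))) (sb2 (sa1 (sa1 (sb2 (sb2 (sb1 (sb0 R3))))))) :=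
  Ref.s20 (by decide +kernel) r835 r836

theorem j826 : Ref (sb2 (sa1 (sb2 (sb1 (sb0 R0))))) (sa1 (sa0 (sa2 (sa2 (sa1 (sa0 R1)))))) (sa2 (sa2 (sa1 (sa0 (sb2 R2))))) (sa1 (sa1 (sb2 (sb2 (sb1 (sb0 R3)))))) :=
  Ref.s32 (by decide +kernel) r834 j825

theorem j827 : Ref (sb2 (sa1 (sb2 (sb1 (sb0 R0))))) (sa0 (sa2 (sa2 (sa1 (sa0 R1))))) (sa2 (sa2 (sa1 (sa0 (sb2 R2))))) (sa1 (sa1 (sb2 (sb2 (sb1 (sb0 R3)))))) :=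
  Ref.s11 (by decide +kernel) j826 r837

theorem j828 : Ref (sb2 (sa1 (sb2 (sb1 (sb0 R0))))) (sa0 (sa2 (sa2 (sa1 (sa0 R1))))) (sa2 (sa2 (sa1 (sa0 (sb2 R2))))) (sa1 (sb2 (sb2 (sb1 (sb0 R3))))) :=
  Ref.s31 (by decide +kernel) j827 r838

theorem j829 : Ref (sb2 (sa1 (sb2 (sb1 (sb0 R0))))) (sa0 (sa2 (sa2 (sa1 (sa0 R1))))) (sa2 (sa1 (sa0 (sb2 R2)))) (sa1 (sb2 (sb2 (sb1 (sb0 R3))))) :=
  Ref.s22 (by decide +kernel) j828 r839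

theorem j830 : Ref (sb2 (sa1 (sb2 (sb1 (sb0 R0))))) (sa0 (sa2 (sa2 (sa1 (sa0 R1))))) (sa2 (sa1 (sa0 (sb2 R2)))) (sb2 (sb2 (sb1 (sb0 R3)))) :=
  Ref.s31 (by decide +kernel) j829 r840

theorem j831 : Ref (sa1 (sb2 (sb1 (sb0 R0)))) (sa0 (sa2 (sa2 (sa1 (sa0 R1))))) (sa2 (sa1 (sa0 (sb2 R2)))) (sb2 (sb2 (sb1 (sb0 R3)))) :=
  Ref.s02 (by decide +kernel) j824 j830

theorem j832 : Ref (sb2 (sb1 (sb0 R0))) (sa0 (sa2 (sa2 (sa1 (sa0 R1))))) (sa2 (sa1 (sa0 (sb2 R2)))) (sb2 (sb2 (sb1 (sb0 R3)))) :=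
  Ref.s01 (by decide +kernel) j831 r841

theorem j833 : Ref (sb2 (sb1 (sb0 R0))) (sa0 (sa2 (sa2 (sa1 (sa0 R1))))) (sa2 (sa1 (sa0 (sb2 R2)))) (sb2 (sb1 (sb0 R3))) :=
  Ref.s32 (by decide +kernel) r829 j832

theorem j834 : Ref (sb2 (sb1 (sb0 R0))) (sa0 (sa2 (sa2 (sa1 (sa0 R1))))) (sa1 (sa0 (sb2 R2))) (sb2 (sb1 (sb0 R3))) :=
  Ref.s22 (by decide +kernel) j833 r842

theorem j835 : Ref (sa1 (sb2 (sb1 (sb0 R0)))) (sb0 (sa2 (sa2 (sa1 (sa0 R1))))) (sa1 (sa0 (sb2 R2))) (sa1 (sb2 (sb1 (sb0 R3)))) :=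
  Ref.s21 (by decide +kernel) r843 r844

theorem j836 : Ref (sb2 (sb1 (sb0 R0))) (sb0 (sa2 (sa2 (sa1 (sa0 R1))))) (sa1 (sa0 (sb2 R2))) (sa1 (sb2 (sb1 (sb0 R3)))) :=
  Ref.s01 (by decide +kernel) j835 r845

theorem j837 : Ref (sb2 (sb1 (sb0 R0))) (sb0 (sa2 (sa2 (sa1 (sa0 R1))))) (sa1 (sa0 (sb2 R2))) (sb2 (sb1 (sb0 R3))) :=
  Ref.s31 (by decide +kernel) j836 r846

theorem j838 : Ref (sb2 (sb1 (sb0 R0))) (sa2 (sa2 (sa1 (sa0 R1)))) (sa1 (sa0 (sb2 R2))) (sb2 (sb1 (sb0 R3))) :=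
  Ref.s10 (by decide +kernel) j834 j837

theorem j839 : Ref (sa1 (sb2 (sb1 (sb0 R0)))) (sb2 (sb0 (sb2 (sa2 (sa1 (sa0 R1)))))) (sb0 (sa2 (sa1 (sa1 (sa0 (sb2 R2)))))) (sb2 (sa1 (sb2 (sb1 (sb0 R3))))) :=
  Ref.s22 (by decide +kernel) r851 r852

theorem j840 : Ref (sa1 (sb2 (sb1 (sb0 R0)))) (sb0 (sb2 (sa2 (sa1 (sa0 R1))))) (sb0 (sa2 (sa1 (sa1 (sa0 (sb2 R2)))))) (sb2 (sa1 (sb2 (sb1 (sb0 R3))))) :=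
  Ref.s12 (by decide +kernel) r850 j839

theorem j841 : Ref (sa1 (sb2 (sb1 (sb0 R0)))) (sb0 (sb2 (sa2 (sa1 (sa0 R1))))) (sa2 (sa1 (sa1 (sa0 (sb2 R2))))) (sb2 (sa1 (sb2 (sb1 (sb0 R3))))) :=
  Ref.s20 (by decide +kernel) r849 j840

theorem j842 : Ref (sa1 (sb2 (sb1 (sb0 R0)))) (sb0 (sb2 (sa2 (sa1 (sa0 R1))))) (sa2 (sa1 (sa1 (sa0 (sb2 R2))))) (sa1 (sb2 (sb1 (sb0 R3)))) :=
  Ref.s32 (by decide +kernel) r848 j841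

theorem j843 : Ref (sa1 (sb2 (sb1 (sb0 R0)))) (sb2 (sa2 (sa1 (sa0 R1)))) (sa2 (sa1 (sa1 (sa0 (sb2 R2))))) (sa1 (sb2 (sb1 (sb0 R3)))) :=
  Ref.s10 (by decide +kernel) r847 j842

theorem j844 : Ref (sa1 (sb2 (sb1 (sb0 R0)))) (sb2 (sa2 (sa1 (sa0 R1)))) (sa1 (sa1 (sa0 (sb2 R2)))) (sa1 (sb2 (sb1 (sb0 R3)))) :=
  Ref.s22 (by decide +kernel) j843 r853

theorem j845 : Ref (sa2 (sa1 (sb2 (sb1 (sb0 R0))))) (sa1 (sb2 (sb0 (sb2 (sa2 (sa1 (sa0 R1))))))) (sa2 (sb1 (sa1 (sa0 (sb2 R2))))) (sb0 (sb2 (sa1 (sb2 (sb1 (sb0 R3)))))) :=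
  Ref.s00 (by decide +kernel) r858 r859

theorem j846 : Ref (sa2 (sa1 (sb2 (sb1 (sb0 R0))))) (sa1 (sb2 (sb0 (sb2 (sa2 (sa1 (sa0 R1))))))) (sa2 (sb1 (sa1 (sa0 (sb2 R2))))) (sb2 (sa1 (sb2 (sb1 (sb0 R3))))) :=
  Ref.s30 (by decide +kernel) r857 j845

theorem j847 : Ref (sa2 (sa1 (sb2 (sb1 (sb0 R0))))) (sb2 (sb0 (sb2 (sa2 (sa1 (sa0 R1)))))) (sa2 (sb1 (sa1 (sa0 (sb2 R2))))) (sb2 (sa1 (sb2 (sb1 (sb0 R3))))) :=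
  Ref.s11 (by decide +kernel) j846 r860

theorem j848 : Ref (sa2 (sa1 (sb2 (sb1 (sb0 R0))))) (sb0 (sb2 (sa2 (sa1 (sa0 R1))))) (sa2 (sb1 (sa1 (sa0 (sb2 R2))))) (sb2 (sa1 (sb2 (sb1 (sb0 R3))))) :=
  Ref.s12 (by decide +kernel) r856 j847

theorem j849 : Ref (sa2 (sa1 (sb2 (sb1 (sb0 R0))))) (sb0 (sb2 (sa2 (sa1 (sa0 R1))))) (sb1 (sa1 (sa0 (sb2 R2)))) (sb2 (sa1 (sb2 (sb1 (sb0 R3))))) :=
  Ref.s22 (by decide +kernel) j848 r861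

theorem j850 : Ref (sa2 (sa1 (sb2 (sb1 (sb0 R0))))) (sb0 (sb2 (sa2 (sa1 (sa0 R1))))) (sb1 (sa1 (sa0 (sb2 R2)))) (sa1 (sb2 (sb1 (sb0 R3)))) :=
  Ref.s32 (by decide +kernel) r855 j849

theorem j851 : Ref (sa1 (sb2 (sb1 (sb0 R0)))) (sb0 (sb2 (sa2 (sa1 (sa0 R1))))) (sb1 (sa1 (sa0 (sb2 R2)))) (sa1 (sb2 (sb1 (sb0 R3)))) :=
  Ref.s02 (by decide +kernel) j850 r862

theorem j852 : Ref (sa1 (sb2 (sb1 (sb0 R0)))) (sb2 (sa2 (sa1 (sa0 R1)))) (sb1 (sa1 (sa0 (sb2 R2)))) (sa1 (sb2 (sb1 (sb0 R3)))) :=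
  Ref.s10 (by decide +kernel) r854 j851

theorem j853 : Ref (sa1 (sb2 (sb1 (sb0 R0)))) (sb2 (sa2 (sa1 (sa0 R1)))) (sa1 (sa0 (sb2 R2))) (sa1 (sb2 (sb1 (sb0 R3)))) :=
  Ref.s21 (by decide +kernel) j844 j852

theorem j854 : Ref (sb2 (sb1 (sb0 R0))) (sb2 (sa2 (sa1 (sa0 R1)))) (sa1 (sa0 (sb2 R2))) (sa1 (sb2 (sb1 (sb0 R3)))) :=
  Ref.s01 (by decide +kernel) j853 r863

theorem j855 : Ref (sb2 (sb1 (sb0 R0))) (sb2 (sa2 (sa1 (sa0 R1)))) (sa1 (sa0 (sb2 R2))) (sb2 (sb1 (sb0 R3))) :=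
  Ref.s31 (by decide +kernel) j854 r864

theorem j856 : Ref (sb2 (sb1 (sb0 R0))) (sa2 (sa1 (sa0 R1))) (sa1 (sa0 (sb2 R2))) (sb2 (sb1 (sb0 R3))) :=
  Ref.s12 (by decide +kernel) j838 j855

theorem j857 : Ref (sb2 (sb1 (sb0 R0))) (sa2 (sa1 (sa0 R1))) (sa0 (sb2 R2)) (sb2 (sb1 (sb0 R3))) :=
  Ref.s21 (by decide +kernel) j856 r865

theorem j858 : Ref (sb1 (sb0 R0)) (sa2 (sa1 (sa0 R1))) (sa0 (sb2 R2)) (sb2 (sb1 (sb0 R3))) :=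
  Ref.s02 (by decide +kernel) r828 j857

theorem j859 : Ref (sb0 R0) (sa2 (sa1 (sa0 R1))) (sa0 (sb2 R2)) (sb2 (sb1 (sb0 R3))) :=
  Ref.s01 (by decide +kernel) j821 j858

theorem j860 : Ref (sb1 (sa0 (sa2 (sa2 (sa1 (sb0 R0)))))) (sb0 (sa0 (sa2 (sa1 (sa0 R1))))) (sa1 (sa0 (sb1 (sb0 (sb2 R2))))) (sa1 (sb2 (sa1 (sb2 (sb1 (sb0 R3)))))) :=
  Ref.s00 (by decide +kernel) r870 r871

theorem j861 : Ref (sb1 (sa0 (sa2 (sa2 (sa1 (sb0 R0)))))) (sa2 (sb0 (sa0 (sa2 (sa1 (sa0 R1)))))) (sb0 (sb1 (sa0 (sb1 (sb0 (sb2 R2)))))) (sa1 (sb2 (sa1 (sb2 (sb1 (sb0 R3)))))) :=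
  Ref.s00 (by decide +kernel) r873 r874

theorem j862 : Ref (sb1 (sa0 (sa2 (sa2 (sa1 (sb0 R0)))))) (sa2 (sb0 (sa0 (sa2 (sa1 (sa0 R1)))))) (sb1 (sa0 (sb1 (sb0 (sb2 R2))))) (sa1 (sb2 (sa1 (sb2 (sb1 (sb0 R3)))))) :=
  Ref.s20 (by decide +kernel) r872 j861

theorem j863 : Ref (sb1 (sa0 (sa2 (sa2 (sa1 (sb0 R0)))))) (sb0 (sa0 (sa2 (sa1 (sa0 R1))))) (sb1 (sa0 (sb1 (sb0 (sb2 R2))))) (sa1 (sb2 (sa1 (sb2 (sb1 (sb0 R3)))))) :=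
  Ref.s12 (by decide +kernel) j862 r875

theorem j864 : Ref (sb1 (sa0 (sa2 (sa2 (sa1 (sb0 R0)))))) (sb0 (sa0 (sa2 (sa1 (sa0 R1))))) (sa0 (sb1 (sb0 (sb2 R2)))) (sa1 (sb2 (sa1 (sb2 (sb1 (sb0 R3)))))) :=
  Ref.s21 (by decide +kernel) j860 j863

theorem j865 : Ref (sb1 (sa0 (sa2 (sa2 (sa1 (sb0 R0)))))) (sa0 (sa2 (sa1 (sa0 R1)))) (sa0 (sb1 (sb0 (sb2 R2)))) (sa1 (sb2 (sa1 (sb2 (sb1 (sb0 R3)))))) :=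
  Ref.s10 (by decide +kernel) r869 j864

theorem j866 : Ref (sb1 (sa0 (sa2 (sa2 (sa1 (sb0 R0)))))) (sa0 (sa2 (sa1 (sa0 R1)))) (sa0 (sb1 (sb0 (sb2 R2)))) (sb2 (sa1 (sb2 (sb1 (sb0 R3))))) :=
  Ref.s31 (by decide +kernel) j865 r876

theorem j867 : Ref (sa0 (sa2 (sa2 (sa1 (sb0 R0))))) (sa0 (sa2 (sa1 (sa0 R1)))) (sa0 (sb1 (sb0 (sb2 R2)))) (sb2 (sa1 (sb2 (sb1 (sb0 R3))))) :=
  Ref.s01 (by decide +kernel) r868 j866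

theorem j868 : Ref (sa0 (sa2 (sa2 (sa1 (sb0 R0))))) (sa0 (sa2 (sa1 (sa0 R1)))) (sa0 (sb1 (sb0 (sb2 R2)))) (sa1 (sb2 (sb1 (sb0 R3)))) :=
  Ref.s32 (by decide +kernel) r867 j867

theorem j869 : Ref (sa2 (sa2 (sa1 (sb0 R0)))) (sa0 (sa2 (sa1 (sa0 R1)))) (sa0 (sb1 (sb0 (sb2 R2)))) (sa1 (sb2 (sb1 (sb0 R3)))) :=
  Ref.s00 (by decide +kernel) j868 r877

theorem j870 : Ref (sa0 (sb2 (sa2 (sa1 (sb0 R0))))) (sa0 (sa2 (sa1 (sa0 R1)))) (sb1 (sa0 (sb1 (sb0 (sb2 R2))))) (sb2 (sa1 (sb2 (sb1 (sb0 R3))))) :=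
  Ref.s32 (by decide +kernel) r880 r881

theorem j871 : Ref (sb2 (sa2 (sa1 (sb0 R0)))) (sa0 (sa2 (sa1 (sa0 R1)))) (sb1 (sa0 (sb1 (sb0 (sb2 R2))))) (sb2 (sa1 (sb2 (sb1 (sb0 R3))))) :=
  Ref.s00 (by decide +kernel) j870 r882

theorem j872 : Ref (sb2 (sa2 (sa1 (sb0 R0)))) (sa0 (sa2 (sa1 (sa0 R1)))) (sa0 (sb1 (sb0 (sb2 R2)))) (sb2 (sa1 (sb2 (sb1 (sb0 R3))))) :=
  Ref.s21 (by decide +kernel) r879 j871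

theorem j873 : Ref (sb2 (sa2 (sa1 (sb0 R0)))) (sa0 (sa2 (sa1 (sa0 R1)))) (sa0 (sb1 (sb0 (sb2 R2)))) (sa1 (sb2 (sb1 (sb0 R3)))) :=
  Ref.s32 (by decide +kernel) r878 j872

theorem j874 : Ref (sa2 (sa1 (sb0 R0))) (sa0 (sa2 (sa1 (sa0 R1)))) (sa0 (sb1 (sb0 (sb2 R2)))) (sa1 (sb2 (sb1 (sb0 R3)))) :=
  Ref.s02 (by decide +kernel) j869 j873

theorem j875 : Ref (sa2 (sa1 (sb0 R0))) (sa0 (sa2 (sa1 (sa0 R1)))) (sb1 (sb0 (sb2 R2))) (sa1 (sb2 (sb1 (sb0 R3)))) :=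
  Ref.s20 (by decide +kernel) j874 r883

theorem j876 : Ref (sa2 (sa1 (sb0 R0))) (sa0 (sa2 (sa1 (sa0 R1)))) (sb1 (sb0 (sb2 R2))) (sb2 (sb1 (sb0 R3))) :=
  Ref.s31 (by decide +kernel) j875 r884

theorem j877 : Ref (sa0 (sa2 (sa1 (sb0 R0)))) (sa2 (sb0 (sa2 (sa1 (sa0 R1))))) (sb1 (sb0 (sb2 R2))) (sb2 (sb2 (sb1 (sb0 R3)))) :=
  Ref.s31 (by decide +kernel) r886 r887

theorem j878 : Ref (sa0 (sa2 (sa1 (sb0 R0)))) (sa2 (sb0 (sa2 (sa1 (sa0 R1))))) (sb1 (sb0 (sb2 R2))) (sb2 (sb1 (sb0 R3))) :=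
  Ref.s32 (by decide +kernel) r885 j877

theorem j879 : Ref (sa2 (sa1 (sb0 R0))) (sa2 (sb0 (sa2 (sa1 (sa0 R1))))) (sb1 (sb0 (sb2 R2))) (sb2 (sb1 (sb0 R3))) :=
  Ref.s00 (by decide +kernel) j878 r888

theorem j880 : Ref (sa0 (sb1 (sa0 (sa2 (sa2 (sa1 (sb0 R0))))))) (sb2 (sb0 (sa2 (sa1 (sa0 R1))))) (sb1 (sa0 (sb1 (sb0 (sb2 R2))))) (sa1 (sb2 (sa1 (sb2 (sb1 (sb0 R3)))))) :=
  Ref.s32 (by decide +kernel) r892 r893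

theorem j881 : Ref (sa0 (sb1 (sa0 (sa2 (sa2 (sa1 (sb0 R0))))))) (sb2 (sb0 (sa2 (sa1 (sa0 R1))))) (sb1 (sa0 (sb1 (sb0 (sb2 R2))))) (sb2 (sa1 (sb2 (sb1 (sb0 R3))))) :=
  Ref.s31 (by decide +kernel) j880 r894

theorem j882 : Ref (sb1 (sa0 (sa2 (sa2 (sa1 (sb0 R0)))))) (sb2 (sb0 (sa2 (sa1 (sa0 R1))))) (sb1 (sa0 (sb1 (sb0 (sb2 R2))))) (sb2 (sa1 (sb2 (sb1 (sb0 R3))))) :=
  Ref.s00 (by decide +kernel) j881 r895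

theorem j883 : Ref (sb1 (sa0 (sa2 (sa2 (sa1 (sb0 R0)))))) (sb2 (sb0 (sa2 (sa1 (sa0 R1))))) (sa0 (sb1 (sb0 (sb2 R2)))) (sb2 (sa1 (sb2 (sb1 (sb0 R3))))) :=
  Ref.s21 (by decide +kernel) r891 j882

theorem j884 : Ref (sa0 (sa2 (sa2 (sa1 (sb0 R0))))) (sb2 (sb0 (sa2 (sa1 (sa0 R1))))) (sa0 (sb1 (sb0 (sb2 R2)))) (sb2 (sa1 (sb2 (sb1 (sb0 R3))))) :=
  Ref.s01 (by decide +kernel) r890 j883

theorem j885 : Ref (sa0 (sa2 (sa2 (sa1 (sb0 R0))))) (sb2 (sb0 (sa2 (sa1 (sa0 R1))))) (sa0 (sb1 (sb0 (sb2 R2)))) (sa1 (sb2 (sb1 (sb0 R3)))) :=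
  Ref.s32 (by decide +kernel) r889 j884

theorem j886 : Ref (sa2 (sa2 (sa1 (sb0 R0)))) (sb2 (sb0 (sa2 (sa1 (sa0 R1))))) (sa0 (sb1 (sb0 (sb2 R2)))) (sa1 (sb2 (sb1 (sb0 R3)))) :=
  Ref.s00 (by decide +kernel) j885 r896

theorem j887 : Ref (sb0 (sb1 (sa0 (sb2 (sa2 (sa1 (sb0 R0))))))) (sb1 (sb2 (sb0 (sa2 (sa1 (sa0 R1)))))) (sb2 (sa1 (sa0 (sb1 (sa0 (sb1 (sb0 (sb2 R2)))))))) (sb2 (sa1 (sb2 (sa1 (sb2 (sb1 (sb0 R3))))))) :=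
  Ref.s11 (by decide +kernel) r904 r905

theorem j888 : Ref (sb0 (sb1 (sa0 (sb2 (sa2 (sa1 (sb0 R0))))))) (sb1 (sb2 (sb0 (sa2 (sa1 (sa0 R1)))))) (sa1 (sa0 (sb1 (sa0 (sb1 (sb0 (sb2 R2))))))) (sb2 (sa1 (sb2 (sa1 (sb2 (sb1 (sb0 R3))))))) :=
  Ref.s22 (by decide +kernel) r903 j887

theorem j889 : Ref (sb1 (sa0 (sb2 (sa2 (sa1 (sb0 R0)))))) (sb1 (sb2 (sb0 (sa2 (sa1 (sa0 R1)))))) (sa1 (sa0 (sb1 (sa0 (sb1 (sb0 (sb2 R2))))))) (sb2 (sa1 (sb2 (sa1 (sb2 (sb1 (sb0 R3))))))) :=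
  Ref.s00 (by decide +kernel) r902 j888

theorem j890 : Ref (sa0 (sb2 (sa2 (sa1 (sb0 R0))))) (sb1 (sb2 (sb0 (sa2 (sa1 (sa0 R1)))))) (sa1 (sa0 (sb1 (sa0 (sb1 (sb0 (sb2 R2))))))) (sb2 (sa1 (sb2 (sa1 (sb2 (sb1 (sb0 R3))))))) :=
  Ref.s01 (by decide +kernel) r901 j889

theorem j891 : Ref (sa0 (sb2 (sa2 (sa1 (sb0 R0))))) (sb1 (sb2 (sb0 (sa2 (sa1 (sa0 R1)))))) (sa1 (sa0 (sb1 (sa0 (sb1 (sb0 (sb2 R2))))))) (sa1 (sb2 (sa1 (sb2 (sb1 (sb0 R3)))))) :=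
  Ref.s32 (by decide +kernel) r900 j890

theorem j892 : Ref (sa0 (sb2 (sa2 (sa1 (sb0 R0))))) (sb2 (sb0 (sa2 (sa1 (sa0 R1))))) (sa1 (sa0 (sb1 (sa0 (sb1 (sb0 (sb2 R2))))))) (sa1 (sb2 (sa1 (sb2 (sb1 (sb0 R3)))))) :=
  Ref.s11 (by decide +kernel) r899 j891

theorem j893 : Ref (sa0 (sb2 (sa2 (sa1 (sb0 R0))))) (sb2 (sb0 (sa2 (sa1 (sa0 R1))))) (sa0 (sb1 (sa0 (sb1 (sb0 (sb2 R2)))))) (sa1 (sb2 (sa1 (sb2 (sb1 (sb0 R3)))))) :=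
  Ref.s21 (by decide +kernel) j892 r906

theorem j894 : Ref (sa0 (sb2 (sa2 (sa1 (sb0 R0))))) (sb2 (sb0 (sa2 (sa1 (sa0 R1))))) (sb0 (sb1 (sa0 (sb1 (sb0 (sb2 R2)))))) (sa1 (sb2 (sa1 (sb2 (sb1 (sb0 R3)))))) :=
  Ref.s32 (by decide +kernel) r907 r908

theorem j895 : Ref (sa0 (sb2 (sa2 (sa1 (sb0 R0))))) (sb2 (sb0 (sa2 (sa1 (sa0 R1))))) (sb1 (sa0 (sb1 (sb0 (sb2 R2))))) (sa1 (sb2 (sa1 (sb2 (sb1 (sb0 R3)))))) :=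
  Ref.s20 (by decide +kernel) j893 j894

theorem j896 : Ref (sa0 (sb2 (sa2 (sa1 (sb0 R0))))) (sb2 (sb0 (sa2 (sa1 (sa0 R1))))) (sb1 (sa0 (sb1 (sb0 (sb2 R2))))) (sb2 (sa1 (sb2 (sb1 (sb0 R3))))) :=
  Ref.s31 (by decide +kernel) j895 r909

theorem j897 : Ref (sb2 (sa2 (sa1 (sb0 R0)))) (sb2 (sb0 (sa2 (sa1 (sa0 R1))))) (sb1 (sa0 (sb1 (sb0 (sb2 R2))))) (sb2 (sa1 (sb2 (sb1 (sb0 R3))))) :=
  Ref.s00 (by decide +kernel) j896 r910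

theorem j898 : Ref (sb2 (sa2 (sa1 (sb0 R0)))) (sb2 (sb0 (sa2 (sa1 (sa0 R1))))) (sa0 (sb1 (sb0 (sb2 R2)))) (sb2 (sa1 (sb2 (sb1 (sb0 R3))))) :=
  Ref.s21 (by decide +kernel) r898 j897

theorem j899 : Ref (sb2 (sa2 (sa1 (sb0 R0)))) (sb2 (sb0 (sa2 (sa1 (sa0 R1))))) (sa0 (sb1 (sb0 (sb2 R2)))) (sa1 (sb2 (sb1 (sb0 R3)))) :=
  Ref.s32 (by decide +kernel) r897 j898

theorem j900 : Ref (sa2 (sa1 (sb0 R0))) (sb2 (sb0 (sa2 (sa1 (sa0 R1))))) (sa0 (sb1 (sb0 (sb2 R2)))) (sa1 (sb2 (sb1 (sb0 R3)))) :=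
  Ref.s02 (by decide +kernel) j886 j899

theorem j901 : Ref (sa2 (sa1 (sb0 R0))) (sb2 (sb0 (sa2 (sa1 (sa0 R1))))) (sb1 (sb0 (sb2 R2))) (sa1 (sb2 (sb1 (sb0 R3)))) :=
  Ref.s20 (by decide +kernel) j900 r911

theorem j902 : Ref (sa2 (sa1 (sb0 R0))) (sb2 (sb0 (sa2 (sa1 (sa0 R1))))) (sb1 (sb0 (sb2 R2))) (sb2 (sb1 (sb0 R3))) :=
  Ref.s31 (by decide +kernel) j901 r912

theorem j903 : Ref (sa2 (sa1 (sb0 R0))) (sb0 (sa2 (sa1 (sa0 R1)))) (sb1 (sb0 (sb2 R2))) (sb2 (sb1 (sb0 R3))) :=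
  Ref.s12 (by decide +kernel) j879 j902

theorem j904 : Ref (sa2 (sa1 (sb0 R0))) (sa2 (sa1 (sa0 R1))) (sb1 (sb0 (sb2 R2))) (sb2 (sb1 (sb0 R3))) :=
  Ref.s10 (by decide +kernel) j876 j903

theorem j905 : Ref (sb2 (sa1 (sb0 R0))) (sa2 (sa1 (sa0 R1))) (sb1 (sb0 (sb2 R2))) (sb2 (sb1 (sb0 R3))) :=
  Ref.s10 (by decide +kernel) r913 r914

theorem j906 : Ref (sa1 (sb0 R0)) (sa2 (sa1 (sa0 R1))) (sb1 (sb0 (sb2 R2))) (sb2 (sb1 (sb0 R3))) :=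
  Ref.s02 (by decide +kernel) j904 j905

theorem j907 : Ref (sa1 (sb0 R0)) (sa2 (sa1 (sa0 R1))) (sb0 (sb2 R2)) (sb2 (sb1 (sb0 R3))) :=
  Ref.s21 (by decide +kernel) r866 j906

theorem j908 : Ref (sa1 (sb2 (sb1 (sb0 R0)))) (sa0 (sa2 (sa1 (sa0 R1)))) (sb1 (sa0 (sa2 (sb0 (sb2 R2))))) (sb2 (sa1 (sb2 (sb1 (sb0 R3))))) :=
  Ref.s31 (by decide +kernel) r918 r919

theorem j909 : Ref (sb2 (sb1 (sb0 R0))) (sa0 (sa2 (sa1 (sa0 R1)))) (sb1 (sa0 (sa2 (sb0 (sb2 R2))))) (sb2 (sa1 (sb2 (sb1 (sb0 R3))))) :=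
  Ref.s01 (by decide +kernel) j908 r920

theorem j910 : Ref (sb2 (sb1 (sb0 R0))) (sa0 (sa2 (sa1 (sa0 R1)))) (sb1 (sa0 (sa2 (sb0 (sb2 R2))))) (sa1 (sb2 (sb1 (sb0 R3)))) :=
  Ref.s32 (by decide +kernel) r917 j909

theorem j911 : Ref (sb1 (sb0 R0)) (sa0 (sa2 (sa1 (sa0 R1)))) (sb1 (sa0 (sa2 (sb0 (sb2 R2))))) (sa1 (sb2 (sb1 (sb0 R3)))) :=
  Ref.s02 (by decide +kernel) r916 j910

theorem j912 : Ref (sb1 (sb0 R0)) (sa0 (sa2 (sa1 (sa0 R1)))) (sa0 (sa2 (sb0 (sb2 R2)))) (sa1 (sb2 (sb1 (sb0 R3)))) :=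
  Ref.s21 (by decide +kernel) r915 j911

theorem j913 : Ref (sb1 (sb0 R0)) (sa0 (sa2 (sa1 (sa0 R1)))) (sa2 (sb0 (sb2 R2))) (sa1 (sb2 (sb1 (sb0 R3)))) :=
  Ref.s20 (by decide +kernel) j912 r921

theorem j914 : Ref (sa1 (sb2 (sa1 (sa0 (sb1 (sb0 R0)))))) (sa0 (sa2 (sa1 (sa0 R1)))) (sb1 (sa0 (sb1 (sb2 (sb0 (sb2 R2)))))) (sb2 (sa1 (sb2 (sb1 (sb0 R3))))) :=
  Ref.s02 (by decide +kernel) r926 r927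

theorem j915 : Ref (sb2 (sa1 (sa0 (sb1 (sb0 R0))))) (sa0 (sa2 (sa1 (sa0 R1)))) (sb1 (sa0 (sb1 (sb2 (sb0 (sb2 R2)))))) (sb2 (sa1 (sb2 (sb1 (sb0 R3))))) :=
  Ref.s01 (by decide +kernel) j914 r928

theorem j916 : Ref (sb2 (sa1 (sa0 (sb1 (sb0 R0))))) (sa0 (sa2 (sa1 (sa0 R1)))) (sa0 (sb1 (sb2 (sb0 (sb2 R2))))) (sb2 (sa1 (sb2 (sb1 (sb0 R3))))) :=
  Ref.s21 (by decide +kernel) r925 j915

theorem j917 : Ref (sa1 (sa0 (sb1 (sb0 R0)))) (sa0 (sa2 (sa1 (sa0 R1)))) (sa0 (sb1 (sb2 (sb0 (sb2 R2))))) (sb2 (sa1 (sb2 (sb1 (sb0 R3))))) :=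
  Ref.s02 (by decide +kernel) r924 j916

theorem j918 : Ref (sa1 (sa0 (sb1 (sb0 R0)))) (sa0 (sa2 (sa1 (sa0 R1)))) (sb1 (sb2 (sb0 (sb2 R2)))) (sb2 (sa1 (sb2 (sb1 (sb0 R3))))) :=
  Ref.s20 (by decide +kernel) j917 r929

theorem j919 : Ref (sa1 (sa0 (sb1 (sb0 R0)))) (sa0 (sa2 (sa1 (sa0 R1)))) (sb1 (sb2 (sb0 (sb2 R2)))) (sa1 (sb2 (sb1 (sb0 R3)))) :=
  Ref.s32 (by decide +kernel) r923 j918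

theorem j920 : Ref (sa1 (sa0 (sb1 (sb0 R0)))) (sa0 (sa2 (sa1 (sa0 R1)))) (sb2 (sb0 (sb2 R2))) (sa1 (sb2 (sb1 (sb0 R3)))) :=
  Ref.s21 (by decide +kernel) r922 j919

theorem j921 : Ref (sa0 (sb1 (sb0 R0))) (sa0 (sa2 (sa1 (sa0 R1)))) (sb2 (sb0 (sb2 R2))) (sa1 (sb2 (sb1 (sb0 R3)))) :=
  Ref.s01 (by decide +kernel) j920 r930

theorem j922 : Ref (sa1 (sb2 (sb0 (sb1 (sb0 R0))))) (sa0 (sa2 (sa1 (sa0 R1)))) (sa1 (sa0 (sb1 (sb2 (sb0 (sb2 R2)))))) (sb2 (sa1 (sb2 (sb1 (sb0 R3))))) :=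
  Ref.s10 (by decide +kernel) r934 r935

theorem j923 : Ref (sb2 (sa1 (sa1 (sb2 (sb0 (sb1 (sb0 R0))))))) (sa0 (sa2 (sa1 (sa0 R1)))) (sb1 (sa0 (sb1 (sb2 (sb0 (sb2 R2)))))) (sb2 (sa1 (sb2 (sb1 (sb0 R3))))) :=
  Ref.s31 (by decide +kernel) r937 r938

theorem j924 : Ref (sa1 (sa1 (sb2 (sb0 (sb1 (sb0 R0)))))) (sa0 (sa2 (sa1 (sa0 R1)))) (sb1 (sa0 (sb1 (sb2 (sb0 (sb2 R2)))))) (sb2 (sa1 (sb2 (sb1 (sb0 R3))))) :=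
  Ref.s02 (by decide +kernel) r936 j923

theorem j925 : Ref (sa1 (sb2 (sb0 (sb1 (sb0 R0))))) (sa0 (sa2 (sa1 (sa0 R1)))) (sb1 (sa0 (sb1 (sb2 (sb0 (sb2 R2)))))) (sb2 (sa1 (sb2 (sb1 (sb0 R3))))) :=
  Ref.s01 (by decide +kernel) j924 r939

theorem j926 : Ref (sa1 (sb2 (sb0 (sb1 (sb0 R0))))) (sa0 (sa2 (sa1 (sa0 R1)))) (sa0 (sb1 (sb2 (sb0 (sb2 R2))))) (sb2 (sa1 (sb2 (sb1 (sb0 R3))))) :=
  Ref.s21 (by decide +kernel) j922 j925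

theorem j927 : Ref (sb2 (sb0 (sb1 (sb0 R0)))) (sa0 (sa2 (sa1 (sa0 R1)))) (sa0 (sb1 (sb2 (sb0 (sb2 R2))))) (sb2 (sa1 (sb2 (sb1 (sb0 R3))))) :=
  Ref.s01 (by decide +kernel) j926 r940

theorem j928 : Ref (sb2 (sb0 (sb1 (sb0 R0)))) (sa0 (sa2 (sa1 (sa0 R1)))) (sb1 (sb2 (sb0 (sb2 R2)))) (sb2 (sa1 (sb2 (sb1 (sb0 R3))))) :=
  Ref.s20 (by decide +kernel) j927 r941

theorem j929 : Ref (sb2 (sb0 (sb1 (sb0 R0)))) (sa0 (sa2 (sa1 (sa0 R1)))) (sb1 (sb2 (sb0 (sb2 R2)))) (sa1 (sb2 (sb1 (sb0 R3)))) :=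
  Ref.s32 (by decide +kernel) r933 j928

theorem j930 : Ref (sb0 (sb1 (sb0 R0))) (sa0 (sa2 (sa1 (sa0 R1)))) (sb1 (sb2 (sb0 (sb2 R2)))) (sa1 (sb2 (sb1 (sb0 R3)))) :=
  Ref.s02 (by decide +kernel) r932 j929

theorem j931 : Ref (sb0 (sb1 (sb0 R0))) (sa0 (sa2 (sa1 (sa0 R1)))) (sb2 (sb0 (sb2 R2))) (sa1 (sb2 (sb1 (sb0 R3)))) :=
  Ref.s21 (by decide +kernel) r931 j930

theorem j932 : Ref (sb1 (sb0 R0)) (sa0 (sa2 (sa1 (sa0 R1)))) (sb2 (sb0 (sb2 R2))) (sa1 (sb2 (sb1 (sb0 R3)))) :=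
  Ref.s00 (by decide +kernel) j921 j931

theorem j933 : Ref (sb1 (sb0 R0)) (sa0 (sa2 (sa1 (sa0 R1)))) (sb0 (sb2 R2)) (sa1 (sb2 (sb1 (sb0 R3)))) :=
  Ref.s22 (by decide +kernel) j913 j932

theorem j934 : Ref (sb1 (sb0 R0)) (sa0 (sa2 (sa1 (sa0 R1)))) (sb0 (sb2 R2)) (sb2 (sb1 (sb0 R3))) :=
  Ref.s31 (by decide +kernel) j933 r942

theorem j935 : Ref (sb2 (sb1 (sb0 R0))) (sa2 (sb0 (sa2 (sa1 (sa0 R1))))) (sb0 (sb2 R2)) (sb2 (sb1 (sb0 R3))) :=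
  Ref.s31 (by decide +kernel) r944 r945

theorem j936 : Ref (sb1 (sb0 R0)) (sa2 (sb0 (sa2 (sa1 (sa0 R1))))) (sb0 (sb2 R2)) (sb2 (sb1 (sb0 R3))) :=
  Ref.s02 (by decide +kernel) r943 j935

theorem j937 : Ref (sa1 (sb2 (sb1 (sb0 R0)))) (sb2 (sb0 (sa2 (sa1 (sa0 R1))))) (sa0 (sa2 (sb0 (sb2 R2)))) (sb2 (sa1 (sb2 (sb1 (sb0 R3))))) :=
  Ref.s21 (by decide +kernel) r948 r949

theorem j938 : Ref (sb2 (sb1 (sb0 R0))) (sb2 (sb0 (sa2 (sa1 (sa0 R1))))) (sa0 (sa2 (sb0 (sb2 R2)))) (sb2 (sa1 (sb2 (sb1 (sb0 R3))))) :=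
  Ref.s01 (by decide +kernel) j937 r950

theorem j939 : Ref (sb2 (sb1 (sb0 R0))) (sb2 (sb0 (sa2 (sa1 (sa0 R1))))) (sa0 (sa2 (sb0 (sb2 R2)))) (sa1 (sb2 (sb1 (sb0 R3)))) :=
  Ref.s32 (by decide +kernel) r947 j938

theorem j940 : Ref (sb1 (sb0 R0)) (sb2 (sb0 (sa2 (sa1 (sa0 R1))))) (sa0 (sa2 (sb0 (sb2 R2)))) (sa1 (sb2 (sb1 (sb0 R3)))) :=
  Ref.s02 (by decide +kernel) r946 j939

theorem j941 : Ref (sb1 (sb0 R0)) (sb2 (sb0 (sa2 (sa1 (sa0 R1))))) (sa2 (sb0 (sb2 R2))) (sa1 (sb2 (sb1 (sb0 R3)))) :=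
  Ref.s20 (by decide +kernel) j940 r951

theorem j942 : Ref (sa1 (sa0 (sb1 (sb0 R0)))) (sb2 (sb0 (sa2 (sa1 (sa0 R1))))) (sa0 (sb2 (sb0 (sb2 R2)))) (sa1 (sb2 (sb1 (sb0 R3)))) :=
  Ref.s21 (by decide +kernel) r952 r953

theorem j943 : Ref (sa0 (sb1 (sb0 R0))) (sb2 (sb0 (sa2 (sa1 (sa0 R1))))) (sa0 (sb2 (sb0 (sb2 R2)))) (sa1 (sb2 (sb1 (sb0 R3)))) :=
  Ref.s01 (by decide +kernel) j942 r954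

theorem j944 : Ref (sa1 (sb2 (sb0 (sb1 (sb0 R0))))) (sb2 (sb0 (sa2 (sa1 (sa0 R1))))) (sb1 (sa0 (sb2 (sb0 (sb2 R2))))) (sb2 (sa1 (sb2 (sb1 (sb0 R3))))) :=
  Ref.s21 (by decide +kernel) r958 r959

theorem j945 : Ref (sa1 (sb2 (sb0 (sb1 (sb0 R0))))) (sb2 (sb0 (sa2 (sa1 (sa0 R1))))) (sb1 (sa0 (sb2 (sb0 (sb2 R2))))) (sa1 (sb2 (sb1 (sb0 R3)))) :=
  Ref.s32 (by decide +kernel) r957 j944

theorem j946 : Ref (sb2 (sb0 (sb1 (sb0 R0)))) (sb2 (sb0 (sa2 (sa1 (sa0 R1))))) (sb1 (sa0 (sb2 (sb0 (sb2 R2))))) (sa1 (sb2 (sb1 (sb0 R3)))) :=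
  Ref.s01 (by decide +kernel) j945 r960

theorem j947 : Ref (sb2 (sb0 (sb1 (sb0 R0)))) (sb2 (sb0 (sa2 (sa1 (sa0 R1))))) (sa0 (sb2 (sb0 (sb2 R2)))) (sa1 (sb2 (sb1 (sb0 R3)))) :=
  Ref.s21 (by decide +kernel) r956 j946

theorem j948 : Ref (sb0 (sb1 (sb0 R0))) (sb2 (sb0 (sa2 (sa1 (sa0 R1))))) (sa0 (sb2 (sb0 (sb2 R2)))) (sa1 (sb2 (sb1 (sb0 R3)))) :=
  Ref.s02 (by decide +kernel) r955 j947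

theorem j949 : Ref (sb1 (sb0 R0)) (sb2 (sb0 (sa2 (sa1 (sa0 R1))))) (sa0 (sb2 (sb0 (sb2 R2)))) (sa1 (sb2 (sb1 (sb0 R3)))) :=
  Ref.s00 (by decide +kernel) j943 j948

theorem j950 : Ref (sb1 (sb0 R0)) (sb2 (sb0 (sa2 (sa1 (sa0 R1))))) (sb2 (sb0 (sb2 R2))) (sa1 (sb2 (sb1 (sb0 R3)))) :=
  Ref.s20 (by decide +kernel) j949 r961

theorem j951 : Ref (sb1 (sb0 R0)) (sb2 (sb0 (sa2 (sa1 (sa0 R1))))) (sb0 (sb2 R2)) (sa1 (sb2 (sb1 (sb0 R3)))) :=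
  Ref.s22 (by decide +kernel) j941 j950

theorem j952 : Ref (sb1 (sb0 R0)) (sb2 (sb0 (sa2 (sa1 (sa0 R1))))) (sb0 (sb2 R2)) (sb2 (sb1 (sb0 R3))) :=
  Ref.s31 (by decide +kernel) j951 r962

theorem j953 : Ref (sb1 (sb0 R0)) (sb0 (sa2 (sa1 (sa0 R1)))) (sb0 (sb2 R2)) (sb2 (sb1 (sb0 R3))) :=
  Ref.s12 (by decide +kernel) j936 j952

theorem j954 : Ref (sb1 (sb0 R0)) (sa2 (sa1 (sa0 R1))) (sb0 (sb2 R2)) (sb2 (sb1 (sb0 R3))) :=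
  Ref.s10 (by decide +kernel) j934 j953

theorem j955 : Ref (sb0 R0) (sa2 (sa1 (sa0 R1))) (sb0 (sb2 R2)) (sb2 (sb1 (sb0 R3))) :=
  Ref.s01 (by decide +kernel) j907 j954

theorem j956 : Ref (sb0 R0) (sa2 (sa1 (sa0 R1))) (sb2 R2) (sb2 (sb1 (sb0 R3))) :=
  Ref.s20 (by decide +kernel) j859 j955

theorem j957 : Ref (sb1 (sb2 (sb0 R0))) (sb1 (sb2 (sa1 (sa0 R1)))) (sb0 (sb1 (sb2 R2))) (sb2 (sb2 (sb1 (sb0 R3)))) :=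
  Ref.s30 (by decide +kernel) r969 r970

theorem j958 : Ref (sb1 (sb2 (sb0 R0))) (sb1 (sb2 (sa1 (sa0 R1)))) (sb0 (sb1 (sb2 R2))) (sb2 (sb1 (sb0 R3))) :=
  Ref.s32 (by decide +kernel) r968 j957

theorem j959 : Ref (sb1 (sb2 (sb0 R0))) (sb2 (sa1 (sa0 R1))) (sb0 (sb1 (sb2 R2))) (sb2 (sb1 (sb0 R3))) :=
  Ref.s11 (by decide +kernel) r967 j958

theorem j960 : Ref (sb1 (sb2 (sb0 R0))) (sb2 (sa1 (sa0 R1))) (sb1 (sb2 R2)) (sb2 (sb1 (sb0 R3))) :=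
  Ref.s20 (by decide +kernel) r966 j959

theorem j961 : Ref (sb2 (sb0 R0)) (sb2 (sa1 (sa0 R1))) (sb1 (sb2 R2)) (sb2 (sb1 (sb0 R3))) :=
  Ref.s01 (by decide +kernel) r965 j960

theorem j962 : Ref (sb0 R0) (sb2 (sa1 (sa0 R1))) (sb1 (sb2 R2)) (sb2 (sb1 (sb0 R3))) :=
  Ref.s02 (by decide +kernel) r964 j961

theorem j963 : Ref (sb0 R0) (sb2 (sa1 (sa0 R1))) (sb2 R2) (sb2 (sb1 (sb0 R3))) :=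
  Ref.s21 (by decide +kernel) r963 j962

theorem j964 : Ref (sb0 R0) (sa1 (sa0 R1)) (sb2 R2) (sb2 (sb1 (sb0 R3))) :=
  Ref.s12 (by decide +kernel) j956 j963

theorem j965 : Ref (sb0 R0) (sa1 (sa0 R1)) R2 (sb2 (sb1 (sb0 R3))) :=
  Ref.s22 (by decide +kernel) j801 j964

theorem j966 : Ref R0 (sa1 (sa0 R1)) R2 (sb2 (sb1 (sb0 R3))) :=
  Ref.s00 (by decide +kernel) j798 j965

theorem j967 : Ref (sa2 (sa1 (sa0 R0))) (sb0 (sb1 (sa0 R1))) (sa1 (sb2 R2)) (sb2 (sa1 (sb2 (sb1 (sb0 R3))))) :=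
  Ref.s00 (by decide +kernel) r974 r975

theorem j968 : Ref (sa2 (sa1 (sa0 R0))) (sb0 (sb1 (sa0 R1))) (sa1 (sb2 R2)) (sa1 (sb2 (sb1 (sb0 R3)))) :=
  Ref.s32 (by decide +kernel) r973 j967

theorem j969 : Ref (sa2 (sa1 (sa0 R0))) (sb0 (sb1 (sa0 R1))) (sa1 (sb2 R2)) (sb2 (sb1 (sb0 R3))) :=
  Ref.s31 (by decide +kernel) j968 r976

theorem j970 : Ref (sa2 (sa1 (sa0 R0))) (sb1 (sa0 R1)) (sa1 (sb2 R2)) (sb2 (sb1 (sb0 R3))) :=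
  Ref.s10 (by decide +kernel) r972 j969

theorem j971 : Ref (sa1 (sa0 R0)) (sb1 (sa0 R1)) (sa1 (sb2 R2)) (sb2 (sb1 (sb0 R3))) :=
  Ref.s02 (by decide +kernel) j970 r977

theorem j972 : Ref (sa0 R0) (sb1 (sa0 R1)) (sa1 (sb2 R2)) (sb2 (sb1 (sb0 R3))) :=
  Ref.s01 (by decide +kernel) j971 r978

theorem j973 : Ref (sa1 (sa1 (sa2 (sa0 R0)))) (sb1 (sa0 R1)) (sa2 (sb0 (sb1 (sb2 R2)))) (sb2 (sb1 (sb0 R3))) :=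
  Ref.s00 (by decide +kernel) r980 r981

theorem j974 : Ref (sb2 (sa1 (sa1 (sa2 (sa0 R0))))) (sb2 (sb1 (sa0 R1))) (sb2 (sb0 (sb1 (sb2 R2)))) (sb0 (sb2 (sb1 (sb0 R3)))) :=
  Ref.s32 (by decide +kernel) r985 r986

theorem j975 : Ref (sb2 (sa1 (sa1 (sa2 (sa0 R0))))) (sb2 (sb1 (sa0 R1))) (sb2 (sb0 (sb1 (sb2 R2)))) (sb2 (sb1 (sb0 R3))) :=
  Ref.s30 (by decide +kernel) r984 j974

theorem j976 : Ref (sa1 (sa1 (sa2 (sa0 R0)))) (sb2 (sb1 (sa0 R1))) (sb2 (sb0 (sb1 (sb2 R2)))) (sb2 (sb1 (sb0 R3))) :=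
  Ref.s02 (by decide +kernel) r983 j975

theorem j977 : Ref (sa1 (sa1 (sa2 (sa0 R0)))) (sb1 (sa0 R1)) (sb2 (sb0 (sb1 (sb2 R2)))) (sb2 (sb1 (sb0 R3))) :=
  Ref.s12 (by decide +kernel) r982 j976

theorem j978 : Ref (sa1 (sa1 (sa2 (sa0 R0)))) (sb1 (sa0 R1)) (sb0 (sb1 (sb2 R2))) (sb2 (sb1 (sb0 R3))) :=
  Ref.s22 (by decide +kernel) j973 j977

theorem j979 : Ref (sa1 (sa2 (sa0 R0))) (sb1 (sa0 R1)) (sb0 (sb1 (sb2 R2))) (sb2 (sb1 (sb0 R3))) :=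
  Ref.s01 (by decide +kernel) j978 r987

theorem j980 : Ref (sa1 (sa2 (sa0 R0))) (sb1 (sa0 R1)) (sb1 (sb2 R2)) (sb2 (sb1 (sb0 R3))) :=
  Ref.s20 (by decide +kernel) r979 j979

theorem j981 : Ref (sa2 (sa0 R0)) (sb1 (sa0 R1)) (sb1 (sb2 R2)) (sb2 (sb1 (sb0 R3))) :=
  Ref.s01 (by decide +kernel) j980 r988

theorem j982 : Ref (sb0 (sa1 (sb1 (sb2 (sa0 R0))))) (sa1 (sb2 (sb1 (sa0 R1)))) (sb0 (sb1 (sb2 R2))) (sa1 (sb2 (sb1 (sb0 R3)))) :=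
  Ref.s32 (by decide +kernel) r993 r994

theorem j983 : Ref (sa1 (sb1 (sb2 (sa0 R0)))) (sa1 (sb2 (sb1 (sa0 R1)))) (sb0 (sb1 (sb2 R2))) (sa1 (sb2 (sb1 (sb0 R3)))) :=
  Ref.s00 (by decide +kernel) r992 j982

theorem j984 : Ref (sb1 (sb1 (sb2 (sa0 R0)))) (sa1 (sb2 (sb1 (sa0 R1)))) (sb0 (sb1 (sb2 R2))) (sa1 (sb2 (sb1 (sb0 R3)))) :=
  Ref.s22 (by decide +kernel) r995 r996

theorem j985 : Ref (sb1 (sb2 (sa0 R0))) (sa1 (sb2 (sb1 (sa0 R1)))) (sb0 (sb1 (sb2 R2))) (sa1 (sb2 (sb1 (sb0 R3)))) :=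
  Ref.s01 (by decide +kernel) j983 j984

theorem j986 : Ref (sb1 (sb2 (sa0 R0))) (sa1 (sb2 (sb1 (sa0 R1)))) (sb0 (sb1 (sb2 R2))) (sb2 (sb1 (sb0 R3))) :=
  Ref.s31 (by decide +kernel) j985 r997

theorem j987 : Ref (sb1 (sb2 (sa0 R0))) (sb2 (sb1 (sa0 R1))) (sb0 (sb1 (sb2 R2))) (sb2 (sb1 (sb0 R3))) :=
  Ref.s11 (by decide +kernel) j986 r998

theorem j988 : Ref (sb1 (sb2 (sa0 R0))) (sb1 (sa0 R1)) (sb0 (sb1 (sb2 R2))) (sb2 (sb1 (sb0 R3))) :=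
  Ref.s12 (by decide +kernel) r991 j987

theorem j989 : Ref (sb2 (sa0 R0)) (sb1 (sa0 R1)) (sb0 (sb1 (sb2 R2))) (sb2 (sb1 (sb0 R3))) :=
  Ref.s01 (by decide +kernel) r990 j988

theorem j990 : Ref (sb2 (sa0 R0)) (sb1 (sa0 R1)) (sb1 (sb2 R2)) (sb2 (sb1 (sb0 R3))) :=
  Ref.s20 (by decide +kernel) r989 j989

theorem j991 : Ref (sa0 R0) (sb1 (sa0 R1)) (sb1 (sb2 R2)) (sb2 (sb1 (sb0 R3))) :=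
  Ref.s02 (by decide +kernel) j981 j990

theorem j992 : Ref (sa0 R0) (sb1 (sa0 R1)) (sb2 R2) (sb2 (sb1 (sb0 R3))) :=
  Ref.s21 (by decide +kernel) j972 j991

theorem j993 : Ref (sa1 (sb0 R0)) (sb1 (sa0 R1)) (sa0 (sb2 R2)) (sb2 (sb1 (sb0 R3))) :=
  Ref.s02 (by decide +kernel) r999 r1000

theorem j994 : Ref (sa2 (sa1 (sb0 R0))) (sa1 (sb2 (sb1 (sa0 R1)))) (sa2 (sb0 (sb2 R2))) (sb2 (sb1 (sb0 R3))) :=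
  Ref.s02 (by decide +kernel) r1002 r1003

theorem j995 : Ref (sa2 (sa1 (sb0 R0))) (sb2 (sb1 (sa0 R1))) (sa2 (sb0 (sb2 R2))) (sb2 (sb1 (sb0 R3))) :=
  Ref.s11 (by decide +kernel) j994 r1004

theorem j996 : Ref (sa2 (sa1 (sb0 R0))) (sb1 (sa0 R1)) (sa2 (sb0 (sb2 R2))) (sb2 (sb1 (sb0 R3))) :=
  Ref.s12 (by decide +kernel) r1001 j995

theorem j997 : Ref (sa2 (sa1 (sb0 R0))) (sb1 (sa0 R1)) (sa0 (sb2 (sb0 (sb2 R2)))) (sb2 (sb1 (sb0 R3))) :=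
  Ref.s00 (by decide +kernel) r1005 r1006

theorem j998 : Ref (sa2 (sa1 (sb0 R0))) (sb1 (sa0 R1)) (sb2 (sb0 (sb2 R2))) (sb2 (sb1 (sb0 R3))) :=
  Ref.s20 (by decide +kernel) j997 r1007

theorem j999 : Ref (sa2 (sa1 (sb0 R0))) (sb1 (sa0 R1)) (sb0 (sb2 R2)) (sb2 (sb1 (sb0 R3))) :=
  Ref.s22 (by decide +kernel) j996 j998

theorem j1000 : Ref (sa1 (sb0 R0)) (sb1 (sa0 R1)) (sb0 (sb2 R2)) (sb2 (sb1 (sb0 R3))) :=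
  Ref.s02 (by decide +kernel) j999 r1008

theorem j1001 : Ref (sa1 (sb0 R0)) (sb1 (sa0 R1)) (sb2 R2) (sb2 (sb1 (sb0 R3))) :=
  Ref.s20 (by decide +kernel) j993 j1000

theorem j1002 : Ref (sb2 (sb1 (sb0 R0))) (sa2 (sb1 (sa0 R1))) (sa1 (sa0 (sb2 R2))) (sb2 (sb1 (sb0 R3))) :=
  Ref.s01 (by decide +kernel) r1010 r1011

theorem j1003 : Ref (sb2 (sb1 (sb0 R0))) (sa1 (sb2 (sb1 (sa0 R1)))) (sa2 (sa1 (sa0 (sb2 R2)))) (sb2 (sb1 (sb0 R3))) :=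
  Ref.s00 (by decide +kernel) r1012 r1013

theorem j1004 : Ref (sb2 (sb1 (sb0 R0))) (sa1 (sb2 (sb1 (sa0 R1)))) (sa1 (sa0 (sb2 R2))) (sb2 (sb1 (sb0 R3))) :=
  Ref.s22 (by decide +kernel) j1003 r1014

theorem j1005 : Ref (sb2 (sb1 (sb0 R0))) (sb2 (sb1 (sa0 R1))) (sa1 (sa0 (sb2 R2))) (sb2 (sb1 (sb0 R3))) :=
  Ref.s11 (by decide +kernel) j1004 r1015

theorem j1006 : Ref (sb2 (sb1 (sb0 R0))) (sb1 (sa0 R1)) (sa1 (sa0 (sb2 R2))) (sb2 (sb1 (sb0 R3))) :=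
  Ref.s12 (by decide +kernel) j1002 j1005

theorem j1007 : Ref (sb2 (sb1 (sb0 R0))) (sb1 (sa0 R1)) (sa0 (sb2 R2)) (sb2 (sb1 (sb0 R3))) :=
  Ref.s21 (by decide +kernel) j1006 r1016

theorem j1008 : Ref (sa1 (sb2 (sb1 (sb0 R0)))) (sb0 (sb2 (sb1 (sa0 R1)))) (sb1 (sa0 (sa2 (sb0 (sb2 R2))))) (sb2 (sa1 (sb2 (sb1 (sb0 R3))))) :=
  Ref.s31 (by decide +kernel) r1021 r1022

theorem j1009 : Ref (sa1 (sb2 (sb1 (sb0 R0)))) (sb0 (sb2 (sb1 (sa0 R1)))) (sa0 (sa2 (sb0 (sb2 R2)))) (sb2 (sa1 (sb2 (sb1 (sb0 R3))))) :=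
  Ref.s21 (by decide +kernel) r1020 j1008

theorem j1010 : Ref (sa1 (sb2 (sb1 (sb0 R0)))) (sb0 (sb2 (sb1 (sa0 R1)))) (sa2 (sb0 (sb2 R2))) (sb2 (sa1 (sb2 (sb1 (sb0 R3))))) :=
  Ref.s20 (by decide +kernel) j1009 r1023

theorem j1011 : Ref (sa1 (sb2 (sb1 (sb0 R0)))) (sb0 (sb2 (sb1 (sa0 R1)))) (sa2 (sb0 (sb2 R2))) (sa1 (sb2 (sb1 (sb0 R3)))) :=
  Ref.s32 (by decide +kernel) r1019 j1010

theorem j1012 : Ref (sa1 (sb2 (sb1 (sb0 R0)))) (sb0 (sb2 (sb1 (sa0 R1)))) (sa2 (sb0 (sb2 R2))) (sb2 (sb1 (sb0 R3))) :=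
  Ref.s31 (by decide +kernel) j1011 r1024

theorem j1013 : Ref (sb2 (sb1 (sb0 R0))) (sb0 (sb2 (sb1 (sa0 R1)))) (sa2 (sb0 (sb2 R2))) (sb2 (sb1 (sb0 R3))) :=
  Ref.s01 (by decide +kernel) j1012 r1025

theorem j1014 : Ref (sb2 (sb1 (sb0 R0))) (sb2 (sb1 (sa0 R1))) (sa2 (sb0 (sb2 R2))) (sb2 (sb1 (sb0 R3))) :=
  Ref.s10 (by decide +kernel) r1018 j1013

theorem j1015 : Ref (sb2 (sb1 (sb0 R0))) (sb1 (sa0 R1)) (sa2 (sb0 (sb2 R2))) (sb2 (sb1 (sb0 R3))) :=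
  Ref.s12 (by decide +kernel) r1017 j1014

theorem j1016 : Ref (sb2 (sb1 (sb0 R0))) (sa2 (sa1 (sb1 (sa0 R1)))) (sa0 (sb2 (sb0 (sb2 R2)))) (sb2 (sb1 (sb0 R3))) :=
  Ref.s10 (by decide +kernel) r1026 r1027

theorem j1017 : Ref (sb2 (sb1 (sb0 R0))) (sb2 (sa1 (sb1 (sa0 R1)))) (sa1 (sb1 (sa0 (sb2 (sb0 (sb2 R2)))))) (sa1 (sb2 (sb2 (sb1 (sb0 R3))))) :=
  Ref.s02 (by decide +kernel) r1030 r1031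

theorem j1018 : Ref (sa1 (sb2 (sb1 (sb0 R0)))) (sb2 (sa1 (sb1 (sa0 R1)))) (sb0 (sb1 (sb1 (sa0 (sb2 (sb0 (sb2 R2))))))) (sa1 (sb2 (sb2 (sb1 (sb0 R3))))) :=
  Ref.s31 (by decide +kernel) r1033 r1034

theorem j1019 : Ref (sa1 (sb2 (sb1 (sb0 R0)))) (sb2 (sa1 (sb1 (sa0 R1)))) (sb1 (sb1 (sa0 (sb2 (sb0 (sb2 R2)))))) (sa1 (sb2 (sb2 (sb1 (sb0 R3))))) :=
  Ref.s20 (by decide +kernel) r1032 j1018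

theorem j1020 : Ref (sb2 (sb1 (sb0 R0))) (sb2 (sa1 (sb1 (sa0 R1)))) (sb1 (sb1 (sa0 (sb2 (sb0 (sb2 R2)))))) (sa1 (sb2 (sb2 (sb1 (sb0 R3))))) :=
  Ref.s01 (by decide +kernel) j1019 r1035

theorem j1021 : Ref (sb2 (sb1 (sb0 R0))) (sb2 (sa1 (sb1 (sa0 R1)))) (sb1 (sa0 (sb2 (sb0 (sb2 R2))))) (sa1 (sb2 (sb2 (sb1 (sb0 R3))))) :=
  Ref.s21 (by decide +kernel) j1017 j1020

theorem j1022 : Ref (sb2 (sb1 (sb0 R0))) (sb2 (sa1 (sb1 (sa0 R1)))) (sb1 (sa0 (sb2 (sb0 (sb2 R2))))) (sb2 (sb2 (sb1 (sb0 R3)))) :=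
  Ref.s31 (by decide +kernel) j1021 r1036

theorem j1023 : Ref (sb2 (sb1 (sb0 R0))) (sb2 (sa1 (sb1 (sa0 R1)))) (sb1 (sa0 (sb2 (sb0 (sb2 R2))))) (sb2 (sb1 (sb0 R3))) :=
  Ref.s32 (by decide +kernel) r1029 j1022

theorem j1024 : Ref (sb2 (sb1 (sb0 R0))) (sb2 (sa1 (sb1 (sa0 R1)))) (sa0 (sb2 (sb0 (sb2 R2)))) (sb2 (sb1 (sb0 R3))) :=
  Ref.s21 (by decide +kernel) r1028 j1023

theorem j1025 : Ref (sb2 (sb1 (sb0 R0))) (sa1 (sb1 (sa0 R1))) (sa0 (sb2 (sb0 (sb2 R2)))) (sb2 (sb1 (sb0 R3))) :=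
  Ref.s12 (by decide +kernel) j1016 j1024

theorem j1026 : Ref (sb2 (sb1 (sb0 R0))) (sb1 (sa0 R1)) (sa0 (sb2 (sb0 (sb2 R2)))) (sb2 (sb1 (sb0 R3))) :=
  Ref.s11 (by decide +kernel) j1025 r1037

theorem j1027 : Ref (sb2 (sb1 (sb0 R0))) (sb1 (sa0 R1)) (sb2 (sb0 (sb2 R2))) (sb2 (sb1 (sb0 R3))) :=
  Ref.s20 (by decide +kernel) j1026 r1038

theorem j1028 : Ref (sb2 (sb1 (sb0 R0))) (sb1 (sa0 R1)) (sb0 (sb2 R2)) (sb2 (sb1 (sb0 R3))) :=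
  Ref.s22 (by decide +kernel) j1015 j1027

theorem j1029 : Ref (sb2 (sb1 (sb0 R0))) (sb1 (sa0 R1)) (sb2 R2) (sb2 (sb1 (sb0 R3))) :=
  Ref.s20 (by decide +kernel) j1007 j1028

theorem j1030 : Ref (sb1 (sb0 R0)) (sb1 (sa0 R1)) (sb2 R2) (sb2 (sb1 (sb0 R3))) :=
  Ref.s02 (by decide +kernel) r1009 j1029

theorem j1031 : Ref (sb0 R0) (sb1 (sa0 R1)) (sb2 R2) (sb2 (sb1 (sb0 R3))) :=
  Ref.s01 (by decide +kernel) j1001 j1030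

theorem j1032 : Ref R0 (sb1 (sa0 R1)) (sb2 R2) (sb2 (sb1 (sb0 R3))) :=
  Ref.s00 (by decide +kernel) j992 j1031

theorem j1033 : Ref R0 (sb1 (sa0 R1)) R2 (sb2 (sb1 (sb0 R3))) :=
  Ref.s22 (by decide +kernel) r971 j1032

theorem j1034 : Ref R0 (sa0 R1) R2 (sb2 (sb1 (sb0 R3))) :=
  Ref.s11 (by decide +kernel) j966 j1033

theorem j1035 : Ref R0 (sa0 (sa2 (sa1 (sb0 R1)))) (sa2 (sa0 R2)) (sb2 (sb1 (sb0 R3))) :=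
  Ref.s01 (by decide +kernel) r1039 r1040

theorem j1036 : Ref (sa1 R0) (sa0 (sa2 (sa1 (sb0 R1)))) (sb1 (sb2 (sa0 R2))) (sb2 (sb1 (sb0 R3))) :=
  Ref.s00 (by decide +kernel) r1042 r1043

theorem j1037 : Ref R0 (sa0 (sa2 (sa1 (sb0 R1)))) (sb1 (sb2 (sa0 R2))) (sb2 (sb1 (sb0 R3))) :=
  Ref.s01 (by decide +kernel) j1036 r1044

theorem j1038 : Ref R0 (sa0 (sa2 (sa1 (sb0 R1)))) (sb2 (sa0 R2)) (sb2 (sb1 (sb0 R3))) :=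
  Ref.s21 (by decide +kernel) r1041 j1037

theorem j1039 : Ref R0 (sa0 (sa2 (sa1 (sb0 R1)))) (sa0 R2) (sb2 (sb1 (sb0 R3))) :=
  Ref.s22 (by decide +kernel) j1035 j1038

theorem j1040 : Ref R0 (sa2 (sa1 (sb0 R1))) (sa0 R2) (sb2 (sb1 (sb0 R3))) :=
  Ref.s10 (by decide +kernel) j1039 r1045

theorem j1041 : Ref (sa1 R0) (sb2 (sa1 (sb0 R1))) (sb0 (sb1 (sb2 (sa0 R2)))) (sb2 (sb1 (sb0 R3))) :=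
  Ref.s00 (by decide +kernel) r1049 r1050

theorem j1042 : Ref (sa1 R0) (sb2 (sa1 (sb0 R1))) (sb1 (sb2 (sa0 R2))) (sb2 (sb1 (sb0 R3))) :=
  Ref.s20 (by decide +kernel) r1048 j1041

theorem j1043 : Ref (sa1 R0) (sb2 (sa1 (sb0 R1))) (sb2 (sa0 R2)) (sb2 (sb1 (sb0 R3))) :=
  Ref.s21 (by decide +kernel) r1047 j1042

theorem j1044 : Ref R0 (sb2 (sa1 (sb0 R1))) (sb2 (sa0 R2)) (sb2 (sb1 (sb0 R3))) :=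
  Ref.s01 (by decide +kernel) j1043 r1051

theorem j1045 : Ref R0 (sb2 (sa1 (sb0 R1))) (sa0 R2) (sb2 (sb1 (sb0 R3))) :=
  Ref.s22 (by decide +kernel) r1046 j1044

theorem j1046 : Ref R0 (sa1 (sb0 R1)) (sa0 R2) (sb2 (sb1 (sb0 R3))) :=
  Ref.s12 (by decide +kernel) j1040 j1045

theorem j1047 : Ref (sa0 (sa2 (sa1 (sa0 R0)))) (sb2 (sb1 (sb0 R1))) (sb2 (sa2 (sa1 (sa0 R2)))) (sb2 (sb2 (sb1 (sb0 R3)))) :=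
  Ref.s10 (by decide +kernel) r1055 r1056

theorem j1048 : Ref (sa0 (sa2 (sa1 (sa0 R0)))) (sb2 (sb1 (sb0 R1))) (sb2 (sa2 (sa1 (sa0 R2)))) (sb2 (sb1 (sb0 R3))) :=
  Ref.s32 (by decide +kernel) r1054 j1047

theorem j1049 : Ref (sa0 (sa2 (sa1 (sa0 R0)))) (sb2 (sb1 (sb0 R1))) (sa2 (sa1 (sa0 R2))) (sb2 (sb1 (sb0 R3))) :=
  Ref.s22 (by decide +kernel) r1053 j1048

theorem j1050 : Ref (sb0 (sa2 (sa1 (sa0 R0)))) (sb2 (sb2 (sb1 (sb0 R1)))) (sa2 (sa1 (sa0 R2))) (sb2 (sb1 (sb0 R3))) :=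
  Ref.s10 (by decide +kernel) r1058 r1059

theorem j1051 : Ref (sb0 (sa2 (sa1 (sa0 R0)))) (sb2 (sb1 (sb0 R1))) (sa2 (sa1 (sa0 R2))) (sb2 (sb1 (sb0 R3))) :=
  Ref.s12 (by decide +kernel) r1057 j1050

theorem j1052 : Ref (sa2 (sa1 (sa0 R0))) (sb2 (sb1 (sb0 R1))) (sa2 (sa1 (sa0 R2))) (sb2 (sb1 (sb0 R3))) :=
  Ref.s00 (by decide +kernel) j1049 j1051

theorem j1053 : Ref (sa1 (sa0 R0)) (sb2 (sb1 (sb0 R1))) (sa2 (sa1 (sa0 R2))) (sb2 (sb1 (sb0 R3))) :=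
  Ref.s02 (by decide +kernel) j1052 r1060

theorem j1054 : Ref (sa1 (sa0 R0)) (sb2 (sb1 (sb0 R1))) (sa1 (sa0 R2)) (sb2 (sb1 (sb0 R3))) :=
  Ref.s22 (by decide +kernel) j1053 r1061

theorem j1055 : Ref (sa0 R0) (sb2 (sb1 (sb0 R1))) (sa1 (sa0 R2)) (sb2 (sb1 (sb0 R3))) :=
  Ref.s01 (by decide +kernel) j1054 r1062

theorem j1056 : Ref (sa0 R0) (sb1 (sb0 R1)) (sa1 (sa0 R2)) (sb2 (sb1 (sb0 R3))) :=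
  Ref.s12 (by decide +kernel) r1052 j1055

theorem j1057 : Ref (sa0 R0) (sb1 (sb0 R1)) (sb1 (sa0 R2)) (sb2 (sb1 (sb0 R3))) :=
  Ref.s02 (by decide +kernel) r1063 r1064

theorem j1058 : Ref (sa0 R0) (sb1 (sb0 R1)) (sa0 R2) (sb2 (sb1 (sb0 R3))) :=
  Ref.s21 (by decide +kernel) j1056 j1057

theorem j1059 : Ref (sa0 (sa2 (sa2 (sa1 (sb0 R0))))) (sa0 (sb2 (sb2 (sb1 (sb0 R1))))) (sa0 (sa1 (sa2 (sa0 R2)))) (sb2 (sa1 (sb2 (sb1 (sb0 R3))))) :=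
  Ref.s00 (by decide +kernel) r1068 r1069

theorem j1060 : Ref (sa0 (sa2 (sa2 (sa1 (sb0 R0))))) (sb2 (sb2 (sb1 (sb0 R1)))) (sa0 (sa1 (sa2 (sa0 R2)))) (sb2 (sa1 (sb2 (sb1 (sb0 R3))))) :=
  Ref.s10 (by decide +kernel) j1059 r1070

theorem j1061 : Ref (sa0 (sa2 (sa2 (sa1 (sb0 R0))))) (sb2 (sb2 (sb1 (sb0 R1)))) (sa1 (sa2 (sa0 R2))) (sb2 (sa1 (sb2 (sb1 (sb0 R3))))) :=
  Ref.s20 (by decide +kernel) j1060 r1071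

theorem j1062 : Ref (sa0 (sa2 (sa2 (sa1 (sb0 R0))))) (sb2 (sb1 (sb0 R1))) (sa1 (sa2 (sa0 R2))) (sb2 (sa1 (sb2 (sb1 (sb0 R3))))) :=
  Ref.s12 (by decide +kernel) r1067 j1061

theorem j1063 : Ref (sa0 (sa2 (sa2 (sa1 (sb0 R0))))) (sb2 (sb1 (sb0 R1))) (sa1 (sa2 (sa0 R2))) (sa1 (sb2 (sb1 (sb0 R3)))) :=
  Ref.s32 (by decide +kernel) r1066 j1062

theorem j1064 : Ref (sa2 (sa2 (sa1 (sb0 R0)))) (sb2 (sb1 (sb0 R1))) (sa1 (sa2 (sa0 R2))) (sa1 (sb2 (sb1 (sb0 R3)))) :=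
  Ref.s00 (by decide +kernel) j1063 r1072

theorem j1065 : Ref (sa2 (sa1 (sb0 R0))) (sb2 (sb1 (sb0 R1))) (sa1 (sa2 (sa0 R2))) (sa1 (sb2 (sb1 (sb0 R3)))) :=
  Ref.s02 (by decide +kernel) j1064 r1073

theorem j1066 : Ref (sa2 (sa1 (sb0 R0))) (sb2 (sb1 (sb0 R1))) (sa1 (sa2 (sa0 R2))) (sb2 (sb1 (sb0 R3))) :=
  Ref.s31 (by decide +kernel) j1065 r1074

theorem j1067 : Ref (sa1 (sb0 R0)) (sb2 (sb1 (sb0 R1))) (sa1 (sa2 (sa0 R2))) (sb2 (sb1 (sb0 R3))) :=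
  Ref.s02 (by decide +kernel) j1066 r1075

theorem j1068 : Ref (sb2 (sa1 (sb0 (sb1 (sb0 R0))))) (sa0 (sa1 (sb2 (sb1 (sb0 R1))))) (sb2 (sa1 (sa2 (sa0 R2)))) (sb2 (sa1 (sb2 (sb1 (sb0 R3))))) :=
  Ref.s02 (by decide +kernel) r1080 r1081

theorem j1069 : Ref (sb2 (sa1 (sb0 (sb1 (sb0 R0))))) (sa1 (sb2 (sb1 (sb0 R1)))) (sb2 (sa1 (sa2 (sa0 R2)))) (sb2 (sa1 (sb2 (sb1 (sb0 R3))))) :=
  Ref.s10 (by decide +kernel) j1068 r1082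

theorem j1070 : Ref (sb2 (sa1 (sb0 (sb1 (sb0 R0))))) (sa1 (sb2 (sb1 (sb0 R1)))) (sb2 (sa1 (sa2 (sa0 R2)))) (sa1 (sb2 (sb1 (sb0 R3)))) :=
  Ref.s32 (by decide +kernel) r1079 j1069

theorem j1071 : Ref (sa1 (sb0 (sb1 (sb0 R0)))) (sa1 (sb2 (sb1 (sb0 R1)))) (sb2 (sa1 (sa2 (sa0 R2)))) (sa1 (sb2 (sb1 (sb0 R3)))) :=
  Ref.s02 (by decide +kernel) r1078 j1070

theorem j1072 : Ref (sa1 (sb0 (sb1 (sb0 R0)))) (sb2 (sb1 (sb0 R1))) (sb2 (sa1 (sa2 (sa0 R2)))) (sa1 (sb2 (sb1 (sb0 R3)))) :=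
  Ref.s11 (by decide +kernel) j1071 r1083

theorem j1073 : Ref (sa1 (sb0 (sb1 (sb0 R0)))) (sb2 (sb1 (sb0 R1))) (sa1 (sa2 (sa0 R2))) (sa1 (sb2 (sb1 (sb0 R3)))) :=
  Ref.s22 (by decide +kernel) r1077 j1072

theorem j1074 : Ref (sb0 (sb1 (sb0 R0))) (sb2 (sb1 (sb0 R1))) (sa1 (sa2 (sa0 R2))) (sa1 (sb2 (sb1 (sb0 R3)))) :=
  Ref.s01 (by decide +kernel) j1073 r1084

theorem j1075 : Ref (sb1 (sb0 R0)) (sb2 (sb1 (sb0 R1))) (sa1 (sa2 (sa0 R2))) (sa1 (sb2 (sb1 (sb0 R3)))) :=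
  Ref.s00 (by decide +kernel) r1076 j1074

theorem j1076 : Ref (sb1 (sb0 R0)) (sb2 (sb1 (sb0 R1))) (sa1 (sa2 (sa0 R2))) (sb2 (sb1 (sb0 R3))) :=
  Ref.s31 (by decide +kernel) j1075 r1085

theorem j1077 : Ref (sb0 R0) (sb2 (sb1 (sb0 R1))) (sa1 (sa2 (sa0 R2))) (sb2 (sb1 (sb0 R3))) :=
  Ref.s01 (by decide +kernel) j1067 j1076

theorem j1078 : Ref (sb0 R0) (sb1 (sb0 R1)) (sa1 (sa2 (sa0 R2))) (sb2 (sb1 (sb0 R3))) :=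
  Ref.s12 (by decide +kernel) r1065 j1077

theorem j1079 : Ref (sb0 R0) (sb1 (sb0 R1)) (sa2 (sa0 R2)) (sb2 (sb1 (sb0 R3))) :=
  Ref.s21 (by decide +kernel) j1078 r1086

theorem j1080 : Ref (sa0 (sa2 (sa1 (sb0 R0)))) (sa0 (sb2 (sb1 (sb0 R1)))) (sb0 (sb1 (sb2 (sa0 R2)))) (sb2 (sb2 (sb1 (sb0 R3)))) :=
  Ref.s11 (by decide +kernel) r1091 r1092

theorem j1081 : Ref (sa0 (sa2 (sa1 (sb0 R0)))) (sb2 (sb1 (sb0 R1))) (sb0 (sb1 (sb2 (sa0 R2)))) (sb2 (sb2 (sb1 (sb0 R3)))) :=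
  Ref.s10 (by decide +kernel) j1080 r1093

theorem j1082 : Ref (sa0 (sa2 (sa1 (sb0 R0)))) (sb2 (sb1 (sb0 R1))) (sb0 (sb1 (sb2 (sa0 R2)))) (sb2 (sb1 (sb0 R3))) :=
  Ref.s32 (by decide +kernel) r1090 j1081

theorem j1083 : Ref (sa2 (sa1 (sb0 R0))) (sb2 (sb1 (sb0 R1))) (sb0 (sb1 (sb2 (sa0 R2)))) (sb2 (sb1 (sb0 R3))) :=
  Ref.s00 (by decide +kernel) j1082 r1094

theorem j1084 : Ref (sa1 (sb0 R0)) (sb2 (sb1 (sb0 R1))) (sb0 (sb1 (sb2 (sa0 R2)))) (sb2 (sb1 (sb0 R3))) :=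
  Ref.s02 (by decide +kernel) j1083 r1095

theorem j1085 : Ref (sa1 (sb0 R0)) (sb2 (sb1 (sb0 R1))) (sb1 (sb2 (sa0 R2))) (sb2 (sb1 (sb0 R3))) :=
  Ref.s20 (by decide +kernel) r1089 j1084

theorem j1086 : Ref (sa1 (sb0 R0)) (sb2 (sb1 (sb0 R1))) (sb2 (sa0 R2)) (sb2 (sb1 (sb0 R3))) :=
  Ref.s21 (by decide +kernel) r1088 j1085

theorem j1087 : Ref (sb2 (sb1 (sb0 R0))) (sb2 (sb1 (sb0 R1))) (sa1 (sb2 (sa0 R2))) (sb2 (sb1 (sb0 R3))) :=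
  Ref.s11 (by decide +kernel) r1097 r1098

theorem j1088 : Ref (sb2 (sb2 (sb1 (sb0 R0)))) (sb2 (sb2 (sb1 (sb0 R1)))) (sa1 (sb1 (sb2 (sa0 R2)))) (sb2 (sb2 (sb1 (sb0 R3)))) :=
  Ref.s31 (by decide +kernel) r1102 r1103

theorem j1089 : Ref (sb2 (sb2 (sb1 (sb0 R0)))) (sb2 (sb2 (sb1 (sb0 R1)))) (sa1 (sb1 (sb2 (sa0 R2)))) (sb2 (sb1 (sb0 R3))) :=
  Ref.s32 (by decide +kernel) r1101 j1088

theorem j1090 : Ref (sb2 (sb2 (sb1 (sb0 R0)))) (sb2 (sb1 (sb0 R1))) (sa1 (sb1 (sb2 (sa0 R2)))) (sb2 (sb1 (sb0 R3))) :=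
  Ref.s12 (by decide +kernel) r1100 j1089

theorem j1091 : Ref (sb2 (sb1 (sb0 R0))) (sb2 (sb1 (sb0 R1))) (sa1 (sb1 (sb2 (sa0 R2)))) (sb2 (sb1 (sb0 R3))) :=
  Ref.s02 (by decide +kernel) r1099 j1090

theorem j1092 : Ref (sa1 (sb0 (sb2 (sb1 (sb0 R0))))) (sa1 (sa0 (sb2 (sb2 (sb1 (sb0 R1)))))) (sb0 (sb0 (sb1 (sb1 (sb2 (sa0 R2)))))) (sa1 (sb2 (sb2 (sb1 (sb0 R3))))) :=
  Ref.s02 (by decide +kernel) r1109 r1110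

theorem j1093 : Ref (sa1 (sb0 (sb2 (sb1 (sb0 R0))))) (sa0 (sb2 (sb2 (sb1 (sb0 R1))))) (sb0 (sb0 (sb1 (sb1 (sb2 (sa0 R2)))))) (sa1 (sb2 (sb2 (sb1 (sb0 R3))))) :=
  Ref.s11 (by decide +kernel) j1092 r1111

theorem j1094 : Ref (sb0 (sb2 (sb1 (sb0 R0)))) (sa0 (sb2 (sb2 (sb1 (sb0 R1))))) (sb0 (sb0 (sb1 (sb1 (sb2 (sa0 R2)))))) (sa1 (sb2 (sb2 (sb1 (sb0 R3))))) :=
  Ref.s01 (by decide +kernel) j1093 r1112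

theorem j1095 : Ref (sb0 (sb2 (sb1 (sb0 R0)))) (sa0 (sb2 (sb2 (sb1 (sb0 R1))))) (sb0 (sb1 (sb1 (sb2 (sa0 R2))))) (sa1 (sb2 (sb2 (sb1 (sb0 R3))))) :=
  Ref.s20 (by decide +kernel) r1108 j1094

theorem j1096 : Ref (sb2 (sb1 (sb0 R0))) (sa0 (sb2 (sb2 (sb1 (sb0 R1))))) (sb0 (sb1 (sb1 (sb2 (sa0 R2))))) (sa1 (sb2 (sb2 (sb1 (sb0 R3))))) :=
  Ref.s00 (by decide +kernel) r1107 j1095

theorem j1097 : Ref (sb2 (sb1 (sb0 R0))) (sb2 (sb2 (sb1 (sb0 R1)))) (sb0 (sb1 (sb1 (sb2 (sa0 R2))))) (sa1 (sb2 (sb2 (sb1 (sb0 R3))))) :=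
  Ref.s10 (by decide +kernel) j1096 r1113

theorem j1098 : Ref (sb2 (sb1 (sb0 R0))) (sb2 (sb1 (sb0 R1))) (sb0 (sb1 (sb1 (sb2 (sa0 R2))))) (sa1 (sb2 (sb2 (sb1 (sb0 R3))))) :=
  Ref.s12 (by decide +kernel) r1106 j1097

theorem j1099 : Ref (sb2 (sb1 (sb0 R0))) (sb2 (sb1 (sb0 R1))) (sb0 (sb1 (sb1 (sb2 (sa0 R2))))) (sb2 (sb2 (sb1 (sb0 R3)))) :=
  Ref.s31 (by decide +kernel) j1098 r1114

theorem j1100 : Ref (sb2 (sb1 (sb0 R0))) (sb2 (sb1 (sb0 R1))) (sb0 (sb1 (sb1 (sb2 (sa0 R2))))) (sb2 (sb1 (sb0 R3))) :=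
  Ref.s32 (by decide +kernel) r1105 j1099

theorem j1101 : Ref (sb2 (sb1 (sb0 R0))) (sb2 (sb1 (sb0 R1))) (sb1 (sb1 (sb2 (sa0 R2)))) (sb2 (sb1 (sb0 R3))) :=
  Ref.s20 (by decide +kernel) r1104 j1100

theorem j1102 : Ref (sb2 (sb1 (sb0 R0))) (sb2 (sb1 (sb0 R1))) (sb1 (sb2 (sa0 R2))) (sb2 (sb1 (sb0 R3))) :=
  Ref.s21 (by decide +kernel) j1091 j1101

theorem j1103 : Ref (sb2 (sb1 (sb0 R0))) (sb2 (sb1 (sb0 R1))) (sb2 (sa0 R2)) (sb2 (sb1 (sb0 R3))) :=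
  Ref.s21 (by decide +kernel) j1087 j1102

theorem j1104 : Ref (sb1 (sb0 R0)) (sb2 (sb1 (sb0 R1))) (sb2 (sa0 R2)) (sb2 (sb1 (sb0 R3))) :=
  Ref.s02 (by decide +kernel) r1096 j1103

theorem j1105 : Ref (sb0 R0) (sb2 (sb1 (sb0 R1))) (sb2 (sa0 R2)) (sb2 (sb1 (sb0 R3))) :=
  Ref.s01 (by decide +kernel) j1086 j1104

theorem j1106 : Ref (sb0 R0) (sb1 (sb0 R1)) (sb2 (sa0 R2)) (sb2 (sb1 (sb0 R3))) :=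
  Ref.s12 (by decide +kernel) r1087 j1105

theorem j1107 : Ref (sb0 R0) (sb1 (sb0 R1)) (sa0 R2) (sb2 (sb1 (sb0 R3))) :=
  Ref.s22 (by decide +kernel) j1079 j1106

theorem j1108 : Ref R0 (sb1 (sb0 R1)) (sa0 R2) (sb2 (sb1 (sb0 R3))) :=
  Ref.s00 (by decide +kernel) j1058 j1107

theorem j1109 : Ref R0 (sb0 R1) (sa0 R2) (sb2 (sb1 (sb0 R3))) :=
  Ref.s11 (by decide +kernel) j1046 j1108

theorem j1110 : Ref R0 (sb2 (sb0 R1)) (sb2 (sb0 R2)) (sb2 (sb1 (sb0 R3))) :=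
  Ref.s11 (by decide +kernel) r1117 r1118

theorem j1111 : Ref R0 (sb0 R1) (sb2 (sb0 R2)) (sb2 (sb1 (sb0 R3))) :=
  Ref.s12 (by decide +kernel) r1116 j1110

theorem j1112 : Ref R0 (sb0 R1) (sb0 R2) (sb2 (sb1 (sb0 R3))) :=
  Ref.s22 (by decide +kernel) r1115 j1111

theorem j1113 : Ref R0 (sb0 R1) R2 (sb2 (sb1 (sb0 R3))) :=
  Ref.s20 (by decide +kernel) j1109 j1112

theorem j1114 : Ref R0 R1 R2 (sb2 (sb1 (sb0 R3))) :=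
  Ref.s10 (by decide +kernel) j1034 j1113

theorem j1115 : Ref R0 R1 R2 (sb1 (sb0 R3)) :=
  Ref.s32 (by decide +kernel) r725 j1114

theorem j1116 : Ref R0 R1 R2 (sb0 R3) :=
  Ref.s31 (by decide +kernel) j722 j1115

theorem j1117 : Ref R0 R1 R2 R3 :=
  Ref.s30 (by decide +kernel) j462 j1116

/-- **The core of Theorem A.** -/
theorem core (D : Cols) : ¬ Facts D := core_of j1117 D

end Pool.Agent.Helper44.ThA
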